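import Mathlib
import Pool.Agent.Run7.h964.FM.E

/-! A criterion for hyperbolicity: a small disc of the sphere is mapped well inside itself and the
critical points enter the disc after one or two steps. -/

set_option autoImplicit false

open Topology Filter Metric Set
open Pool.Agent.H790R3.RB Pool.Agent.R239.Fat
open Pool.Agent.H790R3.RB.SP (pr_zero pr_ne pr_hc sp_pr sp_cont pr_eq_iff continuousAt_pr)

namespace Run7.h964.CS

open Run7.h964.FM

/-- the direction of `w` is in the disc of radius `ρ` about `b` -/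
def InD (b : ℂ × ℂ) (ρ : ℝ) (w : ℂ × ℂ) : Prop := ip b w ≠ 0 ∧ ‖ip (bp b) w‖ ≤ ρ * ‖ip b w‖

theorem hyp_two {d : ℕ} (hd : 2 ≤ d) {x : CV d} (hx : ND x) {b : ℂ × ℂ} (hb : b ≠ 0) {ρ : ℝ}
    (hρ : 0 < ρ) (h1 : ∀ z : ℂ, ‖z‖ ≤ ρ → InD b (ρ / 3) (hF x (b + z • bp b)))
    (h2 : ∀ c : ℂ × ℂ, c ≠ 0 → wr x c = 0 → InD b ρ (hF x c) ∨ InD b ρ (hF x (hF x c))) :
    HypTop (sp x) := by
  have hdet : (bp b).1 * b.2 - b.1 * (bp b).2 ≠ 0 := by
    have e : (bp b).1 * b.2 - b.1 * (bp b).2 = - ip b b := by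
      simp only [bp, ip]; ring
    rw [e, ip_self, neg_ne_zero]
    exact_mod_cast (pow_pos (en_pos hb) 2).ne'
  set H : Sph ≃ₜ Sph := mobH (bp b).1 b.1 (bp b).2 b.2 hdet with hH
  have hHp : ∀ p : ℂ × ℂ, p ≠ 0 → H (pr p) = pr (p.1 • bp b + p.2 • b) := by
    intro p hp
    have : H (pr p) = mob (bp b).1 b.1 (bp b).2 b.2 (pr p) := rfl
    rw [this, mob_pr hdet hp]
    congr 1
    refine Prod.ext ?_ ?_
    · simp only [Prod.fst_add, Prod.smul_fst, smul_eq_mul]; ring
    · simp only [Prod.snd_add, Prod.smul_snd, smul_eq_mul]; ring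
  have hHz : ∀ z : ℂ, H (z : Sph) = pr (b + z • bp b) := by
    intro z
    rw [← pr_coe z, hHp _ (coe_ne z)]
    congr 1
    rw [one_smul, add_comm]
  have hne : ∀ z : ℂ, b + z • bp b ≠ 0 := add_bp_ne hb
  have hpt : ∀ w : ℂ × ℂ, w ≠ 0 → ip b w ≠ 0 → pr w = H ((ip (bp b) w / ip b w : ℂ) : Sph) := by
    intro w hw hiw
    rw [hHz, pr_eq_iff hw (hne _)]
    have h3 := expand b w
    have hc : cr (((en b ^ 2 : ℝ) : ℂ) • w) (b + (ip (bp b) w / ip b w) • bp b) = 0 := by
      rw [h3]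
      have : ip b w • b + ip (bp b) w • bp b = ip b w • (b + (ip (bp b) w / ip b w) • bp b) := by
        rw [smul_add, smul_smul, mul_div_cancel₀ _ hiw]
      rw [this, cr_smul_left, cr_self, mul_zero]
    rw [cr_smul_left] at hc
    refine (mul_eq_zero.1 hc).resolve_left ?_
    exact_mod_cast (pow_pos (en_pos hb) 2).ne'
  have hFd : Differentiable ℂ (hF x) := by
    have := hF_iter_differentiable d 1
    simp only [Function.iterate_one] at this
    exact this.comp (differentiable_const x |>.prodMk differentiable_id)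
  set A : ℂ → ℂ × ℂ := fun z => hF x (b + z • bp b) with hA
  have hAd : Differentiable ℂ A := hFd.comp (by fun_prop)
  have hipd : ∀ p : ℂ × ℂ, Differentiable ℂ fun z => ip p (A z) := fun p =>
    (hAd.fst.const_mul _).add (hAd.snd.const_mul _)
  obtain ⟨z, hz1, hz2, hz3⟩ := hyp_of_disc (g := sp x) H
    (T := fun z => ip (bp b) (A z) / ip b (A z)) hρ
    (fun z hz => (hipd _ z).div (hipd _ z) (h1 z hz).1)
    (fun z hz => by
      rw [norm_div, div_le_iff₀ (norm_pos_iff.2 (h1 z hz).1)]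
      exact (h1 z hz).2)
    (fun z hz => by
      rw [hHz, sp_pr hx (hne z)]
      exact hpt _ (fun h0 => hne z (hx _ h0)) (h1 z hz).1)
  intro c hcr
  refine ⟨z, 1, one_pos, by simpa using hz1, ?_, ?_⟩
  · obtain ⟨U, hU, hU2⟩ := hz2
    exact ⟨U, hU, fun w hw => by simpa only [one_mul] using hU2 w hw⟩
  · simp only [one_mul]
    obtain ⟨hc1, hc2⟩ := pr_hc c
    have hw : wr x (hc c) = 0 := by
      by_contra hw
      exact hcr (hc1 ▸ INJL SP WR d x _ hd hx hc2 hw)
    have hFc : hF x (hc c) ≠ 0 := fun h0 => hc2 (hx _ h0)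
    have key : ∀ p : ℂ × ℂ, p ≠ 0 → InD b ρ (hF x p) →
        Tendsto (fun k : ℕ => (sp x)^[k] (pr p)) atTop (𝓝 z) := by
      intro p hp hD
      refine hz3 (pr p) ⟨ip (bp b) (hF x p) / ip b (hF x p), ?_, ?_⟩
      · rw [norm_div, div_le_iff₀ (norm_pos_iff.2 hD.1)]
        exact hD.2
      · rw [sp_pr hx hp]
        exact hpt _ (fun h0 => hp (hx _ h0)) hD.1
    rcases h2 _ hc2 hw with h3 | h3
    · rw [← hc1]
      exact key _ hc2 h3
    · have h4 := key _ hFc h3
      rw [← sp_pr hx hc2, hc1] at h4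
      rw [← tendsto_add_atTop_iff_nat 1]
      refine h4.congr fun k => ?_
      rw [Function.iterate_succ_apply]

end Run7.h964.CS
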