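import Mathlib
import Pool.Agent.Run7.h964.CS.A

/-! Pairs near `(α H, β H)`, `H` a binary form of degree `d`. -/

set_option autoImplicit false

open Topology Filter Metric Set
open Pool.Agent.H790R3.RB Pool.Agent.R239.Fat
open Pool.Agent.H790R3.RB.SP (pr_zero pr_ne pr_hc sp_pr sp_cont pr_eq_iff continuousAt_pr)

namespace Run7.h964.CS

open Run7.h964.FM

variable {d : ℕ}

/-- the binary form with coefficients `H` -/
noncomputable def fm (H : Fin (d + 1) → ℂ) (p : ℂ × ℂ) : ℂ :=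
  ∑ j : Fin (d + 1), H j * (p.1 ^ (j : ℕ) * p.2 ^ (d - (j : ℕ)))

/-- first partial derivative -/
noncomputable def fm1 (H : Fin (d + 1) → ℂ) (p : ℂ × ℂ) : ℂ :=
  ∑ j : Fin (d + 1), H j * (((j : ℕ) : ℂ) * p.1 ^ ((j : ℕ) - 1) * p.2 ^ (d - (j : ℕ)))

/-- second partial derivative -/
noncomputable def fm2 (H : Fin (d + 1) → ℂ) (p : ℂ × ℂ) : ℂ :=
  ∑ j : Fin (d + 1), H j * (((d - (j : ℕ) : ℕ) : ℂ) * p.1 ^ (j : ℕ) * p.2 ^ (d - (j : ℕ) - 1))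

/-- the rows of a pair -/
def row (x : CV d) (i : Fin 2) : Fin (d + 1) → ℂ := fun j => x (i, j)

/-- the pair `(b₁ H, b₂ H)` -/
def st (b : ℂ × ℂ) (H : Fin (d + 1) → ℂ) : CV d := fun r => (if r.1 = 0 then b.1 else b.2) * H r.2

theorem hF_eq (x : CV d) (p : ℂ × ℂ) : hF x p = (fm (row x 0) p, fm (row x 1) p) := rfl

theorem wr_eq (x : CV d) (p : ℂ × ℂ) :
    wr x p = cx (fm1 (row x 0) p, fm1 (row x 1) p) (fm2 (row x 0) p, fm2 (row x 1) p) := by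
  unfold wr cx fm1 fm2 row
  ring

/-- Euler's relation -/
theorem euler (H : Fin (d + 1) → ℂ) (p : ℂ × ℂ) :
    (d : ℂ) * fm H p = p.1 * fm1 H p + p.2 * fm2 H p := by
  unfold fm fm1 fm2
  rw [Finset.mul_sum, Finset.mul_sum, Finset.mul_sum, ← Finset.sum_add_distrib]
  refine Finset.sum_congr rfl fun j _ => ?_
  have hj : (j : ℕ) ≤ d := by omega
  have e1 : p.1 * (((j : ℕ) : ℂ) * p.1 ^ ((j : ℕ) - 1)) = ((j : ℕ) : ℂ) * p.1 ^ (j : ℕ) := by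
    rcases Nat.eq_zero_or_pos (j : ℕ) with h | h
    · rw [h]; simp
    · obtain ⟨k, hk⟩ : ∃ k, (j : ℕ) = k + 1 := ⟨j - 1, by omega⟩
      rw [hk, Nat.add_sub_cancel, pow_succ]; ring
  have e2 : p.2 * (((d - (j : ℕ) : ℕ) : ℂ) * p.2 ^ (d - (j : ℕ) - 1)) =
      ((d - (j : ℕ) : ℕ) : ℂ) * p.2 ^ (d - (j : ℕ)) := by
    rcases Nat.eq_zero_or_pos (d - (j : ℕ)) with h | h
    · rw [h]; simp
    · obtain ⟨k, hk⟩ : ∃ k, d - (j : ℕ) = k + 1 := ⟨d - (j : ℕ) - 1, by omega⟩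
      rw [hk, Nat.add_sub_cancel, pow_succ]; ring
  have e3 : (d : ℂ) = ((j : ℕ) : ℂ) + ((d - (j : ℕ) : ℕ) : ℂ) := by
    rw [← Nat.cast_add, Nat.add_sub_cancel' hj]
  calc (d : ℂ) * (H j * (p.1 ^ (j : ℕ) * p.2 ^ (d - (j : ℕ))))
      = H j * ((((j : ℕ) : ℂ) * p.1 ^ (j : ℕ)) * p.2 ^ (d - (j : ℕ)) +
        p.1 ^ (j : ℕ) * (((d - (j : ℕ) : ℕ) : ℂ) * p.2 ^ (d - (j : ℕ)))) := by rw [e3]; ring
    _ = _ := by rw [← e1, ← e2]; ring

theorem row_st0 (b : ℂ × ℂ) (H : Fin (d + 1) → ℂ) : row (st b H) 0 = b.1 • H := by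
  funext j; simp [row, st]

theorem row_st1 (b : ℂ × ℂ) (H : Fin (d + 1) → ℂ) : row (st b H) 1 = b.2 • H := by
  funext j; simp [row, st]

theorem fm_smul (a : ℂ) (H : Fin (d + 1) → ℂ) (p : ℂ × ℂ) : fm (a • H) p = a * fm H p := by
  unfold fm
  rw [Finset.mul_sum]
  exact Finset.sum_congr rfl fun j _ => by simp only [Pi.smul_apply, smul_eq_mul]; ring

theorem fm1_smul (a : ℂ) (H : Fin (d + 1) → ℂ) (p : ℂ × ℂ) : fm1 (a • H) p = a * fm1 H p := by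
  unfold fm1
  rw [Finset.mul_sum]
  exact Finset.sum_congr rfl fun j _ => by simp only [Pi.smul_apply, smul_eq_mul]; ring

theorem fm2_smul (a : ℂ) (H : Fin (d + 1) → ℂ) (p : ℂ × ℂ) : fm2 (a • H) p = a * fm2 H p := by
  unfold fm2
  rw [Finset.mul_sum]
  exact Finset.sum_congr rfl fun j _ => by simp only [Pi.smul_apply, smul_eq_mul]; ring

theorem hF_st (b : ℂ × ℂ) (H : Fin (d + 1) → ℂ) (p : ℂ × ℂ) : hF (st b H) p = fm H p • b := by
  rw [hF_eq, row_st0, row_st1, fm_smul, fm_smul]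
  refine Prod.ext ?_ ?_
  · simp only [Prod.smul_fst, smul_eq_mul]; ring
  · simp only [Prod.smul_snd, smul_eq_mul]; ring

theorem nf_le (p : ℂ × ℂ) : ‖p.1‖ ≤ en p := by
  refine le_of_sq_le_sq ?_ (en_nonneg p)
  rw [en_sq]; nlinarith [sq_nonneg ‖p.2‖]

theorem ns_le (p : ℂ × ℂ) : ‖p.2‖ ≤ en p := by
  refine le_of_sq_le_sq ?_ (en_nonneg p)
  rw [en_sq]; nlinarith [sq_nonneg ‖p.1‖]

theorem en_le_add (p : ℂ × ℂ) : en p ≤ ‖p.1‖ + ‖p.2‖ := by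
  refine le_of_sq_le_sq ?_ (by positivity)
  rw [en_sq]; nlinarith [norm_nonneg p.1, norm_nonneg p.2]

theorem norm_fm_le {G : Fin (d + 1) → ℂ} {r : ℝ} (hr : 0 ≤ r) (hG : ∀ j, ‖G j‖ ≤ r) (p : ℂ × ℂ) :
    ‖fm G p‖ ≤ (d + 1) * r * en p ^ d := by
  unfold fm
  refine (norm_sum_le _ _).trans ?_
  calc ∑ j : Fin (d + 1), ‖G j * (p.1 ^ (j : ℕ) * p.2 ^ (d - (j : ℕ)))‖
      ≤ ∑ _j : Fin (d + 1), r * en p ^ d := by
        refine Finset.sum_le_sum fun j _ => ?_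
        rw [norm_mul, norm_mul, norm_pow, norm_pow]
        have h1 := en_nonneg p
        have h2 : ‖p.1‖ ^ (j : ℕ) * ‖p.2‖ ^ (d - (j : ℕ)) ≤ en p ^ (j : ℕ) * en p ^ (d - (j : ℕ)) :=
          mul_le_mul (pow_le_pow_left₀ (norm_nonneg _) (nf_le p) _)
            (pow_le_pow_left₀ (norm_nonneg _) (ns_le p) _) (by positivity) (by positivity)
        rw [← pow_add, Nat.add_sub_cancel' (by omega)] at h2
        exact mul_le_mul (hG j) h2 (by positivity) hr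
    _ = _ := by rw [Finset.sum_const, Finset.card_univ, Fintype.card_fin, nsmul_eq_mul]; push_cast; ring

theorem norm_fm1_le {G : Fin (d + 1) → ℂ} {r : ℝ} (hr : 0 ≤ r) (hG : ∀ j, ‖G j‖ ≤ r) {p : ℂ × ℂ}
    (hp : en p = 1) : ‖fm1 G p‖ ≤ (d + 1) * (r * d) := by
  unfold fm1
  refine (norm_sum_le _ _).trans ?_
  calc ∑ j : Fin (d + 1), ‖G j * (((j : ℕ) : ℂ) * p.1 ^ ((j : ℕ) - 1) * p.2 ^ (d - (j : ℕ)))‖
      ≤ ∑ _j : Fin (d + 1), r * d := by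
        refine Finset.sum_le_sum fun j _ => ?_
        rw [norm_mul, norm_mul, norm_mul, norm_pow, norm_pow, Complex.norm_natCast]
        have h1 : ‖p.1‖ ^ ((j : ℕ) - 1) ≤ 1 := pow_le_one₀ (norm_nonneg _) (hp ▸ nf_le p)
        have h2 : ‖p.2‖ ^ (d - (j : ℕ)) ≤ 1 := pow_le_one₀ (norm_nonneg _) (hp ▸ ns_le p)
        have h3 : ((j : ℕ) : ℝ) ≤ d := by exact_mod_cast (by omega : (j : ℕ) ≤ d)
        have h4 : ((j : ℕ) : ℝ) * ‖p.1‖ ^ ((j : ℕ) - 1) * ‖p.2‖ ^ (d - (j : ℕ)) ≤ d * 1 * 1 := by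
          gcongr
        rw [mul_one, mul_one] at h4
        exact mul_le_mul (hG j) h4 (by positivity) hr
    _ = _ := by rw [Finset.sum_const, Finset.card_univ, Fintype.card_fin, nsmul_eq_mul]; push_cast; ring

theorem norm_fm2_le {G : Fin (d + 1) → ℂ} {r : ℝ} (hr : 0 ≤ r) (hG : ∀ j, ‖G j‖ ≤ r) {p : ℂ × ℂ}
    (hp : en p = 1) : ‖fm2 G p‖ ≤ (d + 1) * (r * d) := by
  unfold fm2
  refine (norm_sum_le _ _).trans ?_
  calc ∑ j : Fin (d + 1), ‖G j * (((d - (j : ℕ) : ℕ) : ℂ) * p.1 ^ (j : ℕ) *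
        p.2 ^ (d - (j : ℕ) - 1))‖
      ≤ ∑ _j : Fin (d + 1), r * d := by
        refine Finset.sum_le_sum fun j _ => ?_
        rw [norm_mul, norm_mul, norm_mul, norm_pow, norm_pow, Complex.norm_natCast]
        have h1 : ‖p.1‖ ^ (j : ℕ) ≤ 1 := pow_le_one₀ (norm_nonneg _) (hp ▸ nf_le p)
        have h2 : ‖p.2‖ ^ (d - (j : ℕ) - 1) ≤ 1 := pow_le_one₀ (norm_nonneg _) (hp ▸ ns_le p)
        have h3 : ((d - (j : ℕ) : ℕ) : ℝ) ≤ d := by exact_mod_cast (by omega : d - (j : ℕ) ≤ d)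
        have h4 : ((d - (j : ℕ) : ℕ) : ℝ) * ‖p.1‖ ^ (j : ℕ) * ‖p.2‖ ^ (d - (j : ℕ) - 1) ≤
            d * 1 * 1 := by
          gcongr
        rw [mul_one, mul_one] at h4
        exact mul_le_mul (hG j) h4 (by positivity) hr
    _ = _ := by rw [Finset.sum_const, Finset.card_univ, Fintype.card_fin, nsmul_eq_mul]; push_cast; ring

theorem fm_sub (G H : Fin (d + 1) → ℂ) (p : ℂ × ℂ) : fm (G - H) p = fm G p - fm H p := by
  unfold fm
  rw [← Finset.sum_sub_distrib]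
  exact Finset.sum_congr rfl fun j _ => by simp only [Pi.sub_apply]; ring

theorem fm1_sub (G H : Fin (d + 1) → ℂ) (p : ℂ × ℂ) : fm1 (G - H) p = fm1 G p - fm1 H p := by
  unfold fm1
  rw [← Finset.sum_sub_distrib]
  exact Finset.sum_congr rfl fun j _ => by simp only [Pi.sub_apply]; ring

theorem fm2_sub (G H : Fin (d + 1) → ℂ) (p : ℂ × ℂ) : fm2 (G - H) p = fm2 G p - fm2 H p := by
  unfold fm2
  rw [← Finset.sum_sub_distrib]
  exact Finset.sum_congr rfl fun j _ => by simp only [Pi.sub_apply]; ring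

/-- a vector close to a large multiple of `b` has a direction close to `b` -/
theorem dir {b e : ℂ × ℂ} (hb : b ≠ 0) {h : ℂ} {ρ δ : ℝ} (hρ : 0 < ρ) (hδ : 0 < δ)
    (he : en e ≤ δ) (hh : (1 + 3 / ρ) * δ ≤ ‖h‖ * en b) : InD b (ρ / 3) (h • b + e) := by
  have hbp := en_pos hb
  have h1 : ip b (h • b + e) = h * ((en b ^ 2 : ℝ) : ℂ) + ip b e := by
    rw [ip_add, ip_smul, ip_self]
  have h2 : ip (bp b) (h • b + e) = ip (bp b) e := by
    rw [ip_add, ip_smul, ip_orth, mul_zero, zero_add]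
  have h3 : ‖ip (bp b) e‖ ≤ en b * δ := by
    refine (ip_le _ _).trans ?_
    rw [en_bp]
    gcongr
  have h4 : ‖ip b e‖ ≤ en b * δ := (ip_le _ _).trans (by gcongr)
  have h5 : ‖h * ((en b ^ 2 : ℝ) : ℂ)‖ = ‖h‖ * en b * en b := by
    rw [norm_mul, Complex.norm_real, Real.norm_eq_abs, abs_of_pos (pow_pos hbp 2)]; ring
  have h6 : ‖h * ((en b ^ 2 : ℝ) : ℂ)‖ ≤ ‖ip b (h • b + e)‖ + ‖ip b e‖ := by
    have : h * ((en b ^ 2 : ℝ) : ℂ) = ip b (h • b + e) - ip b e := by rw [h1]; ring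
    rw [this]
    exact norm_sub_le _ _
  have h7 : (1 + 3 / ρ) * δ * en b ≤ ‖h‖ * en b * en b := by gcongr
  have h8 : 3 / ρ * (en b * δ) ≤ ‖ip b (h • b + e)‖ := by
    have : (1 + 3 / ρ) * δ * en b = en b * δ + 3 / ρ * (en b * δ) := by ring
    linarith
  refine ⟨fun h0 => ?_, ?_⟩
  · rw [h0, norm_zero] at h8
    have : 0 < 3 / ρ * (en b * δ) := by positivity
    linarith
  · rw [h2]
    calc ‖ip (bp b) e‖ ≤ en b * δ := h3
      _ = ρ / 3 * (3 / ρ * (en b * δ)) := by field_simp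
      _ ≤ _ := by gcongr

theorem InD.mono {b w : ℂ × ℂ} {ρ ρ' : ℝ} (h : InD b ρ w) (hρ : ρ ≤ ρ') : InD b ρ' w :=
  ⟨h.1, h.2.trans (mul_le_mul_of_nonneg_right hρ (norm_nonneg _))⟩

/-- the pair at a point, compared with the constant -/
theorem hF_near {b : ℂ × ℂ} {H : Fin (d + 1) → ℂ} {x : CV d} {r : ℝ} (hx : ‖x - st b H‖ ≤ r)
    (p : ℂ × ℂ) : ∃ e : ℂ × ℂ, hF x p = fm H p • b + e ∧ en e ≤ 2 * (d + 1) * r * en p ^ d := by
  have hr : 0 ≤ r := (norm_nonneg _).trans hx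
  refine ⟨hF x p - hF (st b H) p, ?_, ?_⟩
  · rw [hF_st]; abel
  · have h0 : ∀ i j, ‖(row x i - row (st b H) i) j‖ ≤ r := fun i j =>
      (norm_le_pi_norm (x - st b H) (i, j)).trans hx
    refine (en_le_add _).trans ?_
    rw [hF_eq, hF_eq]
    simp only [Prod.fst_sub, Prod.snd_sub]
    rw [← fm_sub, ← fm_sub]
    have h1 := norm_fm_le hr (h0 0) p
    have h2 := norm_fm_le hr (h0 1) p
    linarith

theorem hF_dir {b : ℂ × ℂ} (hb : b ≠ 0) {H : Fin (d + 1) → ℂ} {x : CV d} {r ρ : ℝ} (hr : 0 < r)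
    (hρ : 0 < ρ) (hx : ‖x - st b H‖ ≤ r) {p : ℂ × ℂ} (hp : p ≠ 0)
    (h : (1 + 3 / ρ) * (2 * (d + 1) / en b) * r * en p ^ d ≤ ‖fm H p‖) :
    InD b (ρ / 3) (hF x p) := by
  obtain ⟨e, he, he2⟩ := hF_near hx p
  have hbp := en_pos hb
  have hpp := en_pos hp
  rw [he]
  refine dir hb hρ (δ := 2 * (d + 1) * r * en p ^ d) (by positivity) he2 ?_
  calc (1 + 3 / ρ) * (2 * (d + 1) * r * en p ^ d)
      = (1 + 3 / ρ) * (2 * (d + 1) / en b) * r * en p ^ d * en b := by field_simp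
    _ ≤ _ := by gcongr

theorem fm_cont (H : Fin (d + 1) → ℂ) : Continuous (fm H) := by unfold fm; fun_prop
theorem fm1_cont (H : Fin (d + 1) → ℂ) : Continuous (fm1 H) := by unfold fm1; fun_prop
theorem fm2_cont (H : Fin (d + 1) → ℂ) : Continuous (fm2 H) := by unfold fm2; fun_prop

theorem fm_scale (H : Fin (d + 1) → ℂ) (c : ℂ) (p : ℂ × ℂ) : fm H (c • p) = c ^ d * fm H p := by
  unfold fm
  rw [Finset.mul_sum]
  refine Finset.sum_congr rfl fun j _ => ?_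
  simp only [Prod.smul_fst, Prod.smul_snd, smul_eq_mul, mul_pow]
  have : c ^ d = c ^ (j : ℕ) * c ^ (d - (j : ℕ)) := by
    rw [← pow_add, Nat.add_sub_cancel' (by omega)]
  rw [this]; ring

theorem inD_eq {b w : ℂ × ℂ} (hb : b ≠ 0) (h : ip b w ≠ 0) :
    w = (ip b w / ((en b ^ 2 : ℝ) : ℂ)) • (b + (ip (bp b) w / ip b w) • bp b) := by
  have h1 := expand b w
  have h2 : ((en b ^ 2 : ℝ) : ℂ) ≠ 0 := by exact_mod_cast (pow_pos (en_pos hb) 2).ne'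
  have h3 : w = ((en b ^ 2 : ℝ) : ℂ)⁻¹ • (((en b ^ 2 : ℝ) : ℂ) • w) := by
    rw [smul_smul, inv_mul_cancel₀ h2, one_smul]
  rw [h1] at h3
  rw [div_eq_inv_mul, mul_smul, smul_add, smul_smul, mul_div_cancel₀ _ h]
  exact h3

/-- `H` does not vanish near its nonzero `b` -/
theorem lower {b : ℂ × ℂ} (hb : b ≠ 0) {H : Fin (d + 1) → ℂ} (hH : fm H b ≠ 0) :
    ∃ ρ h₀ : ℝ, 0 < ρ ∧ ρ ≤ 1 ∧ 0 < h₀ ∧ ∀ w : ℂ × ℂ, InD b ρ w → h₀ * en w ^ d ≤ ‖fm H w‖ := by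
  have hbp := en_pos hb
  set g : ℂ → ℝ := fun z => ‖fm H (b + z • bp b)‖ / en (b + z • bp b) ^ d with hg
  have hgc : Continuous g := by
    have h1 : Continuous fun z : ℂ => b + z • bp b := by fun_prop
    refine ((fm_cont H).comp h1).norm.div ((en_continuous.comp h1).pow d) fun z => ?_
    exact pow_ne_zero _ (en_pos (add_bp_ne hb z)).ne'
  have hg0 : 0 < g 0 := by
    simp only [hg, zero_smul, add_zero]
    exact div_pos (norm_pos_iff.2 hH) (pow_pos hbp _)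
  have h1 : ∀ᶠ z in 𝓝 (0 : ℂ), g 0 / 2 < g z :=
    hgc.continuousAt.eventually (lt_mem_nhds (by linarith))
  obtain ⟨δ, hδ, h2⟩ := Metric.eventually_nhds_iff.1 h1
  refine ⟨min (δ / 2) 1, g 0 / 2, lt_min (by positivity) one_pos, min_le_right _ _, by positivity,
    fun w hw => ?_⟩
  have h3 := inD_eq hb hw.1
  set c : ℂ := ip b w / ((en b ^ 2 : ℝ) : ℂ) with hc
  set z : ℂ := ip (bp b) w / ip b w with hz
  have hzn : ‖z‖ < δ := by
    rw [hz, norm_div]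
    refine lt_of_le_of_lt (b := δ / 2) ?_ (by linarith)
    rw [div_le_iff₀ (norm_pos_iff.2 hw.1)]
    exact hw.2.trans (mul_le_mul_of_nonneg_right (min_le_left _ _) (norm_nonneg _))
  have h4 : g 0 / 2 < g z := h2 (by rw [dist_zero_right]; exact hzn)
  have h5 : 0 < en (b + z • bp b) ^ d := pow_pos (en_pos (add_bp_ne hb z)) _
  simp only [hg] at h4
  rw [lt_div_iff₀ h5] at h4
  rw [h3, fm_scale, en_smul, norm_mul, norm_pow, mul_pow]
  calc g 0 / 2 * (‖c‖ ^ d * en (b + z • bp b) ^ d) = ‖c‖ ^ d * (g 0 / 2 * en (b + z • bp b) ^ d) := by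
        ring
    _ ≤ _ := by
        refine mul_le_mul_of_nonneg_left h4.le (by positivity)

theorem inD_line {b : ℂ × ℂ} (hb : b ≠ 0) {ρ : ℝ} {z : ℂ} (hz : ‖z‖ ≤ ρ) :
    InD b ρ (b + z • bp b) := by
  have hbp := en_pos hb
  have e1 : ip b (b + z • bp b) = ((en b ^ 2 : ℝ) : ℂ) := by
    rw [← ip_self]
    simp only [ip, bp, Prod.fst_add, Prod.snd_add, Prod.smul_fst, Prod.smul_snd, smul_eq_mul,
      Complex.star_def]
    ring
  have e2 : ip (bp b) (b + z • bp b) = z * ((en b ^ 2 : ℝ) : ℂ) := by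
    have h1 : ip (bp b) (bp b) = ((en b ^ 2 : ℝ) : ℂ) := by rw [ip_self, en_bp]
    rw [ip_add, ip_smul, ip_orth, h1, zero_add]
  refine ⟨?_, ?_⟩
  · rw [e1]; exact_mod_cast (pow_pos hbp 2).ne'
  · rw [e1, e2, norm_mul]
    exact mul_le_mul_of_nonneg_right hz (norm_nonneg _)

/-- Criterion for pairs near `(b₁ H, b₂ H)`. -/
theorem crit_hyp (hd : 2 ≤ d) {b : ℂ × ℂ} (hb : b ≠ 0) {H : Fin (d + 1) → ℂ} {ρ h₀ : ℝ}
    (hρ : 0 < ρ) (hlow : ∀ w : ℂ × ℂ, InD b ρ w → h₀ * en w ^ d ≤ ‖fm H w‖)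
    {x : CV d} (hnd : ND x) {r : ℝ} (hr : 0 < r) (hx : ‖x - st b H‖ ≤ r)
    (hr0 : (1 + 3 / ρ) * (2 * (d + 1) / en b) * r ≤ h₀)
    (h : ∀ c : ℂ × ℂ, c ≠ 0 → wr x c = 0 → InD b ρ (hF x c) ∨
      (1 + 3 / ρ) * (2 * (d + 1) / en b) * r * en (hF x c) ^ d ≤ ‖fm H (hF x c)‖) :
    HypTop (sp x) := by
  refine hyp_two hd hnd hb hρ (fun z hz => ?_) (fun c hc hw => ?_)
  · have hne := add_bp_ne hb z
    refine hF_dir hb hr hρ hx hne ?_
    refine le_trans ?_ (hlow _ (inD_line hb hz))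
    have := pow_nonneg (en_nonneg (b + z • bp b)) d
    exact mul_le_mul_of_nonneg_right hr0 this
  · rcases h c hc hw with h1 | h1
    · exact Or.inl h1
    · refine Or.inr ?_
      have hne : hF x c ≠ 0 := fun h0 => hc (hnd c h0)
      exact (hF_dir hb hr hρ hx hne h1).mono (by linarith)

end Run7.h964.CS
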