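import Mathlib
import Pool.Agent.Run7.h964.CS.B
import Pool.Agent.H790R3.RB.TWR

/-! Near `(b₁ H, b₂ H)` with `H` without multiple zeros and `H b ≠ 0` all maps are hyperbolic. -/

set_option autoImplicit false

open Topology Filter Metric Set
open Pool.Agent.H790R3.RB Pool.Agent.R239.Fat
open Pool.Agent.H790R3.RB.SP (pr_zero pr_ne pr_hc sp_pr sp_cont pr_eq_iff continuousAt_pr)

namespace Run7.h964.CS

open Run7.h964.FM

variable {d : ℕ}

theorem hF_scale (x : CV d) (c : ℂ) (p : ℂ × ℂ) : hF x (c • p) = c ^ d • hF x p := by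
  rw [hF_eq, hF_eq, fm_scale, fm_scale]
  rfl

theorem inD_scale {b w : ℂ × ℂ} {ρ : ℝ} {c : ℂ} (hc : c ≠ 0) (h : InD b ρ w) :
    InD b ρ (c • w) := by
  refine ⟨?_, ?_⟩
  · rw [ip_smul]; exact mul_ne_zero hc h.1
  · rw [ip_smul, ip_smul, norm_mul, norm_mul]
    calc ‖c‖ * ‖ip (bp b) w‖ ≤ ‖c‖ * (ρ * ‖ip b w‖) := by gcongr; exact h.2
      _ = _ := by ring

theorem unit_smul {c : ℂ × ℂ} (hc : c ≠ 0) : ∃ (k : ℂ) (e : ℂ × ℂ), k ≠ 0 ∧ en e = 1 ∧ c = k • e := by
  have h := en_pos hc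
  refine ⟨(en c : ℂ), ((en c : ℂ)⁻¹) • c, by exact_mod_cast h.ne', ?_, ?_⟩
  · rw [en_smul, norm_inv, Complex.norm_real, Real.norm_eq_abs, abs_of_pos h, inv_mul_cancel₀ h.ne']
  · rw [smul_smul, mul_inv_cancel₀ (by exact_mod_cast h.ne'), one_smul]

theorem compact_unit : IsCompact {p : ℂ × ℂ | en p = 1} := by
  refine Metric.isCompact_of_isClosed_isBounded (isClosed_eq en_continuous continuous_const) ?_
  refine (Metric.isBounded_closedBall (x := (0 : ℂ × ℂ)) (r := 1)).subset fun p hp => ?_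
  rw [mem_closedBall, dist_zero_right, Prod.norm_def]
  rw [Set.mem_ofPred_eq] at hp
  exact max_le (hp ▸ nf_le p) (hp ▸ ns_le p)

/-- vectors proportional to a vector with direction near `b` -/
theorem inD_of_cx {b v w : ℂ × ℂ} {ρ : ℝ} (hv : InD b ρ v) (hw : w ≠ 0) (h : cx v w = 0) :
    InD b ρ w := by
  have hv0 : v ≠ 0 := by
    rintro rfl
    exact hv.1 (by simp [ip])
  have hv2 : ((en v ^ 2 : ℝ) : ℂ) ≠ 0 := by exact_mod_cast (pow_pos (en_pos hv0) 2).ne'
  have h1 : ((en v ^ 2 : ℝ) : ℂ) • w = ip v w • v := by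
    rw [expand v w, ip_bp, h, zero_smul, add_zero]
  have h2 : w = (((en v ^ 2 : ℝ) : ℂ)⁻¹ * ip v w) • v := by
    rw [mul_smul, ← h1, smul_smul, inv_mul_cancel₀ hv2, one_smul]
  have h3 : ((en v ^ 2 : ℝ) : ℂ)⁻¹ * ip v w ≠ 0 := by
    intro h0
    rw [h0, zero_smul] at h2
    exact hw h2
  rw [h2]
  exact inD_scale h3 hv

theorem simple_hyp (hd : 2 ≤ d) {b : ℂ × ℂ} (hb : b ≠ 0) {H : Fin (d + 1) → ℂ} (hH : fm H b ≠ 0)
    (hs : ∀ c : ℂ × ℂ, c ≠ 0 → ¬ (fm1 H c = 0 ∧ fm2 H c = 0)) :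
    ∃ r : ℝ, 0 < r ∧ ∀ x : CV d, ND x → ‖x - st b H‖ ≤ r → HypTop (sp x) := by
  obtain ⟨ρ, h₀, hρ, hρ1, hh₀, hlow⟩ := lower hb hH
  have hbp := en_pos hb
  have hdpos : (0 : ℝ) < d := by exact_mod_cast (by omega : 0 < d)
  -- lower bound for the partial derivatives
  obtain ⟨m, hm, hm2⟩ : ∃ m : ℝ, 0 < m ∧ ∀ c : ℂ × ℂ, en c = 1 → m ≤ ‖fm1 H c‖ ∨ m ≤ ‖fm2 H c‖ := by
    have hc : ContinuousOn (fun c => max ‖fm1 H c‖ ‖fm2 H c‖) {p : ℂ × ℂ | en p = 1} :=
      ((fm1_cont H).norm.max (fm2_cont H).norm).continuousOn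
    have hne : ({p : ℂ × ℂ | en p = 1}).Nonempty := ⟨(1, 0), by simp [en]⟩
    obtain ⟨c₀, hc₀, hmin⟩ := compact_unit.exists_isMinOn hne hc
    have hc₀0 : c₀ ≠ 0 := by
      rintro rfl
      rw [Set.mem_ofPred_eq, en_eq_zero.2 rfl] at hc₀
      exact zero_ne_one hc₀
    refine ⟨max ‖fm1 H c₀‖ ‖fm2 H c₀‖, ?_, fun c hc => ?_⟩
    · by_contra hcon
      rw [not_lt] at hcon
      have h1 := (le_max_left _ _).trans hcon
      have h2 := (le_max_right _ _).trans hcon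
      exact hs c₀ hc₀0 ⟨norm_le_zero_iff.1 h1, norm_le_zero_iff.1 h2⟩
    · exact le_max_iff.1 (hmin hc)
  set K : ℝ := (1 + 3 / ρ) * (2 * (d + 1) / en b) with hK
  have hKp : 0 < K := by positivity
  set L : ℝ := (1 + 3 / ρ) * (2 * (d + 1) * d) / en b with hL
  have hLp : 0 < L := by positivity
  refine ⟨min (h₀ / K) (m / L), lt_min (by positivity) (by positivity), fun x hx hxr => ?_⟩
  set r : ℝ := min (h₀ / K) (m / L) with hr
  have hr0 : 0 < r := lt_min (by positivity) (by positivity)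
  have hrK : K * r ≤ h₀ := by
    rw [mul_comm, ← le_div_iff₀ hKp]; exact min_le_left _ _
  have hrL : L * r ≤ m := by
    rw [mul_comm, ← le_div_iff₀ hLp]; exact min_le_right _ _
  refine crit_hyp hd hb hρ hlow hx hr0 hxr hrK fun c hc hw => Or.inl ?_
  obtain ⟨k, e, hk, he, rfl⟩ := unit_smul hc
  have he0 : e ≠ 0 := by
    rintro rfl
    rw [en_eq_zero.2 rfl] at he
    exact zero_ne_one he
  rw [hF_scale]
  refine inD_scale (pow_ne_zero _ hk) ?_
  have hw' : wr x e = 0 := by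
    rw [(WR d x hd).1] at hw
    exact (mul_eq_zero.1 hw).resolve_left (pow_ne_zero _ hk)
  have hFe : hF x e ≠ 0 := fun h0 => he0 (hx e h0)
  -- Euler: the value is proportional to both partial derivatives
  set D1 : ℂ × ℂ := (fm1 (row x 0) e, fm1 (row x 1) e) with hD1
  set D2 : ℂ × ℂ := (fm2 (row x 0) e, fm2 (row x 1) e) with hD2
  have hcx : cx D1 D2 = 0 := by rw [← hw', wr_eq]
  have hE : (d : ℂ) • hF x e = e.1 • D1 + e.2 • D2 := by
    rw [hF_eq]
    refine Prod.ext ?_ ?_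
    · simp only [Prod.smul_fst, Prod.fst_add, smul_eq_mul, hD1, hD2]
      exact euler _ _
    · simp only [Prod.smul_snd, Prod.snd_add, smul_eq_mul, hD1, hD2]
      exact euler _ _
  have hd0 : (d : ℂ) ≠ 0 := by exact_mod_cast (by omega : d ≠ 0)
  have hself : ∀ v : ℂ × ℂ, cx v v = 0 := fun v => by unfold cx; ring
  have hsw : ∀ v w : ℂ × ℂ, cx v w = - cx w v := fun v w => by unfold cx; ring
  have h1 : cx D1 (hF x e) = 0 := by
    have h2 := congrArg (cx D1) hE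
    rw [cx_smul, cx_add, cx_smul, cx_smul, hself, hcx, mul_zero, mul_zero, add_zero] at h2
    exact (mul_eq_zero.1 h2).resolve_left hd0
  have h2 : cx D2 (hF x e) = 0 := by
    have h2 := congrArg (cx D2) hE
    rw [cx_smul, cx_add, cx_smul, cx_smul, hself, hsw D2 D1, hcx, neg_zero, mul_zero, mul_zero,
      add_zero] at h2
    exact (mul_eq_zero.1 h2).resolve_left hd0
  have hrow : ∀ i j, ‖(row x i - row (st b H) i) j‖ ≤ r := fun i j =>
    (norm_le_pi_norm (x - st b H) (i, j)).trans hxr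
  have hδ : 0 < 2 * ((d + 1) * (r * d)) := by positivity
  have hbig : ∀ h : ℂ, m ≤ ‖h‖ → (1 + 3 / ρ) * (2 * ((d + 1) * (r * d))) ≤ ‖h‖ * en b := by
    intro h hh
    calc (1 + 3 / ρ) * (2 * ((d + 1) * (r * d))) = L * r * en b := by rw [hL]; field_simp
      _ ≤ m * en b := by gcongr
      _ ≤ _ := by gcongr
  rcases hm2 e he with h3 | h3
  · refine inD_of_cx (v := D1) ?_ hFe h1
    have h4 : D1 = fm1 H e • b + (D1 - fm1 H e • b) := by abel
    rw [h4]
    refine (dir hb hρ hδ ?_ (hbig _ h3)).mono (by linarith)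
    refine (en_le_add _).trans ?_
    have e1 : (D1 - fm1 H e • b).1 = fm1 (row x 0 - row (st b H) 0) e := by
      rw [fm1_sub, row_st0, fm1_smul, hD1]
      simp only [Prod.fst_sub, Prod.smul_fst, smul_eq_mul]; ring
    have e2 : (D1 - fm1 H e • b).2 = fm1 (row x 1 - row (st b H) 1) e := by
      rw [fm1_sub, row_st1, fm1_smul, hD1]
      simp only [Prod.snd_sub, Prod.smul_snd, smul_eq_mul]; ring
    rw [e1, e2]
    have := norm_fm1_le hr0.le (hrow 0) he
    have := norm_fm1_le hr0.le (hrow 1) he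
    linarith
  · refine inD_of_cx (v := D2) ?_ hFe h2
    have h4 : D2 = fm2 H e • b + (D2 - fm2 H e • b) := by abel
    rw [h4]
    refine (dir hb hρ hδ ?_ (hbig _ h3)).mono (by linarith)
    refine (en_le_add _).trans ?_
    have e1 : (D2 - fm2 H e • b).1 = fm2 (row x 0 - row (st b H) 0) e := by
      rw [fm2_sub, row_st0, fm2_smul, hD2]
      simp only [Prod.fst_sub, Prod.smul_fst, smul_eq_mul]; ring
    have e2 : (D2 - fm2 H e • b).2 = fm2 (row x 1 - row (st b H) 1) e := by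
      rw [fm2_sub, row_st1, fm2_smul, hD2]
      simp only [Prod.snd_sub, Prod.smul_snd, smul_eq_mul]; ring
    rw [e1, e2]
    have := norm_fm2_le hr0.le (hrow 0) he
    have := norm_fm2_le hr0.le (hrow 1) he
    linarith

end Run7.h964.CS
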