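import Mathlib
import Pool.Agent.Run7.h964.CS.C

/-! Area of the sublevel sets of a form along a line. -/

set_option autoImplicit false

open Topology Filter Metric Set MeasureTheory Polynomial

namespace Run7.h964.CS

open Run7.h964.FM

theorem prod_lower {s : Multiset ℂ} {f : ℂ → ℝ} {t : ℝ} (ht : 0 ≤ t) (h : ∀ a ∈ s, t < f a) :
    0 < (s.map f).prod ∧ t ^ s.card ≤ (s.map f).prod ∧ (s ≠ 0 → t ^ s.card < (s.map f).prod) := by
  induction s using Multiset.induction_on with
  | empty => simp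
  | cons a s ih =>
    obtain ⟨h1, h2, -⟩ := ih fun b hb => h b (Multiset.mem_cons_of_mem hb)
    have ha := h a (Multiset.mem_cons_self a s)
    rw [Multiset.map_cons, Multiset.prod_cons, Multiset.card_cons]
    have h3 : t ^ (s.card + 1) < f a * (s.map f).prod := by
      rw [pow_succ]
      calc t ^ s.card * t ≤ (s.map f).prod * t := by gcongr
        _ < (s.map f).prod * f a := by gcongr
        _ = _ := mul_comm _ _
    exact ⟨mul_pos (ht.trans_lt ha) h1, h3.le, fun _ => h3⟩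

theorem prod_lower' {s : Multiset ℂ} {f : ℂ → ℝ} {t : ℝ} (ht : 0 ≤ t) (h : ∀ a ∈ s, t ≤ f a) :
    t ^ s.card ≤ (s.map f).prod := by
  induction s using Multiset.induction_on with
  | empty => simp
  | cons a s ih =>
    have h2 := ih fun b hb => h b (Multiset.mem_cons_of_mem hb)
    have ha := h a (Multiset.mem_cons_self a s)
    rw [Multiset.map_cons, Multiset.prod_cons, Multiset.card_cons, pow_succ, mul_comm]
    exact mul_le_mul ha h2 (by positivity) (ht.trans ha)

theorem norm_eval_eq (p : ℂ[X]) (ω : ℂ) :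
    ‖p.eval ω‖ = ‖p.leadingCoeff‖ * (p.roots.map fun a => ‖ω - a‖).prod := by
  rw [(IsAlgClosed.splits p).eval_eq_prod_roots ω, norm_mul]
  congr 1
  induction p.roots using Multiset.induction_on with
  | empty => simp
  | cons a s ih => rw [Multiset.map_cons, Multiset.prod_cons, norm_mul, ih, Multiset.map_cons,
      Multiset.prod_cons]

/-- sublevel sets of a polynomial -/
theorem area_poly {d : ℕ} (hd : 1 ≤ d) {p : ℂ[X]} (hp : p.natDegree = d) {B : ℝ} (hB : 0 < B) :
    ∃ C τ₀ : ℝ, 0 < C ∧ 0 < τ₀ ∧ ∀ τ : ℝ, 0 < τ → τ < τ₀ →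
      volume {ω : ℂ | ‖p.eval ω‖ ≤ τ * (B * (1 + ‖ω‖)) ^ d} ≤
        ENNReal.ofReal (C * τ ^ ((2 : ℝ) / d)) := by
  have hp0 : p ≠ 0 := by
    rintro rfl
    simp at hp
    omega
  have hA : 0 < ‖p.leadingCoeff‖ := norm_pos_iff.2 (leadingCoeff_ne_zero.2 hp0)
  have hcard : p.roots.card = d := by
    rw [← hp]
    exact splits_iff_card_roots.1 (IsAlgClosed.splits p)
  have hroots : p.roots ≠ 0 := by
    intro h
    rw [h, Multiset.card_zero] at hcard
    omega
  -- bound for the roots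
  obtain ⟨M, hM0, hM⟩ : ∃ M : ℝ, 0 ≤ M ∧ ∀ a ∈ p.roots, ‖a‖ ≤ M := by
    refine ⟨∑ a ∈ p.roots.toFinset, ‖a‖, Finset.sum_nonneg fun _ _ => norm_nonneg _,
      fun a ha => ?_⟩
    exact Finset.single_le_sum (f := fun a : ℂ => ‖a‖) (fun _ _ => norm_nonneg _)
      (Multiset.mem_toFinset.2 ha)
  set R : ℝ := 1 + 2 * M with hR
  have hR1 : 1 ≤ R := by linarith
  set T : ℝ := (B * (1 + R)) ^ d / ‖p.leadingCoeff‖ with hT
  have hTp : 0 < T := by positivity
  have hdR : (0 : ℝ) < d := by exact_mod_cast hd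
  refine ⟨d * (T ^ ((2 : ℝ) / d) * Real.pi), ‖p.leadingCoeff‖ / (4 * B) ^ d, by positivity,
    by positivity, fun τ hτ hτ0 => ?_⟩
  set t : ℝ := (T * τ) ^ ((1 : ℝ) / d) with ht
  have ht0 : 0 ≤ t := Real.rpow_nonneg (by positivity) _
  have htd : t ^ d = T * τ := by
    rw [ht, ← Real.rpow_natCast, ← Real.rpow_mul (by positivity)]
    rw [one_div, inv_mul_cancel₀ hdR.ne', Real.rpow_one]
  have hsub : {ω : ℂ | ‖p.eval ω‖ ≤ τ * (B * (1 + ‖ω‖)) ^ d} ⊆
      ⋃ a ∈ p.roots.toFinset, closedBall a t := by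
    intro ω hω
    rw [Set.mem_ofPred_eq, norm_eval_eq] at hω
    have hlt : ‖ω‖ < R := by
      by_contra hge
      rw [not_lt] at hge
      have h1 : ∀ a ∈ p.roots, (1 + ‖ω‖) / 4 ≤ ‖ω - a‖ := by
        intro a ha
        have h2 := hM a ha
        have h3 := norm_sub_norm_le ω a
        linarith
      have h2 := prod_lower' (by positivity) h1
      rw [hcard] at h2
      have h3 : ‖p.leadingCoeff‖ * ((1 + ‖ω‖) / 4) ^ d ≤ τ * (B * (1 + ‖ω‖)) ^ d :=
        (mul_le_mul_of_nonneg_left h2 hA.le).trans hω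
      have h4 : τ * (4 * B) ^ d < ‖p.leadingCoeff‖ := by
        rwa [lt_div_iff₀ (by positivity)] at hτ0
      have h5 : 0 < ((1 + ‖ω‖) / 4) ^ d := by positivity
      have h6 : τ * (B * (1 + ‖ω‖)) ^ d = τ * (4 * B) ^ d * ((1 + ‖ω‖) / 4) ^ d := by
        rw [mul_assoc, ← mul_pow]
        congr 2
        ring
      rw [h6] at h3
      nlinarith
    by_contra hcon
    simp only [Set.mem_iUnion, not_exists, Multiset.mem_toFinset] at hcon
    have h1 : ∀ a ∈ p.roots, t < ‖ω - a‖ := by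
      intro a ha
      have := hcon a ha
      rw [mem_closedBall, not_le, dist_eq_norm] at this
      exact this
    have h2 := (prod_lower ht0 h1).2.2 hroots
    rw [hcard, htd] at h2
    have h3 : ‖p.leadingCoeff‖ * (T * τ) < τ * (B * (1 + ‖ω‖)) ^ d :=
      (mul_lt_mul_of_pos_left h2 hA).trans_le hω
    have h4 : ‖p.leadingCoeff‖ * (T * τ) = τ * (B * (1 + R)) ^ d := by
      rw [hT]; field_simp
    rw [h4] at h3
    have h5 : (B * (1 + ‖ω‖)) ^ d ≤ (B * (1 + R)) ^ d := by
      gcongr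
    nlinarith
  refine (measure_mono hsub).trans ((measure_biUnion_finset_le _ _).trans ?_)
  have h1 : ∀ a ∈ p.roots.toFinset, volume (closedBall a t) ≤
      ENNReal.ofReal ((T * τ) ^ ((2 : ℝ) / d) * Real.pi) := by
    intro a _
    rw [Complex.volume_closedBall, ENNReal.ofReal_mul (by positivity)]
    have e1 : t ^ 2 = (T * τ) ^ ((2 : ℝ) / d) := by
      rw [ht, ← Real.rpow_natCast, ← Real.rpow_mul (by positivity)]
      congr 1
      push_cast
      ring
    rw [← ENNReal.ofReal_pow ht0, e1, pi_enn']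
  refine (Finset.sum_le_sum h1).trans ?_
  rw [Finset.sum_const, nsmul_eq_mul]
  have h2 : ((p.roots.toFinset.card : ℕ) : ENNReal) ≤ ENNReal.ofReal d := by
    rw [ENNReal.ofReal_natCast]
    have := Multiset.toFinset_card_le p.roots
    rw [hcard] at this
    exact_mod_cast this
  refine (mul_le_mul_left h2 _).trans ?_
  rw [← ENNReal.ofReal_mul (by positivity)]
  refine ENNReal.ofReal_le_ofReal (le_of_eq ?_)
  rw [Real.mul_rpow hTp.le hτ.le]
  ring
where
  pi_enn' : (NNReal.pi : ENNReal) = ENNReal.ofReal Real.pi := by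
    rw [ENNReal.ofReal, Real.toNNReal_of_nonneg Real.pi_pos.le]; rfl

end Run7.h964.CS
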