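import Mathlib
import Pool.Agent.Run7.h964.CS.D

/-! Area of the parameters of the parabolic one-parameter group fixing `b` for which a given point
is moved close to a zero of `H`. -/

set_option autoImplicit false

open Topology Filter Metric Set MeasureTheory Polynomial

namespace Run7.h964.CS

open Run7.h964.FM

variable {d : ℕ}

/-- the polynomial `ω ↦ H (ω b + b')` -/
noncomputable def lp (H : Fin (d + 1) → ℂ) (b : ℂ × ℂ) : ℂ[X] :=
  ∑ j : Fin (d + 1), C (H j) * ((C b.1 * X + C (bp b).1) ^ (j : ℕ) *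
    (C b.2 * X + C (bp b).2) ^ (d - (j : ℕ)))

theorem lp_eval (H : Fin (d + 1) → ℂ) (b : ℂ × ℂ) (ω : ℂ) :
    (lp H b).eval ω = fm H (ω • b + bp b) := by
  unfold lp fm
  rw [eval_finsetSum]
  refine Finset.sum_congr rfl fun j _ => ?_
  simp only [eval_mul, eval_pow, eval_add, eval_C, eval_X, Prod.fst_add, Prod.snd_add,
    Prod.smul_fst, Prod.smul_snd, smul_eq_mul]
  ring

theorem lin_deg (a c : ℂ) : (C a * X + C c : ℂ[X]).natDegree ≤ 1 := natDegree_linear_le

theorem lin_coeff (a c : ℂ) : (C a * X + C c : ℂ[X]).coeff 1 = a := by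
  simp [coeff_C]

theorem lp_deg (H : Fin (d + 1) → ℂ) {b : ℂ × ℂ} (hH : fm H b ≠ 0) : (lp H b).natDegree = d := by
  have hle : (lp H b).natDegree ≤ d := by
    unfold lp
    refine natDegree_sum_le_of_forall_le _ _ fun j _ => ?_
    refine (natDegree_C_mul_le _ _).trans (natDegree_mul_le.trans ?_)
    have h1 := natDegree_pow_le_of_le (j : ℕ) (lin_deg b.1 (bp b).1)
    have h2 := natDegree_pow_le_of_le (d - (j : ℕ)) (lin_deg b.2 (bp b).2)
    have hj : (j : ℕ) ≤ d := by omega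
    omega
  refine le_antisymm hle (le_natDegree_of_ne_zero ?_)
  have h : (lp H b).coeff d = fm H b := by
    unfold lp fm
    rw [finsetSum_coeff]
    refine Finset.sum_congr rfl fun j _ => ?_
    have hj : (j : ℕ) ≤ d := by omega
    rw [coeff_C_mul]
    congr 1
    have h1 := natDegree_pow_le_of_le (j : ℕ) (lin_deg b.1 (bp b).1)
    have h2 := natDegree_pow_le_of_le (d - (j : ℕ)) (lin_deg b.2 (bp b).2)
    have h3 := coeff_mul_add_eq_of_natDegree_le h1 h2
    rw [coeff_pow_of_natDegree_le (lin_deg b.1 (bp b).1),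
      coeff_pow_of_natDegree_le (lin_deg b.2 (bp b).2), lin_coeff, lin_coeff] at h3
    have e : (j : ℕ) * 1 + (d - (j : ℕ)) * 1 = d := by omega
    rw [e] at h3
    exact h3
  rw [h]
  exact hH

theorem en_line (b : ℂ × ℂ) (ω : ℂ) : en (ω • b + bp b) ≤ en b * (1 + ‖ω‖) := by
  refine le_of_sq_le_sq ?_ (mul_nonneg (en_nonneg b) (by positivity))
  have h : en (ω • b + bp b) ^ 2 = en b ^ 2 * (1 + ‖ω‖ ^ 2) := by
    rw [en_sq, en_sq]
    have e : ∀ z : ℂ, ‖z‖ ^ 2 = z.re ^ 2 + z.im ^ 2 := fun z => by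
      rw [← Complex.normSq_eq_norm_sq, Complex.normSq_apply]; ring
    rw [e, e, e, e, e]
    simp only [bp, Prod.fst_add, Prod.snd_add, Prod.smul_fst, Prod.smul_snd, smul_eq_mul,
      Complex.add_re, Complex.add_im, Complex.mul_re, Complex.mul_im, Complex.star_def,
      Complex.conj_re, Complex.conj_im, Complex.neg_re, Complex.neg_im]
    ring
  rw [h]
  have h1 := norm_nonneg ω
  have h2 := sq_nonneg (en b)
  nlinarith [mul_nonneg h2 h1]

/-- the parameters for which `w` is moved close to a zero of `H` -/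
def Ar (H : Fin (d + 1) → ℂ) (b : ℂ × ℂ) (τ : ℝ) (w : ℂ × ℂ) : Set ℂ :=
  {κ : ℂ | ‖fm H (w + (κ * cx b w) • b)‖ ≤ τ * en (w + (κ * cx b w) • b) ^ d}

theorem area_vec (hd : 1 ≤ d) {H : Fin (d + 1) → ℂ} {b : ℂ × ℂ} (hb : b ≠ 0) (hH : fm H b ≠ 0) :
    ∃ C τ₀ : ℝ, 0 < C ∧ 0 < τ₀ ∧ ∀ τ : ℝ, 0 < τ → τ < τ₀ → ∀ w : ℂ × ℂ, w ≠ 0 →
      volume (Ar H b τ w) ≤ ENNReal.ofReal (C * τ ^ ((2 : ℝ) / d)) := by
  have hbp := en_pos hb
  obtain ⟨C, τ₀, hC, hτ₀, h⟩ := area_poly hd (lp_deg H hH) (B := en b) hbp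
  refine ⟨C * (en b ^ 4)⁻¹, min τ₀ (‖fm H b‖ / en b ^ d), by positivity,
    lt_min hτ₀ (div_pos (norm_pos_iff.2 hH) (by positivity)), fun τ hτ hlt w hw => ?_⟩
  have hb2 : ((en b ^ 2 : ℝ) : ℂ) ≠ 0 := by exact_mod_cast (pow_pos hbp 2).ne'
  have hexp := expand b w
  rw [ip_bp] at hexp
  by_cases hc : cx b w = 0
  · have hemp : Ar H b τ w = ∅ := by
      refine Set.eq_empty_iff_forall_notMem.2 fun κ hκ => ?_
      unfold Ar at hκ
      rw [Set.mem_ofPred_eq, hc, mul_zero, zero_smul, add_zero] at hκ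
      rw [hc, zero_smul, add_zero] at hexp
      have hw2 : w = (((en b ^ 2 : ℝ) : ℂ)⁻¹ * ip b w) • b := by
        rw [mul_smul, ← hexp, smul_smul, inv_mul_cancel₀ hb2, one_smul]
      set k := ((en b ^ 2 : ℝ) : ℂ)⁻¹ * ip b w with hk
      have hk0 : k ≠ 0 := by
        intro h0
        rw [h0, zero_smul] at hw2
        exact hw hw2
      rw [hw2, fm_scale, norm_mul, norm_pow, en_smul, mul_pow] at hκ
      have hkp : 0 < ‖k‖ ^ d := pow_pos (norm_pos_iff.2 hk0) _
      have h1 : ‖k‖ ^ d * ‖fm H b‖ ≤ ‖k‖ ^ d * (τ * en b ^ d) := by linarith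
      have h2 := le_of_mul_le_mul_left h1 hkp
      have h3 : τ < ‖fm H b‖ / en b ^ d := hlt.trans_le (min_le_right _ _)
      rw [lt_div_iff₀ (by positivity)] at h3
      linarith
    rw [hemp, measure_empty]
    exact zero_le
  · set β : ℂ := ip b w / cx b w with hβ
    set S : Set ℂ := {ω : ℂ | ‖(lp H b).eval ω‖ ≤ τ * (en b * (1 + ‖ω‖)) ^ d} with hS
    have hsub : Ar H b τ w ⊆ (fun κ : ℂ => (en b ^ 2 : ℝ) • κ) ⁻¹' ((fun z => z + β) ⁻¹' S) := by
      intro κ hκ
      unfold Ar at hκ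
      rw [Set.mem_ofPred_eq] at hκ
      rw [Set.mem_preimage, Set.mem_preimage, hS, Set.mem_ofPred_eq, lp_eval]
      set ω : ℂ := (en b ^ 2 : ℝ) • κ + β with hω
      set s : ℂ := cx b w / ((en b ^ 2 : ℝ) : ℂ) with hs
      have hs0 : s ≠ 0 := div_ne_zero hc hb2
      have h1 : w + (κ * cx b w) • b = s • (ω • b + bp b) := by
        have h2 : ((en b ^ 2 : ℝ) : ℂ) • (w + (κ * cx b w) • b) =
            ((en b ^ 2 : ℝ) : ℂ) • (s • (ω • b + bp b)) := by
          rw [smul_add, hexp, smul_smul, smul_smul, hs, mul_div_cancel₀ _ hb2, smul_add, smul_smul,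
            hω, hβ]
          have e2 : cx b w * ((en b ^ 2 : ℝ) • κ + ip b w / cx b w) =
              ip b w + ((en b ^ 2 : ℝ) : ℂ) * (κ * cx b w) := by
            rw [Complex.real_smul]
            field_simp
            ring
          rw [e2, add_smul]
          abel
        exact smul_right_injective _ hb2 h2
      rw [h1, fm_scale, norm_mul, norm_pow, en_smul, mul_pow] at hκ
      have hsp : 0 < ‖s‖ ^ d := pow_pos (norm_pos_iff.2 hs0) _
      have h2 : ‖s‖ ^ d * ‖fm H (ω • b + bp b)‖ ≤ ‖s‖ ^ d * (τ * en (ω • b + bp b) ^ d) := by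
        linarith
      refine (le_of_mul_le_mul_left h2 hsp).trans ?_
      have h3 := en_line b ω
      have h4 := en_nonneg (ω • b + bp b)
      gcongr
    refine (measure_mono hsub).trans ?_
    rw [Measure.addHaar_preimage_smul _ (by positivity : (en b ^ 2 : ℝ) ≠ 0),
      measure_preimage_add_right]
    have h1 := h τ hτ (hlt.trans_le (min_le_left _ _))
    rw [Complex.finrank_real_complex]
    refine (mul_le_mul_right h1 _).trans ?_
    rw [← ENNReal.ofReal_mul (abs_nonneg _)]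
    refine ENNReal.ofReal_le_ofReal (le_of_eq ?_)
    rw [abs_of_pos (by positivity)]
    ring

end Run7.h964.CS
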