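import Mathlib
import Pool.Agent.Run7.h964.CS.E
import Pool.Agent.Run7.h964.FM.W

/-! The parabolic one-parameter group fixing `b`; measurability. -/

set_option autoImplicit false

open Topology Filter Metric Set MeasureTheory
open Pool.Agent.H790R3.RB Pool.Agent.R239.Fat

namespace Run7.h964.CS

open Run7.h964.FM

variable {d : ℕ}

/-- the parabolic matrices fixing `b` -/
noncomputable def ub (b : ℂ × ℂ) (κ : ℂ) : (ℂ × ℂ) × (ℂ × ℂ) :=
  ((1 - κ * (b.1 * b.2), κ * (b.1 * b.1)), (-(κ * (b.2 * b.2)), 1 + κ * (b.1 * b.2)))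

theorem app_ub (b : ℂ × ℂ) (κ : ℂ) (w : ℂ × ℂ) : app (ub b κ) w = w + (κ * cx b w) • b := by
  refine Prod.ext ?_ ?_
  · simp only [app, ub, cx, Prod.fst_add, Prod.smul_fst, smul_eq_mul]; ring
  · simp only [app, ub, cx, Prod.snd_add, Prod.smul_snd, smul_eq_mul]; ring

theorem dt_ub (b : ℂ × ℂ) (κ : ℂ) : dt (ub b κ) = 1 := by
  unfold dt ub; ring

theorem cm_add (m : (ℂ × ℂ) × (ℂ × ℂ)) (x y : CV d) : cm m (x + y) = cm m x + cm m y := by
  funext r
  unfold cm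
  by_cases h : r.1 = 0
  · simp only [h, if_true, Pi.add_apply]; ring
  · simp only [h, if_false, Pi.add_apply]; ring

theorem cm_smul (m : (ℂ × ℂ) × (ℂ × ℂ)) (a : ℝ) (x : CV d) : cm m (a • x) = a • cm m x := by
  funext r
  unfold cm
  by_cases h : r.1 = 0
  · simp only [h, if_true, Pi.smul_apply, Complex.real_smul]; ring
  · simp only [h, if_false, Pi.smul_apply, Complex.real_smul]; ring

theorem cm_sub (m : (ℂ × ℂ) × (ℂ × ℂ)) (x y : CV d) : cm m (x - y) = cm m x - cm m y := by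
  funext r
  unfold cm
  by_cases h : r.1 = 0
  · simp only [h, if_true, Pi.sub_apply]; ring
  · simp only [h, if_false, Pi.sub_apply]; ring

theorem cm_st (b : ℂ × ℂ) (κ : ℂ) (H : Fin (d + 1) → ℂ) : cm (ub b κ) (st b H) = st b H := by
  funext r
  unfold cm st ub
  by_cases h : r.1 = 0
  · simp only [h, if_true, one_ne_zero, if_false]; ring
  · simp only [h, if_false, if_true, one_ne_zero]; ring

theorem cm_ub_inv (b : ℂ × ℂ) (κ : ℂ) (x : CV d) : cm (ub b (-κ)) (cm (ub b κ) x) = x := by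
  have h2 : ∀ i : Fin 2, i ≠ 0 → i = 1 := by decide
  funext r
  obtain ⟨i, j⟩ := r
  unfold cm ub
  by_cases h : i = 0
  · subst h
    simp only [if_true, one_ne_zero, if_false]; ring
  · rw [h2 i h]
    simp only [if_true, one_ne_zero, if_false]; ring

theorem norm_cm_ub {b : ℂ × ℂ} {κ : ℂ} (hκ : ‖κ‖ ≤ 1) (x : CV d) :
    ‖cm (ub b κ) x‖ ≤ (1 + 2 * en b ^ 2) * ‖x‖ := by
  have hb := en_nonneg b
  have h11 : ‖b.1 * b.1‖ ≤ en b ^ 2 := by
    rw [norm_mul, sq]; exact mul_le_mul (nf_le b) (nf_le b) (norm_nonneg _) hb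
  have h12 : ‖b.1 * b.2‖ ≤ en b ^ 2 := by
    rw [norm_mul, sq]; exact mul_le_mul (nf_le b) (ns_le b) (norm_nonneg _) hb
  have h22 : ‖b.2 * b.2‖ ≤ en b ^ 2 := by
    rw [norm_mul, sq]; exact mul_le_mul (ns_le b) (ns_le b) (norm_nonneg _) hb
  have hk : ∀ z : ℂ, ‖z‖ ≤ en b ^ 2 → ‖κ * z‖ ≤ en b ^ 2 := by
    intro z hz
    rw [norm_mul]
    calc ‖κ‖ * ‖z‖ ≤ 1 * en b ^ 2 := mul_le_mul hκ hz (norm_nonneg _) zero_le_one
      _ = _ := one_mul _
  have hx : ∀ i j, ‖x (i, j)‖ ≤ ‖x‖ := fun i j => norm_le_pi_norm x (i, j)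
  have hgen : ∀ u v y z : ℂ, ‖u‖ ≤ 1 + en b ^ 2 → ‖v‖ ≤ en b ^ 2 → ‖y‖ ≤ ‖x‖ → ‖z‖ ≤ ‖x‖ →
      ‖u * y + v * z‖ ≤ (1 + 2 * en b ^ 2) * ‖x‖ := by
    intro u v y z hu hv hy hz
    refine (norm_add_le _ _).trans ?_
    rw [norm_mul, norm_mul]
    have h1 : ‖u‖ * ‖y‖ ≤ (1 + en b ^ 2) * ‖x‖ := mul_le_mul hu hy (norm_nonneg _) (by positivity)
    have h2 : ‖v‖ * ‖z‖ ≤ en b ^ 2 * ‖x‖ := mul_le_mul hv hz (norm_nonneg _) (by positivity)
    linarith
  rw [pi_norm_le_iff_of_nonneg (by positivity)]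
  rintro ⟨i, j⟩
  unfold cm ub
  by_cases h : i = 0
  · subst h
    simp only [if_true]
    refine hgen _ _ _ _ ?_ (hk _ h11) (hx 0 j) (hx 1 j)
    refine (norm_sub_le _ _).trans ?_
    rw [norm_one]
    linarith [hk _ h12]
  · simp only [h, if_false]
    rw [add_comm (-(κ * (b.2 * b.2)) * x (0, j))]
    refine hgen _ _ _ _ ?_ ?_ (hx 1 j) (hx 0 j)
    · refine (norm_add_le _ _).trans ?_
      rw [norm_one]
      linarith [hk _ h12]
    · rw [norm_neg]; exact hk _ h22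

/-- some critical point is mapped close to a zero of `H` -/
def Ev (H : Fin (d + 1) → ℂ) (τ : ℝ) : Set (CV d) :=
  {x | ∃ e : ℂ × ℂ, en e = 1 ∧ wr x e = 0 ∧ hF x e ≠ 0 ∧ ‖fm H (hF x e)‖ ≤ τ * en (hF x e) ^ d}

/-- the Wronskian does not vanish identically -/
def NC (d : ℕ) : Set (CV d) := {x | ∃ z : ℂ, wr x (z, 1) ≠ 0}

theorem hF_cont2 : Continuous fun q : CV d × (ℂ × ℂ) => hF q.1 q.2 := by
  have := hF_iter_differentiable d 1
  simp only [Function.iterate_one] at this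
  exact this.continuous

theorem wr_cont2 : Continuous fun q : CV d × (ℂ × ℂ) => wr q.1 q.2 := by
  have h : ∀ (i : Fin 2) (g : Fin (d + 1) → (ℂ × ℂ) → ℂ), (∀ j, Continuous (g j)) →
      Continuous fun q : CV d × (ℂ × ℂ) => ∑ j, q.1 (i, j) * g j q.2 := fun i g hg =>
    continuous_finsetSum _ fun j _ =>
      ((continuous_apply (i, j)).comp continuous_fst).mul ((hg j).comp continuous_snd)
  have h1 : ∀ j : Fin (d + 1), Continuous fun p : ℂ × ℂ =>
      ((j : ℕ) : ℂ) * p.1 ^ ((j : ℕ) - 1) * p.2 ^ (d - (j : ℕ)) := fun j => by fun_prop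
  have h2 : ∀ j : Fin (d + 1), Continuous fun p : ℂ × ℂ =>
      ((d - (j : ℕ) : ℕ) : ℂ) * p.1 ^ (j : ℕ) * p.2 ^ (d - (j : ℕ) - 1) := fun j => by fun_prop
  exact ((h 0 _ h1).mul (h 1 _ h2)).sub ((h 0 _ h2).mul (h 1 _ h1))

theorem NC_open : IsOpen (NC d) := by
  have h : NC d = ⋃ z : ℂ, {x : CV d | wr x (z, 1) ≠ 0} := by
    ext x; simp [NC]
  rw [h]
  refine isOpen_iUnion fun z => ?_
  have h1 : Continuous fun x : CV d => wr x ((z, 1) : ℂ × ℂ) :=
    Continuous.comp (g := fun q : CV d × (ℂ × ℂ) => wr q.1 q.2)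
      (f := fun x : CV d => (x, ((z, 1) : ℂ × ℂ))) wr_cont2 (by fun_prop)
  exact isOpen_ne_fun h1 continuous_const

theorem Ev_meas (H : Fin (d + 1) → ℂ) (τ : ℝ) : MeasurableSet (Ev H τ) := by
  have hcomp : CompactSpace {e : ℂ × ℂ // en e = 1} := isCompact_iff_compactSpace.1 compact_unit
  have h : Ev H τ = ⋃ n : ℕ, Prod.fst '' {q : CV d × {e : ℂ × ℂ // en e = 1} |
      wr q.1 q.2.1 = 0 ∧ 1 / ((n : ℝ) + 1) ≤ en (hF q.1 q.2.1) ∧
        ‖fm H (hF q.1 q.2.1)‖ ≤ τ * en (hF q.1 q.2.1) ^ d} := by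
    ext x
    simp only [Ev, Set.mem_ofPred_eq, mem_iUnion, mem_image]
    constructor
    · rintro ⟨e, h1, h2, h3, h4⟩
      obtain ⟨n, hn⟩ := exists_nat_one_div_lt (en_pos h3)
      exact ⟨n, (x, ⟨e, h1⟩), ⟨h2, hn.le, h4⟩, rfl⟩
    · rintro ⟨n, ⟨y, e, he⟩, ⟨h2, h3, h4⟩, rfl⟩
      refine ⟨e, he, h2, ?_, h4⟩
      intro h0
      simp only at h3
      rw [h0, en_eq_zero.2 rfl] at h3
      have : 0 < 1 / ((n : ℝ) + 1) := by positivity
      linarith
  rw [h]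
  refine MeasurableSet.iUnion fun n => IsClosed.measurableSet ?_
  refine isClosedMap_fst_of_compactSpace _ ?_
  have hpr : Continuous fun q : CV d × {e : ℂ × ℂ // en e = 1} => (q.1, q.2.1) := by fun_prop
  have hc : Continuous fun q : CV d × {e : ℂ × ℂ // en e = 1} => hF q.1 q.2.1 :=
    Continuous.comp (g := fun q : CV d × (ℂ × ℂ) => hF q.1 q.2)
      (f := fun q : CV d × {e : ℂ × ℂ // en e = 1} => (q.1, q.2.1)) hF_cont2 hpr
  have hw : Continuous fun q : CV d × {e : ℂ × ℂ // en e = 1} => wr q.1 q.2.1 :=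
    Continuous.comp (g := fun q : CV d × (ℂ × ℂ) => wr q.1 q.2)
      (f := fun q : CV d × {e : ℂ × ℂ // en e = 1} => (q.1, q.2.1)) wr_cont2 hpr
  have he : Continuous fun q : CV d × {e : ℂ × ℂ // en e = 1} => en (hF q.1 q.2.1) :=
    Continuous.comp (g := en) (f := fun q : CV d × {e : ℂ × ℂ // en e = 1} => hF q.1 q.2.1)
      en_continuous hc
  have hm : Continuous fun q : CV d × {e : ℂ × ℂ // en e = 1} => fm H (hF q.1 q.2.1) :=
    Continuous.comp (g := fm H) (f := fun q : CV d × {e : ℂ × ℂ // en e = 1} => hF q.1 q.2.1)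
      (fm_cont H) hc
  have c1 : IsClosed {q : CV d × {e : ℂ × ℂ // en e = 1} | wr q.1 q.2.1 = 0} :=
    isClosed_eq hw continuous_const
  have c2 : IsClosed {q : CV d × {e : ℂ × ℂ // en e = 1} | 1 / ((n : ℝ) + 1) ≤ en (hF q.1 q.2.1)} :=
    isClosed_le continuous_const he
  have c3 : IsClosed {q : CV d × {e : ℂ × ℂ // en e = 1} |
      ‖fm H (hF q.1 q.2.1)‖ ≤ τ * en (hF q.1 q.2.1) ^ d} :=
    isClosed_le hm.norm (continuous_const.mul (he.pow d))
  exact c1.inter (c2.inter c3)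

open Polynomial in
theorem crit_spec' {x : CV d} (hx : x ∈ NC d) {c : ℂ × ℂ} (hc : c ≠ 0)
    (hw : wr x c = 0) (hd2 : 2 ≤ d) : ∃ e ∈ crit x, ∃ k : ℂ, k ≠ 0 ∧ c = k • e := by
  have hW0 : W0 x ≠ 0 := by
    rintro h0
    obtain ⟨z, hz⟩ := hx
    rw [wr_eq_W0, h0, eval_zero, mul_zero] at hz
    exact hz rfl
  by_cases h2 : c.2 = 0
  · refine ⟨(1, 0), Finset.mem_insert_self _ _, c.1, fun h => hc (Prod.ext h h2), ?_⟩
    exact Prod.ext (by simp) (by simp [h2])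
  · have e1 : c = c.2 • ((c.1 / c.2, 1) : ℂ × ℂ) := by
      refine Prod.ext ?_ ?_
      · simp only [Prod.smul_fst, smul_eq_mul]
        field_simp
      · simp
    refine ⟨(c.1 / c.2, 1), ?_, c.2, h2, e1⟩
    rw [e1, (WR d x hd2).1, wr_eq_W0] at hw
    have h3 : (W0 x).eval (c.1 / c.2) = 0 := by
      rcases mul_eq_zero.1 hw with h | h
      · exact absurd h (pow_ne_zero _ h2)
      · refine (mul_eq_zero.1 h).resolve_left ?_
        exact_mod_cast (by omega : d ≠ 0)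
    refine Finset.mem_insert_of_mem (Finset.mem_image.2 ⟨c.1 / c.2, ?_, rfl⟩)
    rw [Multiset.mem_toFinset, Polynomial.mem_roots hW0]
    exact h3

theorem nd_NC (hd : 1 ≤ d) {x : CV d} (hx : ND x) : x ∈ NC d := by
  have h := W0_ne hd hx
  by_contra hcon
  apply h
  refine Polynomial.funext fun z => ?_
  rw [Polynomial.eval_zero]
  by_contra hne
  apply hcon
  refine ⟨z, ?_⟩
  rw [wr_eq_W0]
  exact mul_ne_zero (by exact_mod_cast (by omega : d ≠ 0)) hne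

/-- the bad parameters of one pair -/
theorem fibre_le (hd : 2 ≤ d) {H : Fin (d + 1) → ℂ} {b : ℂ × ℂ} {τ A : ℝ}
    (h : ∀ w : ℂ × ℂ, w ≠ 0 → volume (Ar H b τ w) ≤ ENNReal.ofReal A)
    (y : CV d) : volume {κ : ℂ | cm (ub b κ) y ∈ Ev H τ ∩ NC d} ≤
      ENNReal.ofReal (2 * d * A) := by
  have hdt : ∀ κ, dt (ub b κ) ≠ 0 := fun κ => by rw [dt_ub]; exact one_ne_zero
  by_cases hy : y ∈ NC d
  swap
  · have : {κ : ℂ | cm (ub b κ) y ∈ Ev H τ ∩ NC d} = ∅ := by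
      refine Set.eq_empty_iff_forall_notMem.2 fun κ hκ => hy ?_
      obtain ⟨z, hz⟩ := hκ.2
      rw [wr_cm, dt_ub, one_mul] at hz
      exact ⟨z, hz⟩
    rw [this, measure_empty]
    exact zero_le
  have hsub : {κ : ℂ | cm (ub b κ) y ∈ Ev H τ ∩ NC d} ⊆
      ⋃ c ∈ (crit y).filter fun c => hF y c ≠ 0, Ar H b τ (hF y c) := by
    rintro κ ⟨⟨e, he1, he2, he3, he4⟩, -⟩
    have he0 : e ≠ 0 := by
      rintro rfl
      rw [en_eq_zero.2 rfl] at he1
      exact zero_ne_one he1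
    rw [wr_cm, dt_ub, one_mul] at he2
    obtain ⟨c, hc, k, hk, rfl⟩ := crit_spec' hy he0 he2 hd
    have hFc : hF y c ≠ 0 := by
      intro h0
      apply he3
      rw [hF_cm, hF_scale, h0, smul_zero]
      simp [app]
    refine mem_iUnion₂.2 ⟨c, Finset.mem_filter.2 ⟨hc, hFc⟩, ?_⟩
    rw [hF_cm, hF_scale, app_ub] at he4
    have e1 : k ^ d • hF y c + (κ * cx b (k ^ d • hF y c)) • b =
        k ^ d • (hF y c + (κ * cx b (hF y c)) • b) := by
      rw [cx_smul, smul_add, smul_smul]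
      congr 2
      ring
    rw [e1, fm_scale, norm_mul, norm_pow, en_smul, mul_pow] at he4
    have hkp : 0 < ‖k ^ d‖ ^ d := pow_pos (norm_pos_iff.2 (pow_ne_zero _ hk)) _
    have h1 : ‖k ^ d‖ ^ d * ‖fm H (hF y c + (κ * cx b (hF y c)) • b)‖ ≤
        ‖k ^ d‖ ^ d * (τ * en (hF y c + (κ * cx b (hF y c)) • b) ^ d) := by linarith
    exact le_of_mul_le_mul_left h1 hkp
  refine (measure_mono hsub).trans ((measure_biUnion_finset_le _ _).trans ?_)
  refine (Finset.sum_le_sum (g := fun _ => ENNReal.ofReal A) fun c hc => ?_).trans ?_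
  · exact h _ (Finset.mem_filter.1 hc).2
  · rw [Finset.sum_const, nsmul_eq_mul]
    have h2 : (((crit y).filter fun c => hF y c ≠ 0).card : ENNReal) ≤
        ENNReal.ofReal (2 * d) := by
      have h3 : ((crit y).filter fun c => hF y c ≠ 0).card ≤ 2 * d :=
        (Finset.card_filter_le _ _).trans (crit_card (by omega) y)
      have h4 : ENNReal.ofReal (2 * d) = ((2 * d : ℕ) : ENNReal) := by
        rw [← ENNReal.ofReal_natCast]
        push_cast
        rfl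
      rw [h4]
      exact_mod_cast h3
    refine (mul_le_mul_left h2 _).trans ?_
    rw [← ENNReal.ofReal_mul (by positivity)]

end Run7.h964.CS
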