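import Mathlib
import Pool.Agent.Run7.h964.CS.F
import Pool.Agent.Run7.h964.FM.X

/-! Fubini over the parabolic group: the volume of the bad pairs near `(b₁ H, b₂ H)`. -/

set_option autoImplicit false

open Topology Filter Metric Set MeasureTheory
open Pool.Agent.H790R3.RB Pool.Agent.R239.Fat

namespace Run7.h964.CS

open Run7.h964.FM

variable {d : ℕ}

/-- composition with the parabolic matrix, as a real linear map -/
noncomputable def Lk (d : ℕ) (b : ℂ × ℂ) (κ : ℂ) : CV d →ₗ[ℝ] CV d where
  toFun := cm (ub b κ)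
  map_add' := cm_add _
  map_smul' := cm_smul _

theorem Lk_apply (b : ℂ × ℂ) (κ : ℂ) (x : CV d) : Lk d b κ x = cm (ub b κ) x := rfl

theorem vol_ball_mul (x : CV d) {r s : ℝ} (hr : 0 ≤ r) (hs : 0 ≤ s) :
    volume (closedBall x (s * r)) =
      ENNReal.ofReal (s ^ Module.finrank ℝ (CV d)) * volume (closedBall x r) := by
  rw [Measure.addHaar_closedBall_mul _ x hs hr, Measure.addHaar_closedBall_center volume x r]

theorem det_le (b : ℂ × ℂ) {κ : ℂ} (hκ : ‖κ‖ ≤ 1) :
    ENNReal.ofReal |LinearMap.det (Lk d b κ)| ≤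
      ENNReal.ofReal ((1 + 2 * en b ^ 2) ^ Module.finrank ℝ (CV d)) := by
  have hΛ : 0 ≤ 1 + 2 * en b ^ 2 := by positivity
  have h1 : Lk d b κ '' closedBall 0 1 ⊆ closedBall 0 ((1 + 2 * en b ^ 2) * 1) := by
    rintro _ ⟨x, hx, rfl⟩
    rw [mem_closedBall, dist_zero_right] at hx ⊢
    rw [Lk_apply]
    exact (norm_cm_ub hκ x).trans (mul_le_mul_of_nonneg_left hx hΛ)
  have h2 := measure_mono (μ := volume) h1
  rw [Measure.addHaar_image_linearMap, vol_ball_mul 0 zero_le_one hΛ] at h2
  have h3 : volume (closedBall (0 : CV d) 1) ≠ 0 :=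
    (measure_closedBall_pos volume _ one_pos).ne'
  have h4 : volume (closedBall (0 : CV d) 1) ≠ ⊤ := measure_closedBall_lt_top.ne
  exact (ENNReal.mul_le_mul_iff_left h3 h4).1 h2

theorem vol_le_pre (b : ℂ × ℂ) {κ : ℂ} (hκ : ‖κ‖ ≤ 1) (E : Set (CV d)) :
    volume E ≤ ENNReal.ofReal ((1 + 2 * en b ^ 2) ^ Module.finrank ℝ (CV d)) *
      volume {y | cm (ub b κ) y ∈ E} := by
  have h1 : E = Lk d b κ '' {y | cm (ub b κ) y ∈ E} := by
    ext x
    constructor
    · intro hx
      refine ⟨cm (ub b (-κ)) x, ?_, ?_⟩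
      · have := cm_ub_inv (d := d) b (-κ) x
        rw [neg_neg] at this
        show cm (ub b κ) (cm (ub b (-κ)) x) ∈ E
        rw [this]
        exact hx
      · have := cm_ub_inv (d := d) b (-κ) x
        rw [neg_neg] at this
        exact this
    · rintro ⟨y, hy, rfl⟩
      exact hy
  conv_lhs => rw [h1]
  rw [Measure.addHaar_image_linearMap]
  exact mul_le_mul_left (det_le b hκ) _

theorem fubini (hd : 2 ≤ d) {H : Fin (d + 1) → ℂ} {b : ℂ × ℂ} {τ A : ℝ} (hA : 0 ≤ A)
    (h : ∀ w : ℂ × ℂ, w ≠ 0 → volume (Ar H b τ w) ≤ ENNReal.ofReal A) {r : ℝ} (hr : 0 ≤ r) :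
    volume (Ev H τ ∩ NC d ∩ closedBall (st b H) r) ≤
      ENNReal.ofReal (2 * d * A * ((1 + 2 * en b ^ 2) ^ Module.finrank ℝ (CV d)) ^ 2 / Real.pi) *
        volume (closedBall (st b H) r) := by
  set Λ : ℝ := 1 + 2 * en b ^ 2 with hΛ
  have hΛ0 : 0 ≤ Λ := by positivity
  set N := Module.finrank ℝ (CV d) with hN
  set E : Set (CV d) := Ev H τ ∩ NC d ∩ closedBall (st b H) r with hE
  have hEm : MeasurableSet E :=
    ((Ev_meas H τ).inter NC_open.measurableSet).inter measurableSet_closedBall
  set D : Set ℂ := closedBall (0 : ℂ) 1 with hD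
  have hDm : MeasurableSet D := measurableSet_closedBall
  have hDv : volume D = ENNReal.ofReal Real.pi := by
    rw [hD, Complex.volume_closedBall, pi_enn]
    simp
  set W : Set (ℂ × CV d) := {q | cm (ub b q.1) q.2 ∈ E} with hW
  have hcont : Continuous fun q : ℂ × CV d => cm (ub b q.1) q.2 := by
    refine continuous_pi fun r => ?_
    obtain ⟨i, j⟩ := r
    unfold cm ub
    by_cases hi : i = 0
    · subst hi
      simp only [if_true]
      have h0 : Continuous fun q : ℂ × CV d => q.2 (0, j) := (continuous_apply _).comp continuous_snd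
      have h1 : Continuous fun q : ℂ × CV d => q.2 (1, j) := (continuous_apply _).comp continuous_snd
      exact ((continuous_const.sub (continuous_fst.mul continuous_const)).mul h0).add
        ((continuous_fst.mul continuous_const).mul h1)
    · simp only [hi, if_false]
      have h0 : Continuous fun q : ℂ × CV d => q.2 (0, j) := (continuous_apply _).comp continuous_snd
      have h1 : Continuous fun q : ℂ × CV d => q.2 (1, j) := (continuous_apply _).comp continuous_snd
      exact (((continuous_fst.mul continuous_const).neg).mul h0).add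
        ((continuous_const.add (continuous_fst.mul continuous_const)).mul h1)
  have hWm : MeasurableSet W := hcont.measurable hEm
  -- left side
  have h1 : ENNReal.ofReal Real.pi * volume E ≤
      ENNReal.ofReal (Λ ^ N) * ((volume.restrict D).prod volume) W := by
    rw [Measure.prod_apply hWm, ← lintegral_const_mul' _ _ ENNReal.ofReal_ne_top, ← hDv]
    calc volume D * volume E = ∫⁻ _ in D, volume E := by
          rw [lintegral_const, Measure.restrict_apply MeasurableSet.univ, univ_inter, mul_comm]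
      _ ≤ ∫⁻ κ in D, ENNReal.ofReal (Λ ^ N) * volume (Prod.mk κ ⁻¹' W) := by
          refine setLIntegral_mono' hDm fun κ hκ => ?_
          rw [hD, mem_closedBall, dist_zero_right] at hκ
          exact vol_le_pre b hκ E
  -- right side
  have h2 : ((volume.restrict D).prod volume) W ≤
      ENNReal.ofReal (2 * d * A) * volume (closedBall (st b H) (Λ * r)) := by
    rw [Measure.prod_apply_symm hWm]
    have h3 : ∀ y : CV d, (volume.restrict D) ((fun κ => (κ, y)) ⁻¹' W) ≤
        (closedBall (st b H) (Λ * r)).indicator (fun _ => ENNReal.ofReal (2 * d * A)) y := by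
      intro y
      by_cases hy : y ∈ closedBall (st b H) (Λ * r)
      · rw [indicator_of_mem hy]
        refine (Measure.restrict_apply_le _ _).trans ((measure_mono ?_).trans
          (fibre_le hd h y))
        intro κ hκ
        exact hκ.1
      · rw [indicator_of_notMem hy, Measure.restrict_apply' hDm]
        have hemp : (fun κ => (κ, y)) ⁻¹' W ∩ D = ∅ := by
          refine Set.eq_empty_iff_forall_notMem.2 fun κ hκ => hy ?_
          obtain ⟨hκ1, hκ2⟩ := hκ
          rw [hD, mem_closedBall, dist_zero_right] at hκ2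
          have h4 : cm (ub b κ) y ∈ closedBall (st b H) r := hκ1.2
          rw [mem_closedBall, dist_eq_norm] at h4 ⊢
          have h5 : y - st b H = cm (ub b (-κ)) (cm (ub b κ) y - st b H) := by
            rw [cm_sub, cm_ub_inv, cm_st]
          rw [h5]
          exact (norm_cm_ub (by rwa [norm_neg]) _).trans (mul_le_mul_of_nonneg_left h4 hΛ0)
        rw [hemp, measure_empty]
    refine (lintegral_mono h3).trans ?_
    rw [lintegral_indicator measurableSet_closedBall, lintegral_const,
      Measure.restrict_apply MeasurableSet.univ, univ_inter]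
  rw [vol_ball_mul _ hr hΛ0] at h2
  have h5 : ENNReal.ofReal Real.pi * volume E ≤
      ENNReal.ofReal (Λ ^ N) * (ENNReal.ofReal (2 * d * A) *
        (ENNReal.ofReal (Λ ^ N) * volume (closedBall (st b H) r))) :=
    h1.trans (by gcongr)
  have h6 : volume E = ENNReal.ofReal (1 / Real.pi) * (ENNReal.ofReal Real.pi * volume E) := by
    rw [← mul_assoc, ← ENNReal.ofReal_mul (by positivity), one_div, inv_mul_cancel₀ Real.pi_ne_zero,
      ENNReal.ofReal_one, one_mul]
  rw [h6]
  refine (mul_le_mul_right h5 _).trans (le_of_eq ?_)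
  rw [← mul_assoc, ← mul_assoc, ← mul_assoc, ← ENNReal.ofReal_mul (by positivity),
    ← ENNReal.ofReal_mul (by positivity), ← ENNReal.ofReal_mul (by positivity)]
  congr 2
  ring

/-- the maps of degree `d` near `(b₁ H, b₂ H)` which are not hyperbolic have small volume -/
theorem density (hd : 2 ≤ d) {H : Fin (d + 1) → ℂ} {b : ℂ × ℂ} (hb : b ≠ 0) (hH : fm H b ≠ 0) :
    ∃ C : ℝ, 0 < C ∧ ∀ r : ℝ, 0 < r → r ≤ 1 →
      volume ({x : CV d | ND x ∧ ¬ HypTop (sp x)} ∩ closedBall (st b H) r) ≤
        ENNReal.ofReal (C * r ^ ((2 : ℝ) / d)) * volume (closedBall (st b H) r) := by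
  obtain ⟨ρ, h₀, hρ, hρ1, hh₀, hlow⟩ := lower hb hH
  obtain ⟨C₁, τ₀, hC₁, hτ₀, harea⟩ := area_vec (by omega : 1 ≤ d) hb hH
  have hbp := en_pos hb
  set K : ℝ := (1 + 3 / ρ) * (2 * (d + 1) / en b) with hK
  have hKp : 0 < K := by positivity
  set Q : ℝ := ((1 + 2 * en b ^ 2) ^ Module.finrank ℝ (CV d)) ^ 2 / Real.pi with hQ
  have hQp : 0 < Q := by positivity
  have hdR : (0 : ℝ) < d := by exact_mod_cast (by omega : 0 < d)
  set r₀ : ℝ := min (min (h₀ / K) (τ₀ / (2 * K))) 1 with hr₀
  have hr₀p : 0 < r₀ := lt_min (lt_min (by positivity) (by positivity)) one_pos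
  set C₂ : ℝ := 2 * d * (C₁ * K ^ ((2 : ℝ) / d)) * Q with hC₂
  have hC₂p : 0 < C₂ := by positivity
  refine ⟨max C₂ (r₀ ^ (-((2 : ℝ) / d))), lt_max_of_lt_left hC₂p, fun r hr hr1 => ?_⟩
  by_cases hle : r ≤ r₀
  · have hrK : K * r ≤ h₀ := by
      rw [mul_comm, ← le_div_iff₀ hKp]
      exact hle.trans ((min_le_left _ _).trans (min_le_left _ _))
    have hrτ : K * r < τ₀ := by
      have : r ≤ τ₀ / (2 * K) := hle.trans ((min_le_left _ _).trans (min_le_right _ _))
      rw [le_div_iff₀ (by positivity)] at this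
      nlinarith
    have hsub : {x : CV d | ND x ∧ ¬ HypTop (sp x)} ∩ closedBall (st b H) r ⊆
        Ev H (K * r) ∩ NC d ∩ closedBall (st b H) r := by
      rintro x ⟨⟨hx1, hx2⟩, hx3⟩
      refine ⟨⟨?_, nd_NC (by omega) hx1⟩, hx3⟩
      by_contra hE
      apply hx2
      rw [mem_closedBall, dist_eq_norm] at hx3
      refine crit_hyp hd hb hρ hlow hx1 hr hx3 hrK fun c hc hw => Or.inr ?_
      by_contra hcon
      apply hE
      obtain ⟨k, e, hk, he, rfl⟩ := unit_smul hc
      have he0 : e ≠ 0 := by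
        rintro rfl
        rw [en_eq_zero.2 rfl] at he
        exact zero_ne_one he
      rw [(WR d x hd).1] at hw
      refine ⟨e, he, (mul_eq_zero.1 hw).resolve_left (pow_ne_zero _ hk),
        fun h0 => he0 (hx1 e h0), ?_⟩
      rw [hF_scale, fm_scale, norm_mul, norm_pow, en_smul, mul_pow, not_le] at hcon
      have hkp : 0 < ‖k ^ d‖ ^ d := pow_pos (norm_pos_iff.2 (pow_ne_zero _ hk)) _
      have h1 : ‖k ^ d‖ ^ d * ‖fm H (hF x e)‖ ≤ ‖k ^ d‖ ^ d * (K * r * en (hF x e) ^ d) := by
        linarith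
      exact le_of_mul_le_mul_left h1 hkp
    refine (measure_mono hsub).trans ?_
    have hA0 : 0 ≤ C₁ * (K * r) ^ ((2 : ℝ) / d) := by positivity
    refine (fubini hd hA0 (harea (K * r) (by positivity) hrτ) hr.le).trans ?_
    refine mul_le_mul_left (ENNReal.ofReal_le_ofReal ?_) _
    rw [Real.mul_rpow hKp.le hr.le]
    calc 2 * d * (C₁ * (K ^ ((2 : ℝ) / d) * r ^ ((2 : ℝ) / d))) *
          ((1 + 2 * en b ^ 2) ^ Module.finrank ℝ (CV d)) ^ 2 / Real.pi
        = C₂ * r ^ ((2 : ℝ) / d) := by rw [hC₂, hQ]; ring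
      _ ≤ _ := mul_le_mul_of_nonneg_right (le_max_left _ _) (by positivity)
  · rw [not_le] at hle
    refine (measure_mono inter_subset_right).trans ?_
    have h1 : 1 ≤ max C₂ (r₀ ^ (-((2 : ℝ) / d))) * r ^ ((2 : ℝ) / d) := by
      calc (1 : ℝ) = r₀ ^ (-((2 : ℝ) / d)) * r₀ ^ ((2 : ℝ) / d) := by
            rw [← Real.rpow_add hr₀p]; simp
        _ ≤ r₀ ^ (-((2 : ℝ) / d)) * r ^ ((2 : ℝ) / d) := by
            refine mul_le_mul_of_nonneg_left (Real.rpow_le_rpow hr₀p.le hle.le (by positivity))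
              (by positivity)
        _ ≤ _ := mul_le_mul_of_nonneg_right (le_max_right _ _) (by positivity)
    calc volume (closedBall (st b H) r) = 1 * volume (closedBall (st b H) r) := (one_mul _).symm
      _ ≤ _ := by
        refine mul_le_mul_left ?_ _
        rw [← ENNReal.ofReal_one]
        exact ENNReal.ofReal_le_ofReal h1

end Run7.h964.CS
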