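import Mathlib
import Pool.Agent.Helper202.Univ

/-! Pairs of distinct points near a critical point with the same image. -/

set_option autoImplicit false

open Topology Filter Metric Set

namespace Run7.h964.CS

theorem norm_pow_sub_one_le (ρ : ℂ) (j : ℕ) : ‖ρ ^ j - 1‖ ≤ (1 + ‖ρ - 1‖) ^ j - 1 := by
  induction j with
  | zero => simp
  | succ j ih =>
    have e : ρ ^ (j + 1) - 1 = (ρ ^ j - 1) * (1 + (ρ - 1)) + (ρ - 1) := by ring
    rw [e]
    have h1 : ‖(1 : ℂ) + (ρ - 1)‖ ≤ 1 + ‖ρ - 1‖ := (norm_add_le _ _).trans (by rw [norm_one])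
    calc ‖(ρ ^ j - 1) * (1 + (ρ - 1)) + (ρ - 1)‖
        ≤ ‖ρ ^ j - 1‖ * ‖1 + (ρ - 1)‖ + ‖ρ - 1‖ := (norm_add_le _ _).trans (by rw [norm_mul])
      _ ≤ ((1 + ‖ρ - 1‖) ^ j - 1) * (1 + ‖ρ - 1‖) + ‖ρ - 1‖ := by
          have := norm_nonneg (ρ ^ j - 1)
          gcongr
          linarith
      _ = _ := by ring

theorem exp_bound : Real.exp (11 / 10) ≤ 309 / 100 := by
  have h1 : Real.exp (1 / 10) ≤ 10 / 9 := by
    have h := Real.add_one_le_exp (-(1 / 10 : ℝ))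
    rw [Real.exp_neg] at h
    have hp := Real.exp_pos (1 / 10 : ℝ)
    have h2 : (9 : ℝ) / 10 ≤ (Real.exp (1 / 10))⁻¹ := by linarith
    rw [le_inv_comm₀ (by norm_num) hp] at h2
    linarith [h2, (by norm_num : ((9 : ℝ) / 10)⁻¹ = 10 / 9)]
  have h2 := Real.exp_one_lt_d9
  have h3 : Real.exp (11 / 10) = Real.exp 1 * Real.exp (1 / 10) := by
    rw [← Real.exp_add]; norm_num
  rw [h3]
  calc Real.exp 1 * Real.exp (1 / 10) ≤ 2.7182818286 * (10 / 9) :=
        mul_le_mul h2.le h1 (Real.exp_pos _).le (by norm_num)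
    _ ≤ _ := by norm_num

/-- the geometric sum of a number close to one -/
theorem geom_lower {ρ : ℂ} {k : ℕ} (hk : 1 ≤ k) (h : ‖ρ - 1‖ ≤ 11 / 10 / k) :
    (1 : ℝ) / 10 ≤ ‖∑ j ∈ Finset.range k, ρ ^ j‖ := by
  have hkR : (1 : ℝ) ≤ k := by exact_mod_cast hk
  have hk0 : (0 : ℝ) < k := by linarith
  set s : ℝ := 11 / 10 / k with hs
  have hsp : 0 < s := by positivity
  have h1 : ‖∑ j ∈ Finset.range k, ρ ^ j - k‖ ≤ ∑ j ∈ Finset.range k, ((1 + s) ^ j - 1) := by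
    have e : ∑ j ∈ Finset.range k, ρ ^ j - (k : ℂ) = ∑ j ∈ Finset.range k, (ρ ^ j - 1) := by
      rw [Finset.sum_sub_distrib]; simp
    rw [e]
    refine (norm_sum_le _ _).trans (Finset.sum_le_sum fun j _ => ?_)
    refine (norm_pow_sub_one_le ρ j).trans ?_
    have := norm_nonneg (ρ - 1)
    gcongr
  have h2 : ∑ j ∈ Finset.range k, ((1 + s) ^ j - 1) = ((1 + s) ^ k - 1) / s - k := by
    rw [Finset.sum_sub_distrib, geom_sum_eq (by linarith)]
    simp
  have h3 : (1 + s) ^ k ≤ 309 / 100 := by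
    calc (1 + s) ^ k ≤ (Real.exp s) ^ k := by
          have := Real.add_one_le_exp s
          gcongr
          linarith
      _ = Real.exp (11 / 10) := by
          rw [← Real.exp_nat_mul, hs]
          congr 1
          field_simp
      _ ≤ _ := exp_bound
  have h4 : ((1 + s) ^ k - 1) / s ≤ 19 / 10 * k := by
    rw [div_le_iff₀ hsp]
    have : 19 / 10 * (k : ℝ) * s = 209 / 100 := by rw [hs]; field_simp; norm_num
    rw [this]
    linarith
  have h5 := norm_sub_norm_le (k : ℂ) (∑ j ∈ Finset.range k, ρ ^ j)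
  rw [norm_sub_rev, Complex.norm_natCast] at h5
  linarith

theorem pair_lemma {ν : ℂ → ℂ} {r : ℝ} (hr : 0 < r) (hν : DifferentiableOn ℂ ν (ball 0 r))
    (h0 : ν 0 = 0) (h1 : deriv ν 0 = 0) (hne : ∃ z ∈ ball (0 : ℂ) r, ν z ≠ 0) {ε : ℝ}
    (hε : 0 < ε) : ∃ ξ η : ℂ, ‖ξ‖ < ε ∧ ‖η‖ < ε ∧ ξ ≠ η ∧ ν ξ = ν η ∧ ν η ≠ 0 ∧
      21 / 20 ≤ ‖deriv ν η * ((η - ξ) / ν η)‖ ∧ ‖ν η‖ ≤ ε * ‖ξ - η‖ := by
  have h0m : (0 : ℂ) ∈ ball (0 : ℂ) r := mem_ball_self hr
  have han : AnalyticAt ℂ ν 0 := hν.analyticAt (isOpen_ball.mem_nhds h0m)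
  have hano : AnalyticOnNhd ℂ ν (ball 0 r) := hν.analyticOnNhd isOpen_ball
  have htop : analyticOrderAt ν 0 ≠ ⊤ := by
    intro h
    rw [analyticOrderAt_eq_top] at h
    obtain ⟨z, hz, hz0⟩ := hne
    exact hz0 (hano.eqOn_zero_of_preconnected_of_eventuallyEq_zero
      (convex_ball _ _).isPreconnected h0m h hz)
  obtain ⟨μ, hμ, hμ0, hμe⟩ := (han.analyticOrderAt_ne_top).1 htop
  set k := analyticOrderNatAt ν 0 with hk
  simp only [sub_zero, smul_eq_mul] at hμe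
  -- `k ≥ 2`
  have hk1 : k ≠ 0 := by
    intro hk0
    have h2 : ν 0 = 0 ^ k * μ 0 := hμe.self_of_nhds
    rw [hk0, pow_zero, one_mul, h0] at h2
    exact hμ0 h2.symm
  have hk2 : k ≠ 1 := by
    intro hk0
    have h2 : HasDerivAt (fun z : ℂ => z ^ k * μ z) (μ 0) 0 := by
      rw [hk0]
      have h3 := (hasDerivAt_pow 1 (0 : ℂ)).mul hμ.differentiableAt.hasDerivAt
      refine h3.congr_deriv ?_
      simp
    have h3 := h2.congr_of_eventuallyEq hμe
    rw [h3.deriv] at h1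
    exact hμ0 h1
  have hk3 : 2 ≤ k := by omega
  have hkR : (2 : ℝ) ≤ k := by exact_mod_cast hk3
  -- a small ball
  have hμp : 0 < ‖μ 0‖ := norm_pos_iff.2 hμ0
  obtain ⟨δ₁, hδ₁, hδa⟩ := Metric.eventually_nhds_iff.1
    (hμe.eventually_nhds.and (hμ.eventually_analyticAt.and (hμ.continuousAt.norm.eventually
      (lt_mem_nhds (show ‖μ 0‖ / 2 < ‖μ 0‖ by linarith)))))
  simp only [dist_zero_right] at hδa
  set δ : ℝ := min (δ₁ / 2) (r / 2) with hδ
  have hδp : 0 < δ := lt_min (by positivity) (by positivity)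
  have hδ1 : δ < δ₁ := (min_le_left _ _).trans_lt (by linarith)
  have hcomp : IsCompact (closedBall (0 : ℂ) δ) := isCompact_closedBall _ _
  have hμan : ∀ z ∈ closedBall (0 : ℂ) δ, AnalyticAt ℂ μ z := fun z hz => by
    rw [mem_closedBall, dist_zero_right] at hz
    exact (hδa (hz.trans_lt hδ1)).2.1
  obtain ⟨M, hM⟩ := hcomp.exists_bound_of_continuousOn (f := μ)
    fun z hz => (hμan z hz).continuousAt.continuousWithinAt
  obtain ⟨L, hL⟩ := hcomp.exists_bound_of_continuousOn (f := deriv μ)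
    fun z hz => (hμan z hz).deriv.continuousAt.continuousWithinAt
  have h0c : (0 : ℂ) ∈ closedBall (0 : ℂ) δ := mem_closedBall_self hδp.le
  have hL0 : 0 ≤ L := (norm_nonneg _).trans (hL 0 h0c)
  have hM0 : 0 ≤ M := (norm_nonneg _).trans (hM 0 h0c)
  set q : ℝ := L / (‖μ 0‖ / 2) with hq
  have hq0 : 0 ≤ q := by positivity
  set ε' : ℝ := min (min δ (min ε 1)) (min (1 / (40 * (q + 1))) (ε / (k * (M + 1)))) with hε'
  have hε'p : 0 < ε' := by positivity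
  have e1 : ε' ≤ δ := (min_le_left _ _).trans (min_le_left _ _)
  have e2 : ε' ≤ ε := (min_le_left _ _).trans ((min_le_right _ _).trans (min_le_left _ _))
  have e3 : ε' ≤ 1 := (min_le_left _ _).trans ((min_le_right _ _).trans (min_le_right _ _))
  have e4 : q * ε' ≤ 1 / 40 := by
    have h2 : ε' ≤ 1 / (40 * (q + 1)) := (min_le_right _ _).trans (min_le_left _ _)
    rw [le_div_iff₀ (by positivity)] at h2
    nlinarith
  have e5 : k * (M + 1) * ε' ≤ ε := by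
    have h2 : ε' ≤ ε / (k * (M + 1)) := (min_le_right _ _).trans (min_le_right _ _)
    rw [le_div_iff₀ (by positivity)] at h2
    linarith
  -- distinct points with the same image
  obtain ⟨ξ, η, hξ, hη, hξη, heq⟩ : ∃ ξ η : ℂ, ‖ξ‖ < ε' ∧ ‖η‖ < ε' ∧ ξ ≠ η ∧ ν ξ = ν η := by
    by_contra hcon
    have hinj : InjOn ν (ball 0 ε') := by
      intro ξ hξ η hη h
      by_contra hne
      rw [mem_ball, dist_zero_right] at hξ hη
      exact hcon ⟨ξ, η, hξ, hη, hne, h⟩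
    have hsub : ball (0 : ℂ) ε' ⊆ ball 0 r :=
      ball_subset_ball (e1.trans ((min_le_right _ _).trans (by linarith)))
    exact Pool.Agent.Helper202.Univ.deriv_ne_zero isOpen_ball (hν.mono hsub) hinj
      (mem_ball_self hε'p) h1
  have hform : ∀ z : ℂ, ‖z‖ < ε' → ν z = z ^ k * μ z ∧ ‖μ 0‖ / 2 < ‖μ z‖ := fun z hz =>
    ⟨(hδa (hz.trans_le e1 |>.trans hδ1)).1.self_of_nhds, (hδa (hz.trans_le e1 |>.trans hδ1)).2.2⟩
  have hμne : ∀ z : ℂ, ‖z‖ < ε' → μ z ≠ 0 := fun z hz h => by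
    have := (hform z hz).2
    rw [h, norm_zero] at this
    linarith
  have hη0 : η ≠ 0 := by
    rintro rfl
    rw [h0, (hform ξ hξ).1] at heq
    exact hξη (pow_eq_zero_iff hk1 |>.1 ((mul_eq_zero.1 heq).resolve_right (hμne ξ hξ)))
  have hηp : 0 < ‖η‖ := norm_pos_iff.2 hη0
  have hνη : ν η ≠ 0 := by
    rw [(hform η hη).1]
    exact mul_ne_zero (pow_ne_zero _ hη0) (hμne η hη)
  set ρ : ℂ := ξ / η with hρ
  have hρ1 : ρ ≠ 1 := by
    intro h
    rw [hρ, div_eq_one_iff_eq hη0] at h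
    exact hξη h
  have hξρ : ξ = ρ * η := by rw [hρ, div_mul_cancel₀ _ hη0]
  -- the relation
  have hrel : ρ ^ k * μ ξ = μ η := by
    rw [(hform ξ hξ).1, (hform η hη).1] at heq
    have h2 : η ^ k * (ρ ^ k * μ ξ) = η ^ k * μ η := by
      rw [← heq]
      conv_rhs => rw [hξρ, mul_pow]
      rw [← hξρ]
      ring
    exact mul_left_cancel₀ (pow_ne_zero _ hη0) h2
  have hμlip : ‖μ η - μ ξ‖ ≤ L * ‖η - ξ‖ := by
    refine Convex.norm_image_sub_le_of_norm_deriv_le (s := closedBall (0 : ℂ) δ) ?_ hL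
      (convex_closedBall _ _) ?_ ?_
    · exact fun z hz => (hμan z hz).differentiableAt
    · exact mem_closedBall.2 (by rw [dist_zero_right]; exact (hξ.trans_le e1).le)
    · exact mem_closedBall.2 (by rw [dist_zero_right]; exact (hη.trans_le e1).le)
  have hdiff : ‖η - ξ‖ = ‖η‖ * ‖ρ - 1‖ := by
    rw [← norm_mul, hξρ, ← norm_neg]
    congr 1
    ring
  have hρk : ‖ρ ^ k - 1‖ ≤ q * (‖η‖ * ‖ρ - 1‖) := by
    have h2 : ρ ^ k - 1 = (μ η - μ ξ) / μ ξ := by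
      rw [← hrel]
      have := hμne ξ hξ
      field_simp
    rw [h2, norm_div, div_le_iff₀ (norm_pos_iff.2 (hμne ξ hξ))]
    have h3 := (hform ξ hξ).2
    calc ‖μ η - μ ξ‖ ≤ L * ‖η - ξ‖ := hμlip
      _ = q * (‖η‖ * ‖ρ - 1‖) * (‖μ 0‖ / 2) := by rw [hdiff, hq]; field_simp
      _ ≤ _ := by gcongr
  have hρbig : 11 / 10 / k < ‖ρ - 1‖ := by
    by_contra hcon
    rw [not_lt] at hcon
    have h2 := geom_lower (by omega : 1 ≤ k) hcon
    have h3 : (∑ j ∈ Finset.range k, ρ ^ j) * (ρ - 1) = ρ ^ k - 1 := geom_sum_mul ρ k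
    have h4 : 1 / 10 * ‖ρ - 1‖ ≤ ‖ρ ^ k - 1‖ := by
      rw [← h3, norm_mul]
      exact mul_le_mul_of_nonneg_right h2 (norm_nonneg _)
    have h5 : 0 < ‖ρ - 1‖ := norm_pos_iff.2 (sub_ne_zero.2 hρ1)
    have h6 : q * ‖η‖ ≤ 1 / 40 := (mul_le_mul_of_nonneg_left hη.le hq0).trans e4
    nlinarith
  have hbig2 : 11 / 10 ≤ k * ‖ρ - 1‖ := by
    rw [div_lt_iff₀ (by linarith)] at hρbig
    linarith
  refine ⟨ξ, η, hξ.trans_le e2, hη.trans_le e2, hξη, heq, hνη, ?_, ?_⟩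
  · -- the multiplier
    have hd1 : HasDerivAt ν ((k : ℂ) * η ^ (k - 1) * μ η + η ^ k * deriv μ η) η := by
      have hηc : η ∈ closedBall (0 : ℂ) δ :=
        mem_closedBall.2 (by rw [dist_zero_right]; exact (hη.trans_le e1).le)
      have h3 := (hasDerivAt_pow k η).mul (hμan η hηc).differentiableAt.hasDerivAt
      refine h3.congr_of_eventuallyEq ?_
      exact (hδa (hη.trans_le e1 |>.trans hδ1)).1
    have hημ := hμne η hη
    rw [hd1.deriv, (hform η hη).1]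
    have h4 : ((k : ℂ) * η ^ (k - 1) * μ η + η ^ k * deriv μ η) * ((η - ξ) / (η ^ k * μ η)) =
        (k : ℂ) * (1 - ρ) + deriv μ η / μ η * (η - ξ) := by
      obtain ⟨n, hn⟩ : ∃ n, k = n + 1 := ⟨k - 1, by omega⟩
      rw [hn, Nat.add_sub_cancel, hρ]
      field_simp
      ring
    rw [h4]
    have hηc : η ∈ closedBall (0 : ℂ) δ :=
      mem_closedBall.2 (by rw [dist_zero_right]; exact (hη.trans_le e1).le)
    have h5 : ‖deriv μ η / μ η * (η - ξ)‖ ≤ 1 / 20 := by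
      rw [norm_mul, norm_div]
      have h6 : ‖deriv μ η‖ / ‖μ η‖ ≤ q := by
        rw [hq]
        have h7 := (hform η hη).2
        exact div_le_div₀ hL0 (hL η hηc) (by positivity) h7.le
      have h7 : ‖η - ξ‖ ≤ 2 * ε' := (norm_sub_le _ _).trans (by linarith)
      calc ‖deriv μ η‖ / ‖μ η‖ * ‖η - ξ‖ ≤ q * (2 * ε') :=
            mul_le_mul h6 h7 (norm_nonneg _) hq0
        _ ≤ _ := by linarith
    have h6 : 11 / 10 ≤ ‖(k : ℂ) * (1 - ρ)‖ := by
      rw [norm_mul, Complex.norm_natCast, norm_sub_rev]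
      exact hbig2
    have h7 := norm_sub_norm_le ((k : ℂ) * (1 - ρ)) (-(deriv μ η / μ η * (η - ξ)))
    rw [norm_neg, sub_neg_eq_add] at h7
    linarith
  · have hηc : η ∈ closedBall (0 : ℂ) δ :=
      mem_closedBall.2 (by rw [dist_zero_right]; exact (hη.trans_le e1).le)
    have h2 : ‖ν η‖ ≤ ‖η‖ ^ 2 * M := by
      rw [(hform η hη).1, norm_mul, norm_pow]
      have h3 : ‖η‖ ^ k ≤ ‖η‖ ^ 2 := pow_le_pow_of_le_one (norm_nonneg _) (hη.le.trans e3) hk3
      exact mul_le_mul h3 (hM η hηc) (norm_nonneg _) (by positivity)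
    have h3 : ‖η‖ ≤ k * ‖ξ - η‖ := by
      rw [norm_sub_rev, hdiff]
      nlinarith
    calc ‖ν η‖ ≤ ‖η‖ ^ 2 * M := h2
      _ = ‖η‖ * (M * ‖η‖) := by ring
      _ ≤ (k * ‖ξ - η‖) * ((M + 1) * ε') := by
          refine mul_le_mul h3 ?_ (by positivity) (by positivity)
          exact mul_le_mul (by linarith) hη.le (norm_nonneg _) (by positivity)
      _ = (k * (M + 1) * ε') * ‖ξ - η‖ := by ring
      _ ≤ _ := by gcongr

end Run7.h964.CS
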