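import Mathlib
import Pool.Agent.Run7.h964.CS.C
import Pool.Agent.Helper202.Univ

/-! Charts of the sphere; critical points are not points of local injectivity. -/

set_option autoImplicit false

open Topology Filter Metric Set
open Pool.Agent.H790R3.RB Pool.Agent.R239.Fat
open Pool.Agent.H790R3.RB.SP (pr_zero pr_ne pr_hc sp_pr sp_cont pr_eq_iff continuousAt_pr)

namespace Run7.h964.CS

open Run7.h964.FM

variable {d : ℕ}

theorem cx_self (v : ℂ × ℂ) : cx v v = 0 := by unfold cx; ring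
theorem cx_swap (v w : ℂ × ℂ) : cx v w = - cx w v := by unfold cx; ring

theorem cx_bp (b : ℂ × ℂ) : cx b (bp b) = ((en b ^ 2 : ℝ) : ℂ) := by
  rw [← ip_self]; unfold cx bp ip; ring

theorem chart_det {b : ℂ × ℂ} (hb : b ≠ 0) : b.1 * (bp b).2 - (bp b).1 * b.2 ≠ 0 := by
  have e : b.1 * (bp b).2 - (bp b).1 * b.2 = cx b (bp b) := by unfold cx; ring
  rw [e, cx_bp]
  exact_mod_cast (pow_pos (en_pos hb) 2).ne'

theorem chart_det' {b : ℂ × ℂ} (hb : b ≠ 0) : (bp b).1 * b.2 - b.1 * (bp b).2 ≠ 0 := by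
  intro h
  exact chart_det hb (by linear_combination -h)

/-- chart centred at `b` -/
noncomputable def c0 {b : ℂ × ℂ} (hb : b ≠ 0) : Sph ≃ₜ Sph :=
  mobH (bp b).1 b.1 (bp b).2 b.2 (chart_det' hb)

/-- chart with `b` at infinity -/
noncomputable def ci {b : ℂ × ℂ} (hb : b ≠ 0) : Sph ≃ₜ Sph :=
  mobH b.1 (bp b).1 b.2 (bp b).2 (chart_det hb)

theorem c0_coe {b : ℂ × ℂ} (hb : b ≠ 0) (z : ℂ) : c0 hb (z : Sph) = pr (b + z • bp b) := by
  have : c0 hb (z : Sph) = mob (bp b).1 b.1 (bp b).2 b.2 (pr (z, 1)) := by rw [pr_coe]; rfl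
  rw [this, mob_pr (chart_det' hb) (coe_ne z)]
  congr 1
  refine Prod.ext ?_ ?_
  · simp only [Prod.fst_add, Prod.smul_fst, smul_eq_mul]; ring
  · simp only [Prod.snd_add, Prod.smul_snd, smul_eq_mul]; ring

theorem ci_coe {b : ℂ × ℂ} (hb : b ≠ 0) (z : ℂ) : ci hb (z : Sph) = pr (z • b + bp b) := by
  have : ci hb (z : Sph) = mob b.1 (bp b).1 b.2 (bp b).2 (pr (z, 1)) := by rw [pr_coe]; rfl
  rw [this, mob_pr (chart_det hb) (coe_ne z)]
  congr 1
  refine Prod.ext ?_ ?_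
  · simp only [Prod.fst_add, Prod.smul_fst, smul_eq_mul]; ring
  · simp only [Prod.snd_add, Prod.smul_snd, smul_eq_mul]; ring

theorem ci_inf {b : ℂ × ℂ} (hb : b ≠ 0) : ci hb OnePoint.infty = pr b := by
  have : ci hb OnePoint.infty = mob b.1 (bp b).1 b.2 (bp b).2 (pr (1, 0)) := by rw [pr_inf]; rfl
  rw [this, mob_pr (chart_det hb) (inf_ne 0)]
  congr 1
  refine Prod.ext ?_ ?_
  · simp only; ring
  · simp only; ring

/-- derivative of a form along a line -/
theorem fm_deriv (H : Fin (d + 1) → ℂ) (c e : ℂ × ℂ) (z : ℂ) :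
    HasDerivAt (fun w : ℂ => fm H (c + w • e))
      (e.1 * fm1 H (c + z • e) + e.2 * fm2 H (c + z • e)) z := by
  have hu : HasDerivAt (fun w : ℂ => (c + w • e).1) e.1 z := by
    simp only [Prod.fst_add, Prod.smul_fst, smul_eq_mul]
    simpa using ((hasDerivAt_id z).mul_const e.1).const_add c.1
  have hv : HasDerivAt (fun w : ℂ => (c + w • e).2) e.2 z := by
    simp only [Prod.snd_add, Prod.smul_snd, smul_eq_mul]
    simpa using ((hasDerivAt_id z).mul_const e.2).const_add c.2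
  unfold fm fm1 fm2
  rw [Finset.mul_sum, Finset.mul_sum, ← Finset.sum_add_distrib]
  refine HasDerivAt.fun_sum fun j _ => ?_
  have h1 := (hu.pow (j : ℕ)).mul (hv.pow (d - (j : ℕ)))
  have h2 := h1.const_mul (H j)
  refine h2.congr_deriv ?_
  simp only [Pi.pow_apply]
  ring

/-- derivative of the pair along a line -/
noncomputable def dF (x : CV d) (p e : ℂ × ℂ) : ℂ × ℂ :=
  (e.1 * fm1 (row x 0) p + e.2 * fm2 (row x 0) p, e.1 * fm1 (row x 1) p + e.2 * fm2 (row x 1) p)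

theorem cx_deriv (x : CV d) (a c e : ℂ × ℂ) (z : ℂ) :
    HasDerivAt (fun w : ℂ => cx a (hF x (c + w • e))) (cx a (dF x (c + z • e) e)) z := by
  have h0 := fm_deriv (row x 0) c e z
  have h1 := fm_deriv (row x 1) c e z
  exact (h1.const_mul a.1).sub (h0.const_mul a.2)

theorem ip_deriv (x : CV d) (a c e : ℂ × ℂ) (z : ℂ) :
    HasDerivAt (fun w : ℂ => ip a (hF x (c + w • e))) (ip a (dF x (c + z • e) e)) z := by
  have h0 := fm_deriv (row x 0) c e z
  have h1 := fm_deriv (row x 1) c e z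
  exact (h0.const_mul _).add (h1.const_mul _)

/-- at a critical point the image is proportional to all derivatives -/
theorem prop_of_wr (hd : 1 ≤ d) {x : CV d} {c : ℂ × ℂ} (hw : wr x c = 0) (e : ℂ × ℂ) :
    cx (hF x c) (dF x c e) = 0 := by
  set D1 : ℂ × ℂ := (fm1 (row x 0) c, fm1 (row x 1) c) with hD1
  set D2 : ℂ × ℂ := (fm2 (row x 0) c, fm2 (row x 1) c) with hD2
  have hcx : cx D1 D2 = 0 := by rw [← hw, wr_eq]
  have hE : (d : ℂ) • hF x c = c.1 • D1 + c.2 • D2 := by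
    rw [hF_eq]
    refine Prod.ext ?_ ?_
    · simp only [Prod.smul_fst, Prod.fst_add, smul_eq_mul, hD1, hD2]
      exact euler _ _
    · simp only [Prod.smul_snd, Prod.snd_add, smul_eq_mul, hD1, hD2]
      exact euler _ _
  have hd0 : (d : ℂ) ≠ 0 := by exact_mod_cast (by omega : d ≠ 0)
  have h1 : cx D1 (hF x c) = 0 := by
    have h2 := congrArg (cx D1) hE
    rw [cx_smul, cx_add, cx_smul, cx_smul, cx_self, hcx, mul_zero, mul_zero, add_zero] at h2
    exact (mul_eq_zero.1 h2).resolve_left hd0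
  have h2 : cx D2 (hF x c) = 0 := by
    have h2 := congrArg (cx D2) hE
    rw [cx_smul, cx_add, cx_smul, cx_smul, cx_self, cx_swap D2 D1, hcx, neg_zero, mul_zero,
      mul_zero, add_zero] at h2
    exact (mul_eq_zero.1 h2).resolve_left hd0
  have h3 : dF x c e = e.1 • D1 + e.2 • D2 := rfl
  rw [h3, cx_add, cx_smul, cx_smul, cx_swap _ D1, cx_swap _ D2, h1, h2]
  ring

/-- the map in the charts centred at `c` and at its image -/
noncomputable def nu (x : CV d) (c : ℂ × ℂ) (z : ℂ) : ℂ :=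
  cx (hF x c) (hF x (c + z • bp c)) / ip (hF x c) (hF x (c + z • bp c))

theorem bp_ne {c : ℂ × ℂ} (hc : c ≠ 0) : bp c ≠ 0 := by
  intro h
  have := en_bp c
  rw [h, en_eq_zero.2 rfl] at this
  exact (en_pos hc).ne this

theorem ip_self_ne {u : ℂ × ℂ} (hu : u ≠ 0) : ip u u ≠ 0 := by
  rw [ip_self]; exact_mod_cast (pow_pos (en_pos hu) 2).ne'

/-- near `0` the denominator does not vanish -/
theorem nu_dom {x : CV d} (hx : ND x) {c : ℂ × ℂ} (hc : c ≠ 0) :
    ∃ r : ℝ, 0 < r ∧ ∀ z : ℂ, ‖z‖ < r → ip (hF x c) (hF x (c + z • bp c)) ≠ 0 := by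
  have hu : hF x c ≠ 0 := fun h => hc (hx c h)
  have h1 : ContinuousAt (fun z : ℂ => ip (hF x c) (hF x (c + z • bp c))) 0 :=
    (ip_deriv x (hF x c) c (bp c) 0).continuousAt
  have h2 : ip (hF x c) (hF x (c + (0 : ℂ) • bp c)) ≠ 0 := by
    rw [zero_smul, add_zero]; exact ip_self_ne hu
  obtain ⟨r, hr, h3⟩ := Metric.eventually_nhds_iff.1 (h1.eventually_ne h2)
  exact ⟨r, hr, fun z hz => h3 (by rwa [dist_zero_right])⟩

/-- the image in terms of `nu` -/
theorem hF_nu {x : CV d} {c : ℂ × ℂ} (hu : hF x c ≠ 0) {z : ℂ}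
    (h : ip (hF x c) (hF x (c + z • bp c)) ≠ 0) :
    hF x (c + z • bp c) = (ip (hF x c) (hF x (c + z • bp c)) / ((en (hF x c) ^ 2 : ℝ) : ℂ)) •
      (hF x c + nu x c z • bp (hF x c)) := by
  have h1 := inD_eq hu h
  rw [ip_bp] at h1
  exact h1

theorem nu_deriv {x : CV d} {c : ℂ × ℂ} {z : ℂ}
    (h : ip (hF x c) (hF x (c + z • bp c)) ≠ 0) :
    HasDerivAt (nu x c) ((cx (hF x c) (dF x (c + z • bp c) (bp c)) *
      ip (hF x c) (hF x (c + z • bp c)) - cx (hF x c) (hF x (c + z • bp c)) *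
      ip (hF x c) (dF x (c + z • bp c) (bp c))) / ip (hF x c) (hF x (c + z • bp c)) ^ 2) z :=
  (cx_deriv x (hF x c) c (bp c) z).div (ip_deriv x (hF x c) c (bp c) z) h

theorem nu_zero (x : CV d) (c : ℂ × ℂ) : nu x c 0 = 0 := by
  unfold nu
  rw [zero_smul, add_zero, cx_self, zero_div]

theorem sp_nu {x : CV d} (hx : ND x) {c : ℂ × ℂ} (hc : c ≠ 0) {z : ℂ}
    (h : ip (hF x c) (hF x (c + z • bp c)) ≠ 0) :
    sp x (pr (c + z • bp c)) = pr (hF x c + nu x c z • bp (hF x c)) := by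
  have hu : hF x c ≠ 0 := fun h => hc (hx c h)
  rw [sp_pr hx (add_bp_ne hc z)]
  conv_lhs => rw [hF_nu hu h]
  set k := ip (hF x c) (hF x (c + z • bp c)) / ((en (hF x c) ^ 2 : ℝ) : ℂ) with hk
  have hk0 : k ≠ 0 := div_ne_zero h (by exact_mod_cast (pow_pos (en_pos hu) 2).ne')
  have hv := add_bp_ne hu (nu x c z)
  rw [pr_eq_iff (smul_ne_zero hk0 hv) hv, cr_smul_left, cr_self, mul_zero]

/-- distinct points near a critical point with the same image -/
theorem exists_pair (hd : 2 ≤ d) {x : CV d} (hx : ND x) {c : ℂ × ℂ} (hc : c ≠ 0)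
    (hw : wr x c = 0) {r : ℝ} (hr : 0 < r)
    (hdom : ∀ z : ℂ, ‖z‖ < r → ip (hF x c) (hF x (c + z • bp c)) ≠ 0) :
    ∃ ξ η : ℂ, ‖ξ‖ < r ∧ ‖η‖ < r ∧ ξ ≠ η ∧ nu x c ξ = nu x c η := by
  by_contra hcon
  have hinj : InjOn (nu x c) (ball 0 r) := by
    intro ξ hξ η hη h
    by_contra hne
    rw [mem_ball, dist_zero_right] at hξ hη
    exact hcon ⟨ξ, η, hξ, hη, hne, h⟩
  have hdiff : DifferentiableOn ℂ (nu x c) (ball 0 r) := by
    intro z hz
    rw [mem_ball, dist_zero_right] at hz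
    exact (nu_deriv (hdom z hz)).differentiableAt.differentiableWithinAt
  have h1 := Pool.Agent.Helper202.Univ.deriv_ne_zero isOpen_ball hdiff hinj (mem_ball_self hr)
  apply h1
  have h0 : ip (hF x c) (hF x (c + (0 : ℂ) • bp c)) ≠ 0 := hdom 0 (by rwa [norm_zero])
  rw [(nu_deriv h0).deriv]
  rw [zero_smul, add_zero, prop_of_wr (by omega) hw, cx_self]
  simp

/-- critical points are not points of local injectivity -/
theorem crit_top (hd : 2 ≤ d) {x : CV d} (hx : ND x) {c : ℂ × ℂ} (hc : c ≠ 0)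
    (hw : wr x c = 0) : ¬ LocInj (sp x) (pr c) := by
  rintro ⟨U, hU, hinj⟩
  have hc0 : c0 hc (((0 : ℂ) : Sph)) = pr c := by rw [c0_coe, zero_smul, add_zero]
  have h1 : ContinuousAt (fun z : ℂ => c0 hc (z : Sph)) 0 :=
    ((c0 hc).continuous.comp OnePoint.continuous_coe).continuousAt
  have h2 : ∀ᶠ z : ℂ in 𝓝 0, c0 hc (z : Sph) ∈ U := by
    refine h1.eventually_mem ?_
    rw [hc0]; exact hU
  obtain ⟨r₁, hr₁, h3⟩ := Metric.eventually_nhds_iff.1 h2
  obtain ⟨r₂, hr₂, h4⟩ := nu_dom hx hc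
  obtain ⟨ξ, η, h5, h6, h7, h8⟩ := exists_pair hd hx hc hw (lt_min hr₁ hr₂)
    (fun z hz => h4 z (hz.trans_le (min_le_right _ _)))
  have h9 : ∀ z : ℂ, ‖z‖ < min r₁ r₂ → sp x (c0 hc (z : Sph)) =
      pr (hF x c + nu x c z • bp (hF x c)) := by
    intro z hz
    rw [c0_coe]
    exact sp_nu hx hc (h4 z (hz.trans_le (min_le_right _ _)))
  have h10 := hinj (h3 (y := ξ) (by rw [dist_zero_right]; exact h5.trans_le (min_le_left _ _)))
    (h3 (y := η) (by rw [dist_zero_right]; exact h6.trans_le (min_le_left _ _)))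
    (by rw [h9 ξ h5, h9 η h6, h8])
  exact h7 (OnePoint.coe_injective ((c0 hc).injective h10))

end Run7.h964.CS
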