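import Mathlib
import Pool.Agent.Run7.h964.CS.H

/-! A sphere map close to a translation near infinity, with a second fixed point: points that go to
infinity are not attracted by an attracting cycle. -/

set_option autoImplicit false

open Topology Filter Metric Set
open Pool.Agent.H790R3.RB Pool.Agent.R239.Fat

namespace Run7.h964.CS

open Run7.h964.FM

/-- `G` is close to the translation by `b` near infinity -/
structure Tl (G : Sph → Sph) (b : ℂ) (R : ℝ) (κ : ℂ → ℂ) : Prop where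
  pos : 0 < R
  big : 8 * R ≤ ‖b‖
  eq : ∀ W : ℂ, R ≤ ‖W‖ → G (W : Sph) = ((W + b + κ W : ℂ) : Sph)
  bd : ∀ W : ℂ, R ≤ ‖W‖ → ‖κ W‖ ≤ ‖b‖ / 8
  lip : ∀ W W' : ℂ, R ≤ ‖W‖ → R ≤ ‖W'‖ → ‖κ W - κ W'‖ ≤ 1 / 2 * ‖W - W'‖

theorem Tl.b_pos {G : Sph → Sph} {b : ℂ} {R : ℝ} {κ : ℂ → ℂ} (h : Tl G b R κ) : 0 < ‖b‖ := by
  have := h.pos
  have := h.big
  linarith

theorem Tl.forward {G : Sph → Sph} {b : ℂ} {R : ℝ} {κ : ℂ → ℂ} (h : Tl G b R κ) {c : Sph} {τ : ℂ}
    (hc : G c = ((b + τ : ℂ) : Sph)) (hτ : ‖τ‖ ≤ ‖b‖ / 4) (n : ℕ) :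
    ∃ W : ℂ, G^[n + 1] c = (W : Sph) ∧ ‖W - (n + 1) * b‖ ≤ ‖b‖ / 4 + n * (‖b‖ / 8) := by
  induction n with
  | zero =>
    refine ⟨b + τ, ?_, ?_⟩
    · simpa using hc
    · simpa using hτ
  | succ n ih =>
    obtain ⟨W, h1, h2⟩ := ih
    have hb := h.b_pos
    have hW : R ≤ ‖W‖ := by
      have h3 : ‖((n : ℂ) + 1) * b‖ = (n + 1) * ‖b‖ := by
        rw [norm_mul]
        congr 1
        have : ((n : ℂ) + 1) = ((n + 1 : ℕ) : ℂ) := by push_cast; ring
        rw [this, Complex.norm_natCast]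
        push_cast; ring
      have h4 := norm_sub_norm_le (((n : ℂ) + 1) * b) W
      rw [norm_sub_rev, h3] at h4
      have hn : (0 : ℝ) ≤ n := Nat.cast_nonneg n
      have hbig := h.big
      nlinarith [mul_nonneg hn hb.le]
    refine ⟨W + b + κ W, ?_, ?_⟩
    · rw [Function.iterate_succ_apply', h1]
      exact h.eq W hW
    · have e : W + b + κ W - (((n + 1 : ℕ) : ℂ) + 1) * b = (W - (n + 1) * b) + κ W := by
        push_cast; ring
      rw [e]
      refine (norm_add_le _ _).trans ?_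
      have := h.bd W hW
      push_cast
      linarith

theorem Tl.back {G : Sph → Sph} {b : ℂ} {R : ℝ} {κ : ℂ → ℂ} (h : Tl G b R κ) {V : ℂ}
    (hV : R ≤ ‖V - b‖ - ‖b‖ / 8) : ∃ W : ℂ, R ≤ ‖W‖ ∧ G (W : Sph) = (V : Sph) ∧
      ‖W - (V - b)‖ ≤ ‖b‖ / 8 := by
  have hb := h.b_pos
  set S : Set ℂ := closedBall (V - b) (‖b‖ / 8) with hS
  have hSm : ∀ W, W ∈ S ↔ ‖W - (V - b)‖ ≤ ‖b‖ / 8 := fun W => by
    rw [hS, mem_closedBall, dist_eq_norm]
  have hSR : ∀ W ∈ S, R ≤ ‖W‖ := by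
    intro W hW
    rw [hSm] at hW
    have := norm_sub_norm_le (V - b) W
    rw [norm_sub_rev (V - b) W] at this
    linarith
  have hTm : ∀ W ∈ S, V - b - κ W ∈ S := by
    intro W hW
    rw [hSm]
    have e : V - b - κ W - (V - b) = - κ W := by ring
    rw [e, norm_neg]
    exact h.bd _ (hSR _ hW)
  let T : S → S := fun W => ⟨V - b - κ W, hTm W W.2⟩
  have hcon : ContractingWith (1 / 2) T := by
    refine ⟨by norm_num, LipschitzWith.of_dist_le_mul fun x y => ?_⟩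
    rw [Subtype.dist_eq, Subtype.dist_eq, dist_eq_norm, dist_eq_norm]
    have e : (T x : ℂ) - (T y : ℂ) = -(κ x - κ y) := by
      show V - b - κ x - (V - b - κ y) = _
      ring
    rw [e, norm_neg]
    simpa using h.lip x y (hSR _ x.2) (hSR _ y.2)
  have : CompleteSpace S := (isClosed_closedBall.isComplete).completeSpace_coe
  have : Nonempty S := ⟨⟨V - b, mem_closedBall_self (by positivity)⟩⟩
  set W₀ : S := ContractingWith.fixedPoint T hcon with hW₀
  have hfix : V - b - κ W₀ = W₀ := congrArg Subtype.val (ContractingWith.fixedPoint_isFixedPt hcon)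
  refine ⟨W₀, hSR _ W₀.2, ?_, ?_⟩
  · rw [h.eq _ (hSR _ W₀.2)]
    congr 1
    linear_combination -hfix
  · exact (hSm _).1 W₀.2

theorem Tl.backward {G : Sph → Sph} {b : ℂ} {R : ℝ} {κ : ℂ → ℂ} (h : Tl G b R κ) {y : ℂ}
    (hy : ‖y‖ ≤ ‖b‖ / 8) (n : ℕ) :
    ∃ V : ℂ, G^[n] (V : Sph) = (y : Sph) ∧ ‖V + n * b‖ ≤ ‖b‖ / 8 + n * (‖b‖ / 8) := by
  induction n with
  | zero => exact ⟨y, rfl, by simpa using hy⟩
  | succ n ih =>
    obtain ⟨V, h1, h2⟩ := ih
    have hb := h.b_pos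
    have hn : (0 : ℝ) ≤ n := Nat.cast_nonneg n
    have hbig := h.big
    obtain ⟨W, -, h4, h5⟩ := h.back (V := V) (by
      have h3 : ‖((n : ℂ) + 1) * b‖ = (n + 1) * ‖b‖ := by
        rw [norm_mul]
        congr 1
        have : ((n : ℂ) + 1) = ((n + 1 : ℕ) : ℂ) := by push_cast; ring
        rw [this, Complex.norm_natCast]
        push_cast; ring
      have h4 : ‖((n : ℂ) + 1) * b‖ ≤ ‖V - b‖ + ‖V + n * b‖ := by
        have e : ((n : ℂ) + 1) * b = (V + n * b) - (V - b) := by ring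
        rw [e]
        refine (norm_sub_le _ _).trans ?_
        linarith
      rw [h3] at h4
      nlinarith [mul_nonneg hn hb.le])
    refine ⟨W, ?_, ?_⟩
    · rw [Function.iterate_succ_apply, h4]
      exact h1
    · have e : W + ((n + 1 : ℕ) : ℂ) * b = (W - (V - b)) + (V + n * b) := by push_cast; ring
      rw [e]
      refine (norm_add_le _ _).trans ?_
      push_cast
      linarith

theorem Tl.not_att {G : Sph → Sph} {b : ℂ} {R : ℝ} {κ : ℂ → ℂ} (h : Tl G b R κ) {c : Sph} {τ : ℂ}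
    (hc : G c = ((b + τ : ℂ) : Sph)) (hτ : ‖τ‖ ≤ ‖b‖ / 4) {y : ℂ} (hy : G (y : Sph) = (y : Sph)) :
    ¬ Att G c := by
  have hb := h.b_pos
  have hbig := h.big
  have hRp := h.pos
  have hyR : ‖y‖ ≤ ‖b‖ / 8 := by
    by_contra hcon
    rw [not_le] at hcon
    have h1 : R ≤ ‖y‖ := by linarith
    have h2 := h.eq y h1
    rw [hy] at h2
    have h3 : y = y + b + κ y := OnePoint.coe_injective h2
    have h4 : b = - κ y := by linear_combination -h3
    have h5 := h.bd y h1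
    have h6 : ‖b‖ = ‖κ y‖ := by
      conv_lhs => rw [h4]
      exact norm_neg _
    linarith
  -- the orbit of `c` tends to infinity
  have hlim : Tendsto (fun n : ℕ => G^[n] c) atTop (𝓝 OnePoint.infty) := by
    rw [← tendsto_add_atTop_iff_nat 1]
    intro U hU
    obtain ⟨ρ, hρ, hρU⟩ := nhds_big hU
    rw [Filter.mem_map, mem_atTop_sets]
    obtain ⟨N, hN⟩ := exists_nat_gt (2 * ρ / ‖b‖)
    refine ⟨N, fun n hn => hρU _ ?_⟩
    obtain ⟨W, h1, h2⟩ := h.forward hc hτ n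
    show Big ρ (G^[n + 1] c)
    rw [h1, big_coe]
    have h3 : ‖((n : ℂ) + 1) * b‖ = (n + 1) * ‖b‖ := by
      rw [norm_mul]
      congr 1
      have : ((n : ℂ) + 1) = ((n + 1 : ℕ) : ℂ) := by push_cast; ring
      rw [this, Complex.norm_natCast]
      push_cast; ring
    have h4 := norm_sub_norm_le (((n : ℂ) + 1) * b) W
    rw [norm_sub_rev, h3] at h4
    have h5 : (N : ℝ) ≤ n := by exact_mod_cast hn
    rw [div_lt_iff₀ hb] at hN
    have h6 : (N : ℝ) * ‖b‖ ≤ n * ‖b‖ := by gcongr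
    nlinarith
  rintro ⟨z, n, hn, -, ⟨U, hU, hU2⟩, ht⟩
  have hmul : Tendsto (fun k : ℕ => n * k) atTop atTop :=
    tendsto_id.const_mul_atTop' hn
  have hz : z = OnePoint.infty := tendsto_nhds_unique ht (hlim.comp hmul)
  subst hz
  obtain ⟨ρ, hρ, hρU⟩ := nhds_big hU
  obtain ⟨N, hN⟩ := exists_nat_gt (2 * ρ / ‖b‖)
  obtain ⟨V, h1, h2⟩ := h.backward hyR (N + 1)
  have hVU : (V : Sph) ∈ U := by
    refine hρU _ ?_
    rw [big_coe]
    have h3 : ‖(((N + 1 : ℕ) : ℂ)) * b‖ = (N + 1) * ‖b‖ := by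
      rw [norm_mul, Complex.norm_natCast]
      push_cast; ring
    have h4 : ‖(((N + 1 : ℕ) : ℂ)) * b‖ ≤ ‖V + ((N + 1 : ℕ) : ℂ) * b‖ + ‖V‖ := by
      have h5 := norm_sub_le (V + ((N + 1 : ℕ) : ℂ) * b) V
      have e : (V + ((N + 1 : ℕ) : ℂ) * b) - V = (((N + 1 : ℕ) : ℂ)) * b := by ring
      rw [e] at h5
      exact h5
    rw [h3] at h4
    push_cast at h2 h4
    rw [div_lt_iff₀ hb] at hN
    nlinarith
  have h3 := hU2 _ hVU
  have h4 : Tendsto (fun k : ℕ => G^[n * k] (V : Sph)) atTop (𝓝 (y : Sph)) := by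
    refine tendsto_const_nhds.congr' ?_
    filter_upwards [eventually_ge_atTop (N + 1)] with k hk
    have h5 : N + 1 ≤ n * k := hk.trans (Nat.le_mul_of_pos_left k hn)
    obtain ⟨m, hm⟩ := Nat.exists_eq_add_of_le h5
    rw [hm, add_comm, Function.iterate_add_apply, h1]
    clear hm
    induction m with
    | zero => rfl
    | succ m ih => rw [Function.iterate_succ_apply', ← ih, hy]
  exact OnePoint.infty_ne_coe y (tendsto_nhds_unique h3 h4)

end Run7.h964.CS
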