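import Mathlib
import Pool.Agent.Run7.h964.CS.I

/-! Local form of the map near the fixed point. -/

set_option autoImplicit false

open Topology Filter Metric Set

namespace Run7.h964.CS

theorem local_par {A B : ℂ → ℂ} (hA : Differentiable ℂ A) (hB : Differentiable ℂ B)
    (hB0 : B 0 = 0) {l : ℂ} (hl : l ≠ 0) (hBd : deriv B 0 = l) (hA0 : A 0 ≠ 0) :
    ∃ (k : ℂ → ℂ) (r K L : ℝ), 0 < r ∧ 0 ≤ K ∧ 0 ≤ L ∧
      (∀ z, ‖z‖ < r → z ≠ 0 → B z ≠ 0 ∧ l / A 0 * (A z / B z) = z⁻¹ + k z) ∧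
      (∀ z, ‖z‖ < r → ‖k z‖ ≤ K) ∧
      (∀ z z', ‖z‖ < r → ‖z'‖ < r → ‖k z - k z'‖ ≤ L * ‖z - z'‖) ∧
      (∀ z, ‖z‖ < r → ‖l‖ / 2 * ‖z‖ ≤ ‖B z‖) := by
  set B1 : ℂ → ℂ := dslope B 0 with hB1
  have hB1d : Differentiable ℂ B1 := by
    have := (Complex.differentiableOn_dslope (f := B) (s := univ) (c := 0) univ_mem).2
      hB.differentiableOn
    exact differentiableOn_univ.1 this
  have hB10 : B1 0 = l := by rw [hB1, dslope_same, hBd]
  have hBz : ∀ z, B z = z * B1 z := by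
    intro z
    have := sub_smul_dslope B 0 z
    rw [sub_zero, hB0, sub_zero, smul_eq_mul] at this
    exact this.symm
  have hlp : 0 < ‖l‖ := norm_pos_iff.2 hl
  -- `B1` is bounded below near `0`
  obtain ⟨r₁, hr₁, h1⟩ : ∃ r₁ : ℝ, 0 < r₁ ∧ ∀ z : ℂ, ‖z‖ < r₁ → ‖l‖ / 2 < ‖B1 z‖ := by
    have hc : ContinuousAt (fun z => ‖B1 z‖) 0 := (hB1d.continuous.norm).continuousAt
    have h2 : ‖l‖ / 2 < ‖B1 0‖ := by rw [hB10]; linarith
    obtain ⟨r, hr, h3⟩ := Metric.eventually_nhds_iff.1 (hc.eventually (lt_mem_nhds h2))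
    exact ⟨r, hr, fun z hz => h3 (by rwa [dist_zero_right])⟩
  have hB1ne : ∀ z : ℂ, ‖z‖ < r₁ → B1 z ≠ 0 := fun z hz h0 => by
    have := h1 z hz
    rw [h0, norm_zero] at this
    linarith
  set h : ℂ → ℂ := fun z => l / A 0 * (A z / B1 z) - 1 with hh
  have hhd : DifferentiableOn ℂ h (ball 0 r₁) := by
    intro z hz
    rw [mem_ball, dist_zero_right] at hz
    exact (((((hA z).div (hB1d z) (hB1ne z hz)).const_mul (l / A 0))).sub_const
      1).differentiableWithinAt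
  have hh0 : h 0 = 0 := by
    simp only [hh]
    rw [hB10]
    field_simp
    ring
  set k : ℂ → ℂ := dslope h 0 with hk
  have hkd : DifferentiableOn ℂ k (ball 0 r₁) :=
    (Complex.differentiableOn_dslope (isOpen_ball.mem_nhds (mem_ball_self hr₁))).2 hhd
  have hhz : ∀ z, h z = z * k z := by
    intro z
    have := sub_smul_dslope h 0 z
    rw [sub_zero, hh0, sub_zero, smul_eq_mul] at this
    exact this.symm
  have hr2 : 0 < r₁ / 2 := by positivity
  have hsub : closedBall (0 : ℂ) (r₁ / 2) ⊆ ball 0 r₁ := closedBall_subset_ball (by linarith)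
  have hcomp : IsCompact (closedBall (0 : ℂ) (r₁ / 2)) := isCompact_closedBall _ _
  obtain ⟨K, hK⟩ := hcomp.exists_bound_of_continuousOn (hkd.continuousOn.mono hsub)
  have hdk : ContinuousOn (deriv k) (closedBall (0 : ℂ) (r₁ / 2)) :=
    ((hkd.deriv isOpen_ball).continuousOn).mono hsub
  obtain ⟨L, hL⟩ := hcomp.exists_bound_of_continuousOn hdk
  have h0m : (0 : ℂ) ∈ closedBall (0 : ℂ) (r₁ / 2) := mem_closedBall_self hr2.le
  refine ⟨k, r₁ / 2, K, L, hr2, (norm_nonneg _).trans (hK 0 h0m), (norm_nonneg _).trans (hL 0 h0m),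
    ?_, ?_, ?_, ?_⟩
  · intro z hz hz0
    have hz1 : ‖z‖ < r₁ := by linarith
    have hne := hB1ne z hz1
    refine ⟨by rw [hBz]; exact mul_ne_zero hz0 hne, ?_⟩
    have h2 := hhz z
    simp only [hh] at h2
    rw [hBz]
    have h3 : l / A 0 * (A z / B1 z) = 1 + z * k z := by linear_combination h2
    calc l / A 0 * (A z / (z * B1 z)) = z⁻¹ * (l / A 0 * (A z / B1 z)) := by
          field_simp
      _ = z⁻¹ + k z := by rw [h3]; field_simp
  · intro z hz
    exact hK z (mem_closedBall.2 (by rw [dist_zero_right]; exact hz.le))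
  · intro z z' hz hz'
    refine Convex.norm_image_sub_le_of_norm_deriv_le (s := closedBall (0 : ℂ) (r₁ / 2)) ?_ ?_
      (convex_closedBall _ _) (mem_closedBall.2 (by rw [dist_zero_right]; exact hz'.le))
      (mem_closedBall.2 (by rw [dist_zero_right]; exact hz.le))
    · intro w hw
      exact hkd.differentiableAt (isOpen_ball.mem_nhds (hsub hw))
    · intro w hw
      exact hL w hw
  · intro z hz
    rw [hBz, norm_mul, mul_comm]
    exact mul_le_mul_of_nonneg_left (h1 z (by linarith)).le (norm_nonneg _)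

/-- an entire function that tends to infinity has a zero -/
theorem exists_zero {Ψ : ℂ → ℂ} (hΨ : Differentiable ℂ Ψ) {c R : ℝ} (hc : 0 < c)
    (h : ∀ W : ℂ, R ≤ ‖W‖ → c * ‖W‖ ≤ ‖Ψ W‖) : ∃ W, Ψ W = 0 := by
  by_contra hcon
  rw [not_exists] at hcon
  have hd : Differentiable ℂ fun W => (Ψ W)⁻¹ := fun W => (hΨ W).inv (hcon W)
  have ht : Tendsto (fun W => (Ψ W)⁻¹) (cocompact ℂ) (𝓝 0) := by
    rw [tendsto_zero_iff_norm_tendsto_zero]
    have h1 : Tendsto (fun W : ℂ => (c * ‖W‖)⁻¹) (cocompact ℂ) (𝓝 0) :=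
      (Tendsto.const_mul_atTop hc tendsto_norm_cocompact_atTop).inv_tendsto_atTop
    refine squeeze_zero' (Eventually.of_forall fun _ => norm_nonneg _) ?_ h1
    filter_upwards [tendsto_norm_cocompact_atTop.eventually (eventually_ge_atTop (max R 1))]
      with W hW
    have hW1 : 1 ≤ ‖W‖ := (le_max_right _ _).trans hW
    rw [norm_inv]
    exact inv_anti₀ (by positivity) (h W ((le_max_left _ _).trans hW))
  have := hd.apply_eq_of_tendsto_cocompact 0 ht
  exact hcon 0 (inv_eq_zero.1 this)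

end Run7.h964.CS
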