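import Mathlib
import Pool.Agent.Run7.h964.CS.J
import Pool.Agent.Run7.h964.FM.X

/-! Near the matrix `rk (F b) b` there are matrices `m` with a parabolic fixed point of `m ∘ F`
which attracts a critical point. -/

set_option autoImplicit false

open Topology Filter Metric Set
open Pool.Agent.H790R3.RB Pool.Agent.R239.Fat
open Pool.Agent.H790R3.RB.SP (pr_zero pr_ne pr_hc sp_pr sp_cont pr_eq_iff continuousAt_pr)

namespace Run7.h964.CS

open Run7.h964.FM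

variable {d : ℕ}

/-- the matrices whose composition with the map is not hyperbolic -/
def NH (x : CV d) : Set ((ℂ × ℂ) × (ℂ × ℂ)) := {m | dt m ≠ 0 ∧ ¬ HypTop (sp (cm m x))}

/-- the matrix of `w ↦ (κ (a ∧ w) + lam ⟨a, w⟩) b + (a ∧ w) b'` -/
noncomputable def mm (a b : ℂ × ℂ) (lam κ : ℂ) : (ℂ × ℂ) × (ℂ × ℂ) :=
  ((-a.2 * (κ * b.1 + (bp b).1) + lam * star a.1 * b.1,
      a.1 * (κ * b.1 + (bp b).1) + lam * star a.2 * b.1),
    (-a.2 * (κ * b.2 + (bp b).2) + lam * star a.1 * b.2,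
      a.1 * (κ * b.2 + (bp b).2) + lam * star a.2 * b.2))

theorem app_mm (a b : ℂ × ℂ) (lam κ : ℂ) (w : ℂ × ℂ) :
    app (mm a b lam κ) w = (κ * cx a w + lam * ip a w) • b + cx a w • bp b := by
  refine Prod.ext ?_ ?_
  · simp only [app, mm, cx, ip, Prod.fst_add, Prod.smul_fst, smul_eq_mul]; ring
  · simp only [app, mm, cx, ip, Prod.snd_add, Prod.smul_snd, smul_eq_mul]; ring

theorem dt_app (m : (ℂ × ℂ) × (ℂ × ℂ)) (u v : ℂ × ℂ) : cx (app m u) (app m v) = dt m * cx u v := by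
  unfold cx app dt; ring

theorem dt_mm {a b : ℂ × ℂ} (ha : a ≠ 0) (hb : b ≠ 0) {lam : ℂ} (hl : lam ≠ 0) (κ : ℂ) :
    dt (mm a b lam κ) ≠ 0 := by
  have h := dt_app (mm a b lam κ) a (bp a)
  rw [app_mm, app_mm, cx_self, cx_bp, ip_self] at h
  have e : ip a (bp a) = 0 := by unfold ip bp; simp only [Complex.star_def]; ring
  rw [e] at h
  intro h0
  rw [h0, zero_mul] at h
  have ha2 : ((en a ^ 2 : ℝ) : ℂ) ≠ 0 := by exact_mod_cast (pow_pos (en_pos ha) 2).ne'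
  have hb2 : ((en b ^ 2 : ℝ) : ℂ) ≠ 0 := by exact_mod_cast (pow_pos (en_pos hb) 2).ne'
  have h1 : cx ((κ * 0 + lam * ((en a ^ 2 : ℝ) : ℂ)) • b + (0 : ℂ) • bp b)
      ((κ * ((en a ^ 2 : ℝ) : ℂ) + lam * 0) • b + ((en a ^ 2 : ℝ) : ℂ) • bp b) =
      lam * ((en a ^ 2 : ℝ) : ℂ) * ((en a ^ 2 : ℝ) : ℂ) * cx b (bp b) := by
    unfold cx
    simp only [Prod.fst_add, Prod.snd_add, Prod.smul_fst, Prod.smul_snd, smul_eq_mul]
    ring
  rw [h1, cx_bp] at h
  exact mul_ne_zero (mul_ne_zero (mul_ne_zero hl ha2) ha2) hb2 h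

theorem mm_eq (a b : ℂ × ℂ) (lam κ : ℂ) : mm a b lam κ = κ • rk a b + mm a b lam 0 := by
  unfold mm rk
  refine Prod.ext (Prod.ext ?_ ?_) (Prod.ext ?_ ?_)
  all_goals
    simp only [Prod.fst_add, Prod.snd_add, Prod.smul_fst, Prod.smul_snd, smul_eq_mul]
    ring

theorem sp_app {x : CV d} (hx : ND x) {m : (ℂ × ℂ) × (ℂ × ℂ)} (hm : dt m ≠ 0) {p : ℂ × ℂ}
    (hp : p ≠ 0) : sp (cm m x) (pr p) = pr (app m (hF x p)) := by
  rw [sp_pr (nd_cm hm hx) hp, hF_cm]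

theorem pr_comb {b : ℂ × ℂ} (hb : b ≠ 0) {s t : ℂ} (ht : t ≠ 0) :
    pr (s • b + t • bp b) = ci hb ((s / t : ℂ) : Sph) := by
  rw [ci_coe]
  have e : s • b + t • bp b = t • ((s / t) • b + bp b) := by
    rw [smul_add, smul_smul, mul_div_cancel₀ _ ht]
  rw [e, pr_smul ht]

theorem ne_comb {b : ℂ × ℂ} (hb : b ≠ 0) (z : ℂ) : z • b + bp b ≠ 0 := by
  intro h
  have h1 := congrArg (cx b) h
  rw [cx_add, cx_smul, cx_self, mul_zero, zero_add, cx_bp] at h1
  have h2 : cx b 0 = 0 := by simp [cx]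
  rw [h2] at h1
  have : (en b ^ 2 : ℝ) = 0 := by exact_mod_cast h1
  exact (pow_pos (en_pos hb) 2).ne' this

theorem lam_ne {x : CV d} {b : ℂ × ℂ} (hb : b ≠ 0) (hw : wr x b ≠ 0) :
    cx (hF x b) (dF x b (bp b)) ≠ 0 := by
  intro h0
  apply hw
  set D1 : ℂ × ℂ := (fm1 (row x 0) b, fm1 (row x 1) b) with hD1
  set D2 : ℂ × ℂ := (fm2 (row x 0) b, fm2 (row x 1) b) with hD2
  have hE : (d : ℂ) • hF x b = b.1 • D1 + b.2 • D2 := by
    rw [hF_eq]
    refine Prod.ext ?_ ?_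
    · simp only [Prod.smul_fst, Prod.fst_add, smul_eq_mul, hD1, hD2]
      exact euler _ _
    · simp only [Prod.smul_snd, Prod.snd_add, smul_eq_mul, hD1, hD2]
      exact euler _ _
  have hdF : dF x b (bp b) = (bp b).1 • D1 + (bp b).2 • D2 := rfl
  have hbil : ∀ s t s' t' : ℂ, cx (s • D1 + t • D2) (s' • D1 + t' • D2) =
      (s * t' - t * s') * cx D1 D2 := by
    intro s t s' t'
    unfold cx
    simp only [Prod.fst_add, Prod.snd_add, Prod.smul_fst, Prod.smul_snd, smul_eq_mul]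
    ring
  have h1 : cx ((d : ℂ) • hF x b) (dF x b (bp b)) = cx b (bp b) * cx D1 D2 := by
    rw [hE, hdF, hbil]
    unfold cx; ring
  have h2 : cx ((d : ℂ) • hF x b) (dF x b (bp b)) = 0 := by
    have : cx ((d : ℂ) • hF x b) (dF x b (bp b)) = d * cx (hF x b) (dF x b (bp b)) := by
      unfold cx
      simp only [Prod.smul_fst, Prod.smul_snd, smul_eq_mul]
      ring
    rw [this, h0, mul_zero]
  rw [h2, cx_bp] at h1
  have hb2 : ((en b ^ 2 : ℝ) : ℂ) ≠ 0 := by exact_mod_cast (pow_pos (en_pos hb) 2).ne'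
  have h3 := (mul_eq_zero.1 h1.symm).resolve_left hb2
  rw [wr_eq]
  exact h3

theorem par_mem (hd : 2 ≤ d) {x : CV d} (hx : ND x) {b c : ℂ × ℂ} (hb : b ≠ 0) (hwb : wr x b ≠ 0)
    (hc : c ≠ 0) (hwc : wr x c = 0) (hbc : cx (hF x b) (hF x c) ≠ 0) :
    ∃ (lam : ℂ) (K₀ : ℝ), ∀ κ : ℂ, K₀ ≤ ‖κ‖ → mm (hF x b) b lam κ ∈ NH x := by
  set a : ℂ × ℂ := hF x b with ha_def
  have ha : a ≠ 0 := fun h => hb (hx b h)
  set l : ℂ := cx a (dF x b (bp b)) with hl_def
  have hl : l ≠ 0 := lam_ne hb hwb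
  have ha2 : ((en a ^ 2 : ℝ) : ℂ) ≠ 0 := by exact_mod_cast (pow_pos (en_pos ha) 2).ne'
  set A : ℂ → ℂ := fun z => ip a (hF x (b + z • bp b)) with hA
  set B : ℂ → ℂ := fun z => cx a (hF x (b + z • bp b)) with hB
  have hAd : Differentiable ℂ A := fun z => (ip_deriv x a b (bp b) z).differentiableAt
  have hBd : Differentiable ℂ B := fun z => (cx_deriv x a b (bp b) z).differentiableAt
  have hA0 : A 0 = ((en a ^ 2 : ℝ) : ℂ) := by
    simp only [hA]
    rw [zero_smul, add_zero, ← ha_def, ip_self]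
  have hB0 : B 0 = 0 := by
    simp only [hB]
    rw [zero_smul, add_zero, ← ha_def, cx_self]
  have hBl : deriv B 0 = l := by
    have := (cx_deriv x a b (bp b) 0).deriv
    rw [zero_smul, add_zero] at this
    exact this
  obtain ⟨k, r, K, L, hr, hK, hL, h1, h2, h3, h4⟩ := local_par hAd hBd hB0 hl hBl
    (by rw [hA0]; exact ha2)
  set lam : ℂ := l / A 0 with hlam
  have hlam0 : lam ≠ 0 := div_ne_zero hl (by rw [hA0]; exact ha2)
  set R : ℝ := max (2 / r) (max (2 * L) 1) with hR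
  have hR1 : 1 ≤ R := (le_max_right _ _).trans (le_max_right _ _)
  have hRL : 2 * L ≤ R := (le_max_left _ _).trans (le_max_right _ _)
  have hRr : 2 / r ≤ R := le_max_left _ _
  have hRp : 0 < R := by linarith
  set τ : ℂ := lam * (ip a (hF x c) / cx a (hF x c)) with hτ
  set K₀ : ℝ := max (8 * R) (max (8 * K + 1) (4 * ‖τ‖)) with hK₀
  refine ⟨lam, K₀, fun κ hκ => ?_⟩
  have hκR : 8 * R ≤ ‖κ‖ := (le_max_left _ _).trans hκ
  have hκK : 8 * K + 1 ≤ ‖κ‖ := ((le_max_left _ _).trans (le_max_right _ _)).trans hκ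
  have hκτ : 4 * ‖τ‖ ≤ ‖κ‖ := ((le_max_right _ _).trans (le_max_right _ _)).trans hκ
  set m := mm a b lam κ with hm
  have hmd : dt m ≠ 0 := dt_mm ha hb hlam0 κ
  have hinv : ∀ W : ℂ, R ≤ ‖W‖ → W ≠ 0 ∧ ‖W⁻¹‖ < r ∧ W⁻¹ ≠ 0 := by
    intro W hW
    have hWp : 0 < ‖W‖ := by linarith
    have hW0 : W ≠ 0 := norm_pos_iff.1 hWp
    refine ⟨hW0, ?_, inv_ne_zero hW0⟩
    rw [norm_inv]
    have h5 : 2 / r ≤ ‖W‖ := hRr.trans hW
    rw [div_le_iff₀ hr] at h5
    rw [inv_lt_iff_one_lt_mul₀ hWp]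
    nlinarith
  -- the value at large points
  have hval : ∀ W : ℂ, R ≤ ‖W‖ → app m (hF x (W • b + bp b)) =
      (W ^ d * B W⁻¹) • ((W + κ + k W⁻¹) • b + bp b) := by
    intro W hW
    obtain ⟨hW0, hWr, hWi⟩ := hinv W hW
    have e1 : W • b + bp b = W • (b + W⁻¹ • bp b) := by
      rw [smul_add, smul_smul, mul_inv_cancel₀ hW0, one_smul]
    obtain ⟨h5, h6⟩ := h1 _ hWr hWi
    rw [inv_inv] at h6
    rw [e1, hF_scale, hm, app_mm, cx_smul, ip_smul]
    have e2 : κ * (W ^ d * cx a (hF x (b + W⁻¹ • bp b))) +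
        lam * (W ^ d * ip a (hF x (b + W⁻¹ • bp b))) =
        (W ^ d * B W⁻¹) * (W + κ + k W⁻¹) := by
      have h7 : lam * A W⁻¹ = (W + k W⁻¹) * B W⁻¹ := by
        rw [← h6, mul_assoc, div_mul_cancel₀ _ h5]
      show κ * (W ^ d * B W⁻¹) + lam * (W ^ d * A W⁻¹) = _
      linear_combination W ^ d * h7
    rw [e2, smul_add, smul_smul]
  set G : Sph → Sph := fun s => (ci hb).symm (sp (cm m x) (ci hb s)) with hG
  have hGat : ∀ p : Sph, ¬ Att G ((ci hb).symm p) → ¬ Att (sp (cm m x)) p := by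
    intro p hp ha
    exact hp (att_conj (ci hb).symm ha)
  have hT : Tl G κ R (fun W => k W⁻¹) := by
    refine ⟨hRp, hκR, fun W hW => ?_, fun W hW => ?_, fun W W' hW hW' => ?_⟩
    · obtain ⟨hW0, hWr, hWi⟩ := hinv W hW
      simp only [hG]
      rw [ci_coe, sp_app hx hmd (ne_comb hb W), hval W hW,
        pr_smul (mul_ne_zero (pow_ne_zero _ hW0) (h1 _ hWr hWi).1), ← ci_coe hb,
        Homeomorph.symm_apply_apply]
    · obtain ⟨hW0, hWr, hWi⟩ := hinv W hW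
      have := h2 _ hWr
      linarith
    · obtain ⟨hW0, hWr, hWi⟩ := hinv W hW
      obtain ⟨hW0', hWr', hWi'⟩ := hinv W' hW'
      refine (h3 _ _ hWr hWr').trans ?_
      have e1 : W⁻¹ - W'⁻¹ = (W' - W) / (W * W') := by field_simp
      rw [e1, norm_div, norm_mul, norm_sub_rev]
      have h5 : R * 1 ≤ ‖W‖ * ‖W'‖ := mul_le_mul hW (hR1.trans hW') zero_le_one (norm_nonneg _)
      have h6 : 0 < ‖W‖ * ‖W'‖ := by nlinarith
      rw [mul_div_assoc', div_le_iff₀ h6]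
      have h7 : L ≤ 1 / 2 * (‖W‖ * ‖W'‖) := by linarith
      have h8 := mul_le_mul_of_nonneg_right h7 (norm_nonneg (W - W'))
      linarith
  -- a fixed point
  obtain ⟨y, hy⟩ : ∃ y : ℂ, cx (y • b + bp b) (app m (hF x (y • b + bp b))) = 0 := by
    have hFd : Differentiable ℂ fun W : ℂ => hF x (W • b + bp b) := by
      have h5 : Differentiable ℂ (hF x) := by
        have := hF_iter_differentiable d 1
        simp only [Function.iterate_one] at this
        exact this.comp (differentiable_const x |>.prodMk differentiable_id)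
      exact h5.comp (by fun_prop)
    have hΨ : Differentiable ℂ fun W : ℂ => cx (W • b + bp b) (app m (hF x (W • b + bp b))) := by
      have h6 := hFd.fst
      have h7 := hFd.snd
      unfold cx app
      simp only [Prod.fst_add, Prod.snd_add, Prod.smul_fst, Prod.smul_snd, smul_eq_mul]
      fun_prop
    have hbp := en_pos hb
    have hlp : 0 < ‖l‖ := norm_pos_iff.2 hl
    refine exists_zero hΨ (c := ‖l‖ / 2 * (1 / 2) * en b ^ 2) (R := R) (by positivity)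
      fun W hW => ?_
    obtain ⟨hW0, hWr, hWi⟩ := hinv W hW
    have hW1 : 1 ≤ ‖W‖ := hR1.trans hW
    rw [hval W hW, cx_smul]
    have e1 : cx (W • b + bp b) ((W + κ + k W⁻¹) • b + bp b) =
        -(κ + k W⁻¹) * cx b (bp b) := by
      unfold cx
      simp only [Prod.fst_add, Prod.snd_add, Prod.smul_fst, Prod.smul_snd, smul_eq_mul]
      ring
    rw [e1, cx_bp, norm_mul, norm_mul, norm_mul, norm_pow, norm_neg, Complex.norm_real,
      Real.norm_eq_abs, abs_of_pos (pow_pos hbp 2)]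
    have h5 := h4 _ hWr
    rw [norm_inv] at h5
    have h6 : 1 / 2 ≤ ‖κ + k W⁻¹‖ := by
      have h7 := norm_sub_norm_le κ (-k W⁻¹)
      rw [norm_neg, sub_neg_eq_add] at h7
      have h8 := h2 _ hWr
      linarith
    have h7 : ‖W‖ * (‖l‖ / 2) ≤ ‖W‖ ^ d * ‖B W⁻¹‖ := by
      have h8 : ‖W‖ ^ 2 ≤ ‖W‖ ^ d := pow_le_pow_right₀ hW1 hd
      calc ‖W‖ * (‖l‖ / 2) = ‖W‖ ^ 2 * (‖l‖ / 2 * ‖W‖⁻¹) := by
            have : ‖W‖ ≠ 0 := by positivity
            field_simp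
        _ ≤ ‖W‖ ^ d * ‖B W⁻¹‖ := mul_le_mul h8 h5 (by positivity) (by positivity)
    calc ‖l‖ / 2 * (1 / 2) * en b ^ 2 * ‖W‖ = (‖W‖ * (‖l‖ / 2)) * (1 / 2 * en b ^ 2) := by ring
      _ ≤ (‖W‖ ^ d * ‖B W⁻¹‖) * (‖κ + k W⁻¹‖ * en b ^ 2) := by gcongr
  have hGy : G (y : Sph) = (y : Sph) := by
    simp only [hG]
    have h5 := ne_comb hb y
    have h6 : app m (hF x (y • b + bp b)) ≠ 0 := app_ne hmd fun h => h5 (hx _ h)
    rw [ci_coe, sp_app hx hmd h5]
    have h7 : pr (app m (hF x (y • b + bp b))) = pr (y • b + bp b) := by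
      rw [pr_eq_iff h6 h5]
      have : cr (app m (hF x (y • b + bp b))) (y • b + bp b) =
          - cx (y • b + bp b) (app m (hF x (y • b + bp b))) := by unfold cr cx; ring
      rw [this, hy, neg_zero]
    rw [h7, ← ci_coe hb, Homeomorph.symm_apply_apply]
  have hGc : G ((ci hb).symm (pr c)) = ((κ + τ : ℂ) : Sph) := by
    simp only [hG]
    rw [Homeomorph.apply_symm_apply, sp_app hx hmd hc, hm, app_mm, pr_comb hb hbc,
      Homeomorph.symm_apply_apply]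
    congr 1
    rw [hτ]
    field_simp
  have hnot := hT.not_att hGc (by linarith) hGy
  refine ⟨hmd, fun hhyp => ?_⟩
  refine hGat _ hnot (hhyp (pr c) ?_)
  have hw : wr (cm m x) c = 0 := by rw [wr_cm, hwc, mul_zero]
  exact crit_top hd (nd_cm hmd hx) hc hw

theorem NH_smul {x : CV d} {m : (ℂ × ℂ) × (ℂ × ℂ)} {t : ℂ} (ht : t ≠ 0) (hm : m ∈ NH x) :
    t • m ∈ NH x := by
  refine ⟨?_, ?_⟩
  · rw [dt_smul]; exact mul_ne_zero (pow_ne_zero _ ht) hm.1
  · rw [sp_cm_smul ht]; exact hm.2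

theorem par_lim (hd : 2 ≤ d) {x : CV d} (hx : ND x) {b c : ℂ × ℂ} (hb : b ≠ 0) (hwb : wr x b ≠ 0)
    (hc : c ≠ 0) (hwc : wr x c = 0) (hbc : cx (hF x b) (hF x c) ≠ 0) :
    rk (hF x b) b ∈ closure (NH x) := by
  obtain ⟨lam, K₀, h⟩ := par_mem hd hx hb hwb hc hwc hbc
  obtain ⟨N, hN⟩ := exists_nat_gt K₀
  have ht : Tendsto (fun n : ℕ => ((n : ℂ))⁻¹ • mm (hF x b) b lam n) atTop
      (𝓝 (rk (hF x b) b)) := by
    have h1 : Tendsto (fun n : ℕ => rk (hF x b) b + ((n : ℂ))⁻¹ • mm (hF x b) b lam 0) atTop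
        (𝓝 (rk (hF x b) b + (0 : ℂ) • mm (hF x b) b lam 0)) := by
      refine tendsto_const_nhds.add (Tendsto.smul_const ?_ _)
      exact tendsto_inv₀_cobounded.comp tendsto_natCast_atTop_cobounded
    rw [zero_smul, add_zero] at h1
    refine h1.congr' ?_
    filter_upwards [eventually_ge_atTop 1] with n hn
    have hn0 : (n : ℂ) ≠ 0 := by exact_mod_cast (by omega : n ≠ 0)
    rw [mm_eq _ _ _ (n : ℂ), smul_add, smul_smul, inv_mul_cancel₀ hn0, one_smul]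
  refine mem_closure_of_tendsto ht ?_
  filter_upwards [eventually_ge_atTop (max N 1)] with n hn
  have hn1 : 1 ≤ n := (le_max_right _ _).trans hn
  have hnN : N ≤ n := (le_max_left _ _).trans hn
  have hn0 : (n : ℂ) ≠ 0 := by exact_mod_cast (by omega : n ≠ 0)
  refine NH_smul (inv_ne_zero hn0) (h n ?_)
  rw [Complex.norm_natCast]
  have : (N : ℝ) ≤ n := by exact_mod_cast hnN
  linarith

end Run7.h964.CS
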