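import Mathlib
import Pool.Agent.Run7.h964.CS.K
import Pool.Agent.Run7.h964.CS.F

/-! A point whose orbit ends in a repelling fixed point is not attracted; fibres are countable. -/

set_option autoImplicit false

open Topology Filter Metric Set MeasureTheory
open Pool.Agent.H790R3.RB Pool.Agent.R239.Fat
open Pool.Agent.H790R3.RB.SP (pr_zero pr_ne pr_hc sp_pr sp_cont pr_eq_iff continuousAt_pr)

namespace Run7.h964.CS

open Run7.h964.FM

variable {d : ℕ}

theorem iter_fibre {G : Sph → Sph} (hG : ∀ t : Sph, {s | G s = t}.Countable) (m : ℕ) (t : Sph) :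
    {s | G^[m] s = t}.Countable := by
  induction m generalizing t with
  | zero => exact (countable_singleton t).mono fun s hs => hs
  | succ m ih =>
    have h : {s | G^[m + 1] s = t} = ⋃ u ∈ {u | G^[m] u = t}, {s | G s = u} := by
      ext s
      simp [Function.iterate_succ_apply]
    rw [h]
    exact (ih t).biUnion fun u _ => hG u

theorem rep_not_att {G : Sph → Sph} (hGc : Continuous G) (hG : ∀ t : Sph, {s | G s = t}.Countable)
    {η : ℂ} (hfix : G (η : Sph) = (η : Sph)) {T : ℂ → ℂ} {r q : ℝ} (hr : 0 < r) (hq : 1 < q)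
    (hT : ∀ z : ℂ, ‖z - η‖ < r → G (z : Sph) = (T z : Sph) ∧ q * ‖z - η‖ ≤ ‖T z - η‖)
    {c : Sph} {j : ℕ} (hc : G^[j] c = (η : Sph)) : ¬ Att G c := by
  rintro ⟨z, n, hn, -, ⟨U, hU, hU2⟩, ht⟩
  have hfixn : ∀ m : ℕ, G^[m] (η : Sph) = (η : Sph) := by
    intro m
    induction m with
    | zero => rfl
    | succ m ih => rw [Function.iterate_succ_apply', ih, hfix]
  have hz : z = (η : Sph) := by
    refine tendsto_nhds_unique ht (tendsto_const_nhds.congr' ?_)
    filter_upwards [eventually_ge_atTop j] with k hk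
    obtain ⟨m, hm⟩ := Nat.exists_eq_add_of_le (hk.trans (Nat.le_mul_of_pos_left k hn))
    rw [hm, add_comm, Function.iterate_add_apply, hc, hfixn]
  subst hz
  -- every orbit starting in `U` converges to `η`
  have hall : ∀ w ∈ U, Tendsto (fun m : ℕ => G^[m] w) atTop (𝓝 (η : Sph)) := by
    intro w hw
    have h1 : ∀ i : ℕ, Tendsto (fun k : ℕ => G^[n * k + i] w) atTop (𝓝 (η : Sph)) := by
      intro i
      have h2 : Tendsto (fun k : ℕ => G^[i] (G^[n * k] w)) atTop (𝓝 (G^[i] (η : Sph))) :=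
        ((hGc.iterate i).tendsto _).comp (hU2 w hw)
      rw [hfixn] at h2
      refine h2.congr fun k => ?_
      rw [← Function.iterate_add_apply, add_comm]
    intro V hV
    have h3 : ∀ᶠ k : ℕ in atTop, ∀ i ∈ Finset.range n, G^[n * k + i] w ∈ V := by
      rw [Filter.eventually_all_finset]
      exact fun i _ => h1 i hV
    obtain ⟨N, hN⟩ := eventually_atTop.1 h3
    refine Filter.mem_map.2 (mem_atTop_sets.2 ⟨n * N, fun m hm => ?_⟩)
    have h4 := Nat.div_add_mod m n
    have h5 : N ≤ m / n := by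
      rw [Nat.le_div_iff_mul_le hn]; linarith
    have h6 := hN (m / n) h5 (m % n) (Finset.mem_range.2 (Nat.mod_lt _ hn))
    rw [h4] at h6
    exact h6
  -- such orbits end in `η`
  have hend : ∀ w ∈ U, ∃ m : ℕ, G^[m] w = (η : Sph) := by
    intro w hw
    have hV : (fun z : ℂ => (z : Sph)) '' ball η r ∈ 𝓝 (η : Sph) := nhds_coe (ball_mem_nhds η hr)
    obtain ⟨N, hN⟩ := eventually_atTop.1 (hall w hw hV)
    refine ⟨N, ?_⟩
    obtain ⟨w₀, hw₀, hw₀e⟩ := hN N le_rfl
    by_cases h0 : w₀ = η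
    · rw [← h0]; exact hw₀e.symm
    exfalso
    have hpos : 0 < ‖w₀ - η‖ := norm_pos_iff.2 (sub_ne_zero.2 h0)
    have hgrow : ∀ k : ℕ, ∃ w₁ : ℂ, ‖w₁ - η‖ < r ∧ G^[N + k] w = (w₁ : Sph) ∧
        q ^ k * ‖w₀ - η‖ ≤ ‖w₁ - η‖ := by
      intro k
      induction k with
      | zero =>
        refine ⟨w₀, by rw [← dist_eq_norm]; exact hw₀, hw₀e.symm, by simp⟩
      | succ k ih =>
        obtain ⟨w₁, h1, h2, h3⟩ := ih
        obtain ⟨h4, h5⟩ := hT w₁ h1
        obtain ⟨w₂, h6, h7⟩ := hN (N + (k + 1)) (by omega)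
        have h8 : G^[N + (k + 1)] w = (T w₁ : Sph) := by
          rw [← add_assoc, Function.iterate_succ_apply', h2, h4]
        have h9 : w₂ = T w₁ := by
          exact OnePoint.coe_injective (h7.trans h8)
        refine ⟨T w₁, ?_, h8, ?_⟩
        · rw [← h9, ← dist_eq_norm]; exact h6
        · calc q ^ (k + 1) * ‖w₀ - η‖ = q * (q ^ k * ‖w₀ - η‖) := by ring
            _ ≤ q * ‖w₁ - η‖ := by gcongr
            _ ≤ _ := h5
    obtain ⟨k, hk⟩ := pow_unbounded_of_one_lt (r / ‖w₀ - η‖) hq
    obtain ⟨w₁, h1, -, h3⟩ := hgrow k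
    rw [div_lt_iff₀ hpos] at hk
    linarith
  -- but only countably many points do
  have hcount : (⋃ m : ℕ, {s : Sph | G^[m] s = (η : Sph)}).Countable :=
    countable_iUnion fun m => iter_fibre hG m _
  have hcount2 : {z : ℂ | (z : Sph) ∈ U}.Countable := by
    refine (hcount.preimage OnePoint.coe_injective).mono fun z hz => ?_
    obtain ⟨m, hm⟩ := hend _ hz
    exact mem_iUnion.2 ⟨m, hm⟩
  have hnhd : {z : ℂ | (z : Sph) ∈ U} ∈ 𝓝 η :=
    OnePoint.continuous_coe.continuousAt.preimage_mem_nhds hU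
  have hpos := Measure.measure_pos_of_mem_nhds (volume : Measure ℂ) hnhd
  exact hpos.ne' (hcount2.measure_zero volume)

open Polynomial in
/-- fibres of rational maps are countable -/
theorem sp_fibre (hd : 1 ≤ d) {y : CV d} (hy : ND y) (t : Sph) : {s | sp y s = t}.Countable := by
  obtain ⟨ht1, ht2⟩ := pr_hc t
  set q := hc t with hq
  set p : ℂ[X] := C q.1 * pol y 1 - C q.2 * pol y 0 with hp
  have hev : ∀ z : ℂ, p.eval z = cx q (hF y (z, 1)) := by
    intro z
    rw [hp]
    simp only [eval_sub, eval_mul, eval_C, cx, hF, pol, eval_finsetSum, eval_monomial, one_pow,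
      mul_one]
  have hp0 : p ≠ 0 := by
    intro h0
    obtain ⟨z, hz⟩ := nd_NC hd hy
    apply hz
    -- the combination of the rows vanishes
    have hrow : q.1 • row y 1 - q.2 • row y 0 = 0 := by
      funext j
      have h1 := congrArg (fun P : ℂ[X] => P.coeff (j : ℕ)) h0
      simp only [hp, coeff_sub, coeff_C_mul, coeff_zero] at h1
      have h2 : ∀ i : Fin 2, (pol y i).coeff (j : ℕ) = y (i, j) := fun i =>
        Pool.Agent.H790R3.RB.PQ.pol_coeff y i j
      rw [h2, h2] at h1
      simpa [row] using h1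
    have h1 : ∀ e : ℂ × ℂ, cx q (fm1 (row y 0) e, fm1 (row y 1) e) = 0 := by
      intro e
      have : cx q (fm1 (row y 0) e, fm1 (row y 1) e) = fm1 (q.1 • row y 1 - q.2 • row y 0) e := by
        rw [fm1_sub, fm1_smul, fm1_smul]; rfl
      rw [this, hrow]
      simp [fm1]
    have h2 : ∀ e : ℂ × ℂ, cx q (fm2 (row y 0) e, fm2 (row y 1) e) = 0 := by
      intro e
      have : cx q (fm2 (row y 0) e, fm2 (row y 1) e) = fm2 (q.1 • row y 1 - q.2 • row y 0) e := by
        rw [fm2_sub, fm2_smul, fm2_smul]; rfl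
      rw [this, hrow]
      simp [fm2]
    rw [wr_eq]
    have h3 : ∀ u v : ℂ × ℂ, cx q u = 0 → cx q v = 0 → cx u v = 0 := by
      intro u v hu hv
      have e1 : q.1 * cx u v = 0 := by
        unfold cx at hu hv ⊢
        linear_combination u.1 * hv - v.1 * hu
      have e2 : q.2 * cx u v = 0 := by
        unfold cx at hu hv ⊢
        linear_combination u.2 * hv - v.2 * hu
      rcases mul_eq_zero.1 e1 with h | h
      · rcases mul_eq_zero.1 e2 with h' | h'
        · exact absurd (Prod.ext h h') ht2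
        · exact h'
      · exact h
    exact h3 _ _ (h1 _) (h2 _)
  have hsub : {s : Sph | sp y s = t} ⊆ insert OnePoint.infty
      ((fun z : ℂ => (z : Sph)) '' (p.roots.toFinset : Set ℂ)) := by
    intro s hs
    induction s using OnePoint.rec with
    | infty => exact mem_insert _ _
    | coe z =>
      refine mem_insert_of_mem _ ⟨z, ?_, rfl⟩
      rw [Finset.mem_coe, Multiset.mem_toFinset, mem_roots hp0, IsRoot, hev]
      have h1 : sp y (z : Sph) = pr (hF y (z, 1)) := rfl
      have h2 : hF y ((z, 1) : ℂ × ℂ) ≠ 0 := fun h => coe_ne z (hy _ h)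
      have h3 : pr (hF y ((z, 1) : ℂ × ℂ)) = pr q := by
        rw [← h1]
        exact (hs : sp y (z : Sph) = t).trans ht1.symm
      rw [pr_eq_iff h2 ht2] at h3
      have : cx q (hF y (z, 1)) = - cr (hF y (z, 1)) q := by unfold cx cr; ring
      rw [this, h3, neg_zero]
  exact ((p.roots.toFinset.finite_toSet.image _).countable.insert _).mono hsub

end Run7.h964.CS
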