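import Mathlib
import Pool.Agent.Run7.h964.CS.L
import Pool.Agent.Run7.h964.CS.M

/-! Near the matrix `rk (F c) b`, `c` a critical point, there are matrices `m` such that `m ∘ F` maps
the critical point `c` in two steps to a repelling fixed point. -/

set_option autoImplicit false

open Topology Filter Metric Set MeasureTheory
open Pool.Agent.H790R3.RB Pool.Agent.R239.Fat
open Pool.Agent.H790R3.RB.SP (pr_zero pr_ne pr_hc sp_pr sp_cont pr_eq_iff continuousAt_pr)

namespace Run7.h964.CS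

open Run7.h964.FM

variable {d : ℕ}

theorem pr_c0 {c v : ℂ × ℂ} (hc : c ≠ 0) (hv : ip c v ≠ 0) :
    pr v = c0 hc ((cx c v / ip c v : ℂ) : Sph) := by
  rw [c0_coe]
  have h1 := inD_eq hc hv
  rw [ip_bp] at h1
  set k := ip c v / ((en c ^ 2 : ℝ) : ℂ) with hk
  have hk0 : k ≠ 0 := div_ne_zero hv (by exact_mod_cast (pow_pos (en_pos hc) 2).ne')
  conv_lhs => rw [h1]
  rw [pr_smul hk0]

theorem expanding {T : ℂ → ℂ} {η μ : ℂ} (hT : HasDerivAt T μ η) (hTη : T η = η) (hμ : 1 < ‖μ‖) :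
    ∃ q : ℝ, 1 < q ∧ ∀ᶠ z in 𝓝 η, q * ‖z - η‖ ≤ ‖T z - η‖ := by
  refine ⟨(1 + ‖μ‖) / 2, by linarith, ?_⟩
  have h1 := (hasDerivAt_iff_isLittleO.1 hT).def (c := (‖μ‖ - 1) / 2) (by linarith)
  filter_upwards [h1] with z hz
  rw [hTη] at hz
  have h2 := norm_sub_norm_le ((z - η) • μ) (-(T z - η - (z - η) • μ))
  have e : (z - η) • μ - -(T z - η - (z - η) • μ) = T z - η := by ring
  rw [e, norm_neg, norm_smul] at h2
  nlinarith [norm_nonneg (z - η)]

theorem cv_one (hd : 2 ≤ d) {x : CV d} (hx : ND x) {b c : ℂ × ℂ} (hc : c ≠ 0)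
    (hwc : wr x c = 0) {ξ η : ℂ} (hξ : ip (hF x c) (hF x (c + ξ • bp c)) ≠ 0)
    (hη : ip (hF x c) (hF x (c + η • bp c)) ≠ 0) (hξη : ξ ≠ η) (hν : nu x c ξ = nu x c η)
    (hN : nu x c η ≠ 0) (hbξ : cx b (c + ξ • bp c) ≠ 0) (hbη : cx b (c + η • bp c) ≠ 0)
    (hmul : 1 < ‖deriv (nu x c) η * ((η - ξ) / nu x c η) *
      (cx b (c + η • bp c) / cx b (c + ξ • bp c))‖) {θ : ℂ}
    (hθ : θ * ((ξ - η) * ((en c ^ 2 : ℝ) : ℂ)) = nu x c η * cx b (c + η • bp c)) :
    rk (hF x c) b - θ • rk (bp (hF x c)) (c + ξ • bp c) ∈ NH x := by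
  set u : ℂ × ℂ := hF x c with hu_def
  have hu : u ≠ 0 := fun h => hc (hx c h)
  set cξ : ℂ × ℂ := c + ξ • bp c with hcξ
  set cη : ℂ × ℂ := c + η • bp c with hcη
  set N : ℂ := nu x c η with hN_def
  set E : ℂ := ((en c ^ 2 : ℝ) : ℂ) with hE
  have hE0 : E ≠ 0 := by rw [hE]; exact_mod_cast (pow_pos (en_pos hc) 2).ne'
  set U2 : ℂ := ((en u ^ 2 : ℝ) : ℂ) with hU2
  have hU0 : U2 ≠ 0 := by rw [hU2]; exact_mod_cast (pow_pos (en_pos hu) 2).ne'
  have hdif : ξ - η ≠ 0 := sub_ne_zero.2 hξη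
  have hθ0 : θ ≠ 0 := by
    rintro rfl
    rw [zero_mul] at hθ
    exact mul_ne_zero hN hbη hθ.symm
  -- elementary products
  have hbc : cx b (bp c) = ip c b := by unfold cx bp ip; ring
  have p1 : cx b cξ = -cx c b + ξ * ip c b := by
    rw [hcξ, cx_add, cx_smul, hbc, cx_swap b c]
  have p2 : cx b cη = -cx c b + η * ip c b := by
    rw [hcη, cx_add, cx_smul, hbc, cx_swap b c]
  have p3 : cx c cξ = ξ * E := by rw [hcξ, cx_add, cx_smul, cx_self, cx_bp, zero_add]
  have hipc : ip c (bp c) = 0 := by unfold ip bp; simp only [Complex.star_def]; ring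
  have p4 : ip c cξ = E := by rw [hcξ, ip_add, ip_smul, ip_self, hipc, mul_zero, add_zero]
  set m := rk u b - θ • rk (bp u) cξ with hm
  have happ : ∀ w : ℂ × ℂ, app m w = cx u w • b - (θ * cx (bp u) w) • cξ := by
    intro w
    have e1 : app m w = app (rk u b) w - θ • app (rk (bp u) cξ) w := by
      rw [hm]
      refine Prod.ext ?_ ?_
      · simp only [app, Prod.fst_sub, Prod.snd_sub, Prod.smul_fst, Prod.smul_snd, smul_eq_mul]; ring
      · simp only [app, Prod.fst_sub, Prod.snd_sub, Prod.smul_fst, Prod.smul_snd, smul_eq_mul]; ring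
    rw [e1, app_rk, app_rk, smul_smul]
  have huz : ∀ z : ℂ, app m (u + z • bp u) = U2 • (z • b + θ • cξ) := by
    intro z
    have q1 : cx u (u + z • bp u) = z * U2 := by rw [cx_add, cx_smul, cx_self, cx_bp, zero_add]
    have q2 : cx (bp u) (u + z • bp u) = -U2 := by
      rw [cx_add, cx_smul, cx_self, cx_swap (bp u) u, cx_bp, mul_zero, add_zero]
    rw [happ, q1, q2]
    module
  have hmu : app m u = (U2 * θ) • cξ := by
    have := huz 0
    rw [zero_smul, zero_smul, add_zero, zero_add, smul_smul] at this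
    exact this
  have hmd : dt m ≠ 0 := by
    intro h0
    have h1 := dt_app m u (u + N • bp u)
    rw [h0, zero_mul, hmu, huz] at h1
    have h2 : cx ((U2 * θ) • cξ) (U2 • (N • b + θ • cξ)) = -(U2 * θ * U2 * N) * cx b cξ := by
      unfold cx
      simp only [Prod.fst_add, Prod.snd_add, Prod.smul_fst, Prod.smul_snd, smul_eq_mul]
      ring
    rw [h2] at h1
    exact mul_ne_zero (neg_ne_zero.2 (mul_ne_zero (mul_ne_zero (mul_ne_zero hU0 hθ0) hU0) hN))
      hbξ h1
  set D : ℂ → ℂ := fun z => z * ip c b + θ * E with hD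
  set Z : ℂ → ℂ := fun z => (z * cx c b + θ * (ξ * E)) / D z with hZ
  have hpt : ∀ z : ℂ, D z ≠ 0 → pr (z • b + θ • cξ) = c0 hc ((Z z : ℂ) : Sph) := by
    intro z hz
    have e1 : ip c (z • b + θ • cξ) = D z := by rw [ip_add, ip_smul, ip_smul, p4]
    have e2 : cx c (z • b + θ • cξ) = z * cx c b + θ * (ξ * E) := by
      rw [cx_add, cx_smul, cx_smul, p3]
    rw [pr_c0 hc (by rw [e1]; exact hz), e1, e2]
  have hDN : (ξ - η) * D N = N * cx b cξ := by
    simp only [hD]
    rw [p1]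
    rw [p2] at hθ
    linear_combination hθ
  have hDN0 : D N ≠ 0 := by
    intro h0
    rw [h0, mul_zero] at hDN
    exact mul_ne_zero hN hbξ hDN.symm
  have hZN : Z N = η := by
    simp only [hZ]
    rw [div_eq_iff hDN0]
    have h1 : (ξ - η) * (N * cx c b + θ * (ξ * E)) = (ξ - η) * (η * D N) := by
      rw [p1] at hDN
      rw [p2] at hθ
      linear_combination ξ * hθ - η * hDN
    exact mul_left_cancel₀ hdif h1
  set G : Sph → Sph := fun s => (c0 hc).symm (sp (cm m x) (c0 hc s)) with hG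
  have hval : ∀ z : ℂ, ip u (hF x (c + z • bp c)) ≠ 0 → D (nu x c z) ≠ 0 →
      G (z : Sph) = ((Z (nu x c z) : ℂ) : Sph) := by
    intro z hz hz2
    simp only [hG]
    rw [c0_coe, sp_app hx hmd (add_bp_ne hc z), hF_nu hu hz, ← hu_def]
    set k := ip u (hF x (c + z • bp c)) / ((en u ^ 2 : ℝ) : ℂ) with hk
    have hk0 : k ≠ 0 := div_ne_zero hz hU0
    have e1 : app m (k • (u + nu x c z • bp u)) = (k * U2) • (nu x c z • b + θ • cξ) := by
      have : app m (k • (u + nu x c z • bp u)) = k • app m (u + nu x c z • bp u) := by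
        refine Prod.ext ?_ ?_
        · simp only [app, Prod.smul_fst, Prod.smul_snd, smul_eq_mul]; ring
        · simp only [app, Prod.smul_fst, Prod.smul_snd, smul_eq_mul]; ring
      rw [this, huz, smul_smul]
    rw [e1, pr_smul (mul_ne_zero hk0 hU0), hpt _ hz2, Homeomorph.symm_apply_apply]
  have hGη : G (η : Sph) = (η : Sph) := by
    rw [hval η hη (by rw [← hN_def]; exact hDN0), ← hN_def, hZN]
  have hGξ : G (ξ : Sph) = (η : Sph) := by
    rw [hval ξ hξ (by rw [hν]; exact hDN0), hν, hZN]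
  have hGc : G ((c0 hc).symm (pr c)) = (ξ : Sph) := by
    simp only [hG]
    rw [Homeomorph.apply_symm_apply, sp_app hx hmd hc, ← hu_def, hmu,
      pr_smul (mul_ne_zero hU0 hθ0), ← c0_coe hc, Homeomorph.symm_apply_apply]
  have hGcont : Continuous G := by
    have h1 : Continuous (sp (cm m x)) := sp_cont (nd_cm hmd hx)
    exact (c0 hc).symm.continuous.comp (h1.comp (c0 hc).continuous)
  have hGfib : ∀ t : Sph, {s | G s = t}.Countable := by
    intro t
    have h1 := sp_fibre (by omega : 1 ≤ d) (nd_cm hmd hx) (c0 hc t)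
    refine (h1.preimage (c0 hc).injective).mono fun s hs => ?_
    have hs' : G s = t := hs
    simp only [hG] at hs'
    show sp (cm m x) (c0 hc s) = c0 hc t
    rw [← hs', Homeomorph.apply_symm_apply]
  -- the multiplier
  set T : ℂ → ℂ := fun z => Z (nu x c z) with hT
  have hνd : HasDerivAt (nu x c) (deriv (nu x c) η) η := (nu_deriv hη).differentiableAt.hasDerivAt
  have hZd : HasDerivAt Z ((cx c b * D N - (N * cx c b + θ * (ξ * E)) * ip c b) / D N ^ 2) N := by
    have h1 : HasDerivAt (fun z : ℂ => z * cx c b + θ * (ξ * E)) (cx c b) N := by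
      simpa using ((hasDerivAt_id N).mul_const (cx c b)).add_const (θ * (ξ * E))
    have h2 : HasDerivAt D (ip c b) N :=
      (((hasDerivAt_id N).mul_const (ip c b)).add_const (θ * E)).congr_deriv (one_mul _)
    exact h1.div h2 hDN0
  have hTd : HasDerivAt T (deriv (nu x c) η * ((η - ξ) / N) * (cx b cη / cx b cξ)) η := by
    have h1 := HasDerivAt.comp η (by rw [← hN_def]; exact hZd) hνd
    refine h1.congr_deriv ?_
    have h2 : (cx c b * D N - (N * cx c b + θ * (ξ * E)) * ip c b) / D N ^ 2 =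
        (η - ξ) / N * (cx b cη / cx b cξ) := by
      have h3 : D N = N * cx b cξ / (ξ - η) := by
        rw [eq_div_iff hdif, mul_comm]; exact hDN
      have h4 : cx c b * D N - (N * cx c b + θ * (ξ * E)) * ip c b = -(θ * E) * cx b cξ := by
        simp only [hD]
        rw [p1]
        ring
      have h5 : θ * E = N * cx b cη / (ξ - η) := by
        rw [eq_div_iff hdif]
        linear_combination hθ
      rw [h4, h3, h5]
      have h6 : η - ξ = -(ξ - η) := by ring
      rw [h6]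
      field_simp
    rw [h2]
    ring
  have hTη : T η = η := by
    simp only [hT]
    rw [← hN_def, hZN]
  obtain ⟨q, hq, hexp⟩ := expanding hTd hTη hmul
  have hev1 : ∀ᶠ z in 𝓝 η, ip u (hF x (c + z • bp c)) ≠ 0 :=
    (ip_deriv x u c (bp c) η).continuousAt.eventually_ne hη
  have hev2 : ∀ᶠ z in 𝓝 η, D (nu x c z) ≠ 0 := by
    have h1 : ContinuousAt (fun z => D (nu x c z)) η := by
      simp only [hD]
      exact (hνd.continuousAt.mul_const _).add_const _
    exact h1.eventually_ne (by rw [← hN_def]; exact hDN0)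
  obtain ⟨r, hr, hall⟩ := Metric.eventually_nhds_iff.1 (hexp.and (hev1.and hev2))
  have hnot : ¬ Att G ((c0 hc).symm (pr c)) := by
    refine rep_not_att hGcont hGfib hGη (T := T) hr hq (fun z hz => ?_) (j := 2) ?_
    · obtain ⟨h1, h2, h3⟩ := hall (y := z) (by rw [dist_eq_norm]; exact hz)
      exact ⟨hval z h2 h3, h1⟩
    · show G (G ((c0 hc).symm (pr c))) = (η : Sph)
      rw [hGc, hGξ]
  refine ⟨hmd, fun hhyp => hnot (att_conj (c0 hc).symm (hhyp (pr c) ?_))⟩
  have hw : wr (cm m x) c = 0 := by rw [wr_cm, hwc, mul_zero]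
  exact crit_top hd (nd_cm hmd hx) hc hw

end Run7.h964.CS
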