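import Mathlib
import Pool.Agent.Run7.h964.CS.N

/-! The limits of the matrices `m` such that `m ∘ F` is not hyperbolic. -/

set_option autoImplicit false

open Topology Filter Metric Set
open Pool.Agent.H790R3.RB Pool.Agent.R239.Fat
open Pool.Agent.H790R3.RB.SP (pr_zero pr_ne pr_hc sp_pr sp_cont pr_eq_iff continuousAt_pr)

namespace Run7.h964.CS

open Run7.h964.FM

variable {d : ℕ}

/-- the map near a critical point is not constant -/
theorem nu_not_zero (hd : 2 ≤ d) {x : CV d} (hx : ND x) {c : ℂ × ℂ} (hc : c ≠ 0) {r : ℝ}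
    (hr : 0 < r) (hdom : ∀ z : ℂ, ‖z‖ < r → ip (hF x c) (hF x (c + z • bp c)) ≠ 0) :
    ∃ z ∈ ball (0 : ℂ) r, nu x c z ≠ 0 := by
  by_contra hcon
  push Not at hcon
  have h1 : {z : ℂ | sp x (c0 hc (z : Sph)) = pr (hF x c)}.Countable := by
    have h2 := sp_fibre (by omega : 1 ≤ d) hx (pr (hF x c))
    exact (h2.preimage ((c0 hc).injective)).preimage OnePoint.coe_injective
  have h3 : ball (0 : ℂ) r ⊆ {z : ℂ | sp x (c0 hc (z : Sph)) = pr (hF x c)} := by
    intro z hz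
    have hz' : ‖z‖ < r := by rwa [mem_ball, dist_zero_right] at hz
    show sp x (c0 hc (z : Sph)) = pr (hF x c)
    rw [c0_coe, sp_nu hx hc (hdom z hz'), hcon z hz, zero_smul, add_zero]
  have hpos := measure_ball_pos (MeasureTheory.volume : MeasureTheory.Measure ℂ) 0 hr
  exact hpos.ne' ((h1.mono h3).measure_zero _)

theorem cv_lim (hd : 2 ≤ d) {x : CV d} (hx : ND x) {b c : ℂ × ℂ} (hc : c ≠ 0)
    (hwc : wr x c = 0) (hbc : cx b c ≠ 0) : rk (hF x c) b ∈ closure (NH x) := by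
  set u : ℂ × ℂ := hF x c with hu
  obtain ⟨r, hr, hdom⟩ := nu_dom hx hc
  have hcp := en_pos hc
  -- continuity
  have hc1 : Continuous fun z : ℂ => cx b (c + z • bp c) / cx b c := by
    unfold cx
    simp only [Prod.fst_add, Prod.snd_add, Prod.smul_fst, Prod.smul_snd, smul_eq_mul]
    fun_prop
  have hc2 : Continuous fun z : ℂ => ‖rk (bp u) (c + z • bp c)‖ := by
    unfold rk
    simp only [Prod.fst_add, Prod.snd_add, Prod.smul_fst, Prod.smul_snd, smul_eq_mul]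
    fun_prop
  set M : ℝ := ‖rk (bp u) c‖ + 1 with hM
  have hMp : 0 < M := by positivity
  have hev1 : ∀ᶠ z : ℂ in 𝓝 0, ‖cx b (c + z • bp c) / cx b c - 1‖ < 1 / 100 := by
    have h1 : ContinuousAt (fun z : ℂ => ‖cx b (c + z • bp c) / cx b c - 1‖) 0 :=
      (hc1.sub continuous_const).norm.continuousAt
    refine h1.eventually (gt_mem_nhds ?_)
    show ‖cx b (c + (0 : ℂ) • bp c) / cx b c - 1‖ < 1 / 100
    rw [zero_smul, add_zero, div_self hbc, sub_self, norm_zero]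
    norm_num
  have hev2 : ∀ᶠ z : ℂ in 𝓝 0, ‖rk (bp u) (c + z • bp c)‖ < M := by
    refine hc2.continuousAt.eventually (gt_mem_nhds ?_)
    show ‖rk (bp u) (c + (0 : ℂ) • bp c)‖ < M
    rw [zero_smul, add_zero]
    linarith
  obtain ⟨δ, hδ, hall⟩ := Metric.eventually_nhds_iff.1 (hev1.and hev2)
  simp only [dist_zero_right] at hall
  rw [Metric.mem_closure_iff]
  intro ε hε
  set Q : ℝ := 2 * ‖cx b c‖ / en c ^ 2 with hQ
  have hQ0 : 0 ≤ Q := by positivity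
  set ε₁ : ℝ := min (min δ r) (ε / (2 * (M * (Q + 1)))) with hε₁
  have hε₁p : 0 < ε₁ := by positivity
  have e1 : ε₁ ≤ δ := (min_le_left _ _).trans (min_le_left _ _)
  have e2 : ε₁ ≤ r := (min_le_left _ _).trans (min_le_right _ _)
  have e3 : ε₁ * (2 * (M * (Q + 1))) ≤ ε := by
    rw [← le_div_iff₀ (by positivity)]
    exact min_le_right _ _
  have hνdiff : DifferentiableOn ℂ (nu x c) (ball 0 r) := by
    intro z hz
    rw [mem_ball, dist_zero_right] at hz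
    exact (nu_deriv (hdom z hz)).differentiableAt.differentiableWithinAt
  have hν1 : deriv (nu x c) 0 = 0 := by
    have h0 : ip (hF x c) (hF x (c + (0 : ℂ) • bp c)) ≠ 0 := hdom 0 (by rwa [norm_zero])
    rw [(nu_deriv h0).deriv, zero_smul, add_zero, prop_of_wr (by omega) hwc, cx_self]
    simp
  obtain ⟨ξ, η, h1, h2, h3, h4, h5, h6, h7⟩ := pair_lemma hr hνdiff (nu_zero x c) hν1
    (nu_not_zero hd hx hc hr hdom) hε₁p
  obtain ⟨g1, g2⟩ := hall (h1.trans_le e1)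
  obtain ⟨g3, -⟩ := hall (h2.trans_le e1)
  have hnb : 0 < ‖cx b c‖ := norm_pos_iff.2 hbc
  have lo : ∀ w : ℂ, ‖w / cx b c - 1‖ < 1 / 100 →
      99 / 100 * ‖cx b c‖ ≤ ‖w‖ ∧ ‖w‖ ≤ 101 / 100 * ‖cx b c‖ := by
    intro w hw
    have e : w / cx b c - 1 = (w - cx b c) / cx b c := by field_simp
    rw [e, norm_div, div_lt_iff₀ hnb] at hw
    have k1 := norm_sub_norm_le w (cx b c)
    have k2 := norm_sub_norm_le (cx b c) w
    rw [norm_sub_rev] at k2
    constructor <;> linarith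
  obtain ⟨l1, l2⟩ := lo _ g1
  obtain ⟨l3, l4⟩ := lo _ g3
  have hbξ : cx b (c + ξ • bp c) ≠ 0 := by
    intro h0
    rw [h0, norm_zero] at l1
    linarith
  have hbη : cx b (c + η • bp c) ≠ 0 := by
    intro h0
    rw [h0, norm_zero] at l3
    linarith
  set θ : ℂ := nu x c η * cx b (c + η • bp c) / ((ξ - η) * ((en c ^ 2 : ℝ) : ℂ)) with hθ
  have hE0 : ((en c ^ 2 : ℝ) : ℂ) ≠ 0 := by exact_mod_cast (pow_pos hcp 2).ne'
  have hdif : ξ - η ≠ 0 := sub_ne_zero.2 h3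
  have hdifp : 0 < ‖ξ - η‖ := norm_pos_iff.2 hdif
  refine ⟨rk u b - θ • rk (bp u) (c + ξ • bp c), ?_, ?_⟩
  · refine cv_one hd hx hc hwc (hdom ξ (h1.trans_le e2)) (hdom η (h2.trans_le e2)) h3 h4 h5 hbξ hbη
      ?_ (by rw [hθ]; exact div_mul_cancel₀ _ (mul_ne_zero hdif hE0))
    rw [norm_mul, norm_div (cx b (c + η • bp c))]
    have k1 : 99 / 101 ≤ ‖cx b (c + η • bp c)‖ / ‖cx b (c + ξ • bp c)‖ := by
      rw [le_div_iff₀ (norm_pos_iff.2 hbξ)]
      linarith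
    calc (1 : ℝ) < 21 / 20 * (99 / 101) := by norm_num
      _ ≤ _ := mul_le_mul h6 k1 (by norm_num) (norm_nonneg _)
  · rw [dist_eq_norm]
    have e : rk u b - (rk u b - θ • rk (bp u) (c + ξ • bp c)) = θ • rk (bp u) (c + ξ • bp c) := by
      abel
    rw [e, norm_smul]
    have k1 : ‖θ‖ ≤ ε₁ * Q := by
      rw [hθ, norm_div, norm_mul, norm_mul, Complex.norm_real, Real.norm_eq_abs,
        abs_of_pos (pow_pos hcp 2), div_le_iff₀ (by positivity)]
      calc ‖nu x c η‖ * ‖cx b (c + η • bp c)‖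
          ≤ (ε₁ * ‖ξ - η‖) * (2 * ‖cx b c‖) :=
            mul_le_mul h7 (by linarith) (norm_nonneg _) (by positivity)
        _ = ε₁ * Q * (‖ξ - η‖ * en c ^ 2) := by rw [hQ]; field_simp
    calc ‖θ‖ * ‖rk (bp u) (c + ξ • bp c)‖ ≤ (ε₁ * Q) * M :=
          mul_le_mul k1 g2.le (norm_nonneg _) (by positivity)
      _ < ε := by nlinarith [mul_pos hε₁p hMp]

theorem NH_closure_smul {x : CV d} {m : (ℂ × ℂ) × (ℂ × ℂ)} {t : ℂ} (ht : t ≠ 0)
    (hm : m ∈ closure (NH x)) : t • m ∈ closure (NH x) := by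
  have h1 : Continuous fun m : (ℂ × ℂ) × (ℂ × ℂ) => t • m := continuous_const_smul t
  exact map_mem_closure h1 hm fun m hm => NH_smul ht hm

theorem rk_smul (t : ℂ) (a b : ℂ × ℂ) : rk (t • a) b = t • rk a b := by
  unfold rk
  refine Prod.ext (Prod.ext ?_ ?_) (Prod.ext ?_ ?_)
  all_goals
    simp only [Prod.smul_fst, Prod.smul_snd, smul_eq_mul]
    ring

theorem rk_cont : Continuous fun q : (ℂ × ℂ) × (ℂ × ℂ) => rk q.1 q.2 := by
  unfold rk
  fun_prop

theorem eq_smul_of_cx {a v : ℂ × ℂ} (ha : a ≠ 0) (hv : v ≠ 0) (h : cx a v = 0) :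
    ∃ t : ℂ, t ≠ 0 ∧ a = t • v := by
  have hv2 : ((en v ^ 2 : ℝ) : ℂ) ≠ 0 := by exact_mod_cast (pow_pos (en_pos hv) 2).ne'
  have h1 : ((en v ^ 2 : ℝ) : ℂ) • a = ip v a • v := by
    rw [expand v a, ip_bp, cx_swap, h, neg_zero, zero_smul, add_zero]
  have h2 : a = (((en v ^ 2 : ℝ) : ℂ)⁻¹ * ip v a) • v := by
    rw [mul_smul, ← h1, smul_smul, inv_mul_cancel₀ hv2, one_smul]
  refine ⟨_, fun h0 => ha ?_, h2⟩
  rw [h2, h0, zero_smul]

/-- there is a critical point -/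
theorem exists_crit (hd : 2 ≤ d) (x : CV d) : ∃ c : ℂ × ℂ, c ≠ 0 ∧ wr x c = 0 := by
  by_cases h : 0 < (W0 x).degree
  · obtain ⟨z, hz⟩ := Complex.exists_root h
    refine ⟨(z, 1), coe_ne z, ?_⟩
    rw [wr_eq_W0, hz.eq_zero, mul_zero]
  · have h1 := Polynomial.eq_C_of_degree_le_zero (not_lt.1 h)
    refine ⟨(1, 0), inf_ne 0, ?_⟩
    have hcont : Continuous fun w : ℂ => wr x (1, w) :=
      Continuous.comp (g := fun q : CV d × (ℂ × ℂ) => wr q.1 q.2)
        (f := fun w : ℂ => (x, ((1, w) : ℂ × ℂ))) wr_cont2 (by fun_prop)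
    have heq : ∀ w : ℂ, w ≠ 0 → wr x (1, w) = w ^ (2 * d - 2) * (d * (W0 x).coeff 0) := by
      intro w hw
      have e : ((1, w) : ℂ × ℂ) = w • ((w⁻¹, 1) : ℂ × ℂ) := by
        refine Prod.ext ?_ ?_
        · simp only [Prod.smul_fst, smul_eq_mul]; exact (mul_inv_cancel₀ hw).symm
        · simp
      rw [e, (WR d x hd).1, wr_eq_W0, h1]
      simp
    have ht1 : Tendsto (fun w : ℂ => wr x (1, w)) (𝓝[≠] 0) (𝓝 (wr x (1, 0))) :=
      (hcont.tendsto 0).mono_left nhdsWithin_le_nhds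
    have ht2 : Tendsto (fun w : ℂ => wr x (1, w)) (𝓝[≠] 0) (𝓝 0) := by
      have h3 : Continuous fun w : ℂ => w ^ (2 * d - 2) * (d * (W0 x).coeff 0) := by fun_prop
      have h4 : Tendsto (fun w : ℂ => w ^ (2 * d - 2) * (d * (W0 x).coeff 0)) (𝓝[≠] 0) (𝓝 0) := by
        have h5 := (h3.tendsto 0).mono_left (nhdsWithin_le_nhds (s := {0}ᶜ))
        simp only [zero_pow (by omega : 2 * d - 2 ≠ 0), zero_mul] at h5
        exact h5
      refine h4.congr' ?_
      filter_upwards [self_mem_nhdsWithin] with w hw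
      exact (heq w hw).symm
    exact tendsto_nhds_unique ht1 ht2

end Run7.h964.CS
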