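import Mathlib
import Pool.Agent.Run7.h964.CS.O

/-! The exact set of limits. -/

set_option autoImplicit false

open Topology Filter Metric Set
open Pool.Agent.H790R3.RB Pool.Agent.R239.Fat
open Pool.Agent.H790R3.RB.SP (pr_zero pr_ne pr_hc sp_pr sp_cont pr_eq_iff continuousAt_pr)

namespace Run7.h964.CS

open Run7.h964.FM

variable {d : ℕ}

theorem line_cont (b : ℂ × ℂ) : Continuous fun z : ℂ => b + z • bp b := by fun_prop

theorem rk_tendsto (a b : ℂ × ℂ) :
    Tendsto (fun z : ℂ => rk a (b + z • bp b)) (𝓝 0) (𝓝 (rk a b)) := by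
  have h : Continuous fun z : ℂ => rk a (b + z • bp b) :=
    rk_cont.comp (continuous_const.prodMk (line_cont b))
  have h2 := h.tendsto 0
  simp only [zero_smul, add_zero] at h2
  exact h2

theorem cv_lim' (hd : 2 ≤ d) {x : CV d} (hx : ND x) {b c : ℂ × ℂ} (hb : b ≠ 0) (hc : c ≠ 0)
    (hwc : wr x c = 0) : rk (hF x c) b ∈ closure (NH x) := by
  by_cases hbc : cx b c = 0
  · obtain ⟨t, ht, e⟩ := eq_smul_of_cx hc hb (by rw [cx_swap, hbc, neg_zero])
    have hb2 : ((en b ^ 2 : ℝ) : ℂ) ≠ 0 := by exact_mod_cast (pow_pos (en_pos hb) 2).ne'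
    refine isClosed_closure.mem_of_tendsto
      ((rk_tendsto (hF x c) b).mono_left (nhdsWithin_le_nhds (s := {0}ᶜ))) ?_
    filter_upwards [self_mem_nhdsWithin] with z hz
    refine cv_lim hd hx hc hwc ?_
    rw [e, cx_swap, cx_add, cx_smul]
    have h1 : cx (t • b) b = 0 := by unfold cx; simp only [Prod.smul_fst, Prod.smul_snd, smul_eq_mul]; ring
    have h2 : cx (t • b) (bp b) = t * cx b (bp b) := by
      unfold cx; simp only [Prod.smul_fst, Prod.smul_snd, smul_eq_mul]; ring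
    rw [h1, h2, cx_bp, zero_add, neg_ne_zero]
    exact mul_ne_zero hz (mul_ne_zero ht hb2)
  · exact cv_lim hd hx hc hwc hbc

theorem c0_inj {b : ℂ × ℂ} (hb : b ≠ 0) : Function.Injective fun z : ℂ => pr (b + z • bp b) := by
  intro z w h
  simp only at h
  rw [← c0_coe hb, ← c0_coe hb] at h
  exact OnePoint.coe_injective ((c0 hb).injective h)

theorem wr_line_countable (hd : 2 ≤ d) {x : CV d} (hx : ND x) {b : ℂ × ℂ} (hb : b ≠ 0) :
    {z : ℂ | wr x (b + z • bp b) = 0}.Countable := by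
  have h1 : (⋃ e ∈ crit x, {z : ℂ | pr (b + z • bp b) = pr e}).Countable := by
    refine (crit x).countable_toSet.biUnion fun e _ => ?_
    refine Set.Subsingleton.countable fun z hz w hw => ?_
    exact c0_inj hb (hz.trans hw.symm)
  refine h1.mono fun z hz => ?_
  obtain ⟨e, he, k, hk, h⟩ := crit_spec (by omega) hx (add_bp_ne hb z) hz hd
  refine mem_iUnion₂.2 ⟨e, he, ?_⟩
  show pr (b + z • bp b) = pr e
  rw [h, pr_smul hk]

theorem par_lim' (hd : 2 ≤ d) {x : CV d} (hx : ND x) {b : ℂ × ℂ} (hb : b ≠ 0) :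
    rk (hF x b) b ∈ closure (NH x) := by
  obtain ⟨c, hc, hwc⟩ := exists_crit hd x
  have hv : hF x c ≠ 0 := fun h => hc (hx c h)
  have h1 := wr_line_countable hd hx hb
  have h2 : {z : ℂ | sp x (pr (b + z • bp b)) = pr (hF x c)}.Countable :=
    (sp_fibre (by omega : 1 ≤ d) hx (pr (hF x c))).preimage (c0_inj hb)
  have h3 : Dense ({z : ℂ | wr x (b + z • bp b) = 0} ∪
      {z : ℂ | sp x (pr (b + z • bp b)) = pr (hF x c)})ᶜ := (h1.union h2).dense_compl ℝ
  have h4 : ∃ᶠ z : ℂ in 𝓝 0, z ∈ ({z : ℂ | wr x (b + z • bp b) = 0} ∪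
      {z : ℂ | sp x (pr (b + z • bp b)) = pr (hF x c)})ᶜ := mem_closure_iff_frequently.1 (h3 0)
  have ht : Tendsto (fun z : ℂ => rk (hF x (b + z • bp b)) (b + z • bp b)) (𝓝 0)
      (𝓝 (rk (hF x b) b)) := by
    have h : Continuous fun z : ℂ => rk (hF x (b + z • bp b)) (b + z • bp b) :=
      rk_cont.comp (((hF_cont x).comp (line_cont b)).prodMk (line_cont b))
    have h2 := h.tendsto 0
    simp only [zero_smul, add_zero] at h2
    exact h2
  refine isClosed_closure.mem_of_frequently_of_tendsto (h4.mono fun z hz => ?_) ht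
  have hz1 : wr x (b + z • bp b) ≠ 0 := fun h => hz (Or.inl h)
  refine par_lim hd hx (add_bp_ne hb z) hz1 hc hwc fun h => hz (Or.inr ?_)
  have hb' : hF x (b + z • bp b) ≠ 0 := fun h => add_bp_ne hb z (hx _ h)
  show sp x (pr (b + z • bp b)) = pr (hF x c)
  rw [sp_pr hx (add_bp_ne hb z), pr_eq_iff hb' hv]
  exact h

/-- the form `a ∧ F` -/
theorem cm_rk (x : CV d) (a b : ℂ × ℂ) :
    cm (rk a b) x = st b (a.1 • row x 1 - a.2 • row x 0) := by
  funext r
  obtain ⟨i, j⟩ := r
  simp only [cm, rk, st, row, Pi.sub_apply, Pi.smul_apply, smul_eq_mul]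
  split_ifs <;> ring

theorem fm_cr (x : CV d) (a p : ℂ × ℂ) :
    fm (a.1 • row x 1 - a.2 • row x 0) p = cx a (hF x p) := by
  rw [fm_sub, fm_smul, fm_smul, hF_eq]
  rfl

theorem cm_cont (x : CV d) : Continuous fun m : (ℂ × ℂ) × (ℂ × ℂ) => cm m x := by
  refine continuous_pi fun r => ?_
  unfold cm
  split_ifs <;> fun_prop

/-- the rank one matrices which are limits of matrices `m` such that `m ∘ F` is not hyperbolic -/
theorem nh_iff (hd : 2 ≤ d) {x : CV d} (hx : ND x) {a b : ℂ × ℂ} (ha : a ≠ 0) (hb : b ≠ 0) :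
    rk a b ∈ closure (NH x) ↔
      cx a (hF x b) = 0 ∨ ∃ c : ℂ × ℂ, c ≠ 0 ∧ wr x c = 0 ∧ cx a (hF x c) = 0 := by
  constructor
  · intro h
    by_contra hcon
    push Not at hcon
    obtain ⟨h1, h2⟩ := hcon
    set H : Fin (d + 1) → ℂ := a.1 • row x 1 - a.2 • row x 0 with hH
    have hfm : ∀ p, fm H p = cx a (hF x p) := fun p => fm_cr x a p
    obtain ⟨r, hr, hr2⟩ := simple_hyp hd hb (H := H) (by rw [hfm]; exact h1) (by
      rintro c hc ⟨hc1, hc2⟩
      have hd0 : (d : ℂ) ≠ 0 := by exact_mod_cast (by omega : d ≠ 0)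
      have h0 : fm H c = 0 := by
        have h3 := euler H c
        rw [hc1, hc2, mul_zero, mul_zero, add_zero] at h3
        exact (mul_eq_zero.1 h3).resolve_left hd0
      refine h2 c hc ?_ (by rw [← hfm]; exact h0)
      rw [hH, fm1_sub, fm1_smul, fm1_smul] at hc1
      rw [hH, fm2_sub, fm2_smul, fm2_smul] at hc2
      rw [wr_eq]
      unfold cx
      simp only
      by_contra hne
      apply ha
      refine Prod.ext ?_ ?_
      · refine (mul_eq_zero.1 (?_ : a.1 * (fm1 (row x 0) c * fm2 (row x 1) c -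
          fm1 (row x 1) c * fm2 (row x 0) c) = 0)).resolve_right hne
        linear_combination fm1 (row x 0) c * hc2 - fm2 (row x 0) c * hc1
      · refine (mul_eq_zero.1 (?_ : a.2 * (fm1 (row x 0) c * fm2 (row x 1) c -
          fm1 (row x 1) c * fm2 (row x 0) c) = 0)).resolve_right hne
        linear_combination fm1 (row x 1) c * hc2 - fm2 (row x 1) c * hc1)
    have h3 : cm (rk a b) x ∈ closure ((fun m => cm m x) '' NH x) :=
      map_mem_closure (f := fun m => cm m x) (cm_cont x) h fun m hm => ⟨m, hm, rfl⟩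
    rw [Metric.mem_closure_iff] at h3
    obtain ⟨y, ⟨m, hm, rfl⟩, hy⟩ := h3 r hr
    refine hm.2 (hr2 _ (nd_cm hm.1 hx) ?_)
    rw [← cm_rk, ← dist_eq_norm, dist_comm]
    exact hy.le
  · rintro (h | ⟨c, hc, hwc, h⟩)
    · have hv : hF x b ≠ 0 := fun h => hb (hx b h)
      obtain ⟨t, ht, rfl⟩ := eq_smul_of_cx ha hv h
      rw [rk_smul]
      exact NH_closure_smul ht (par_lim' hd hx hb)
    · have hv : hF x c ≠ 0 := fun h => hc (hx c h)
      obtain ⟨t, ht, rfl⟩ := eq_smul_of_cx ha hv h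
      rw [rk_smul]
      exact NH_closure_smul ht (cv_lim' hd hx hb hc hwc)

theorem exists_nonroot {H : Fin (d + 1) → ℂ} (hH : H ≠ 0) : ∃ t : ℂ, fm H (t, 1) ≠ 0 := by
  set p : Polynomial ℂ := ∑ j : Fin (d + 1), Polynomial.monomial (j : ℕ) (H j) with hp
  have hc : ∀ j : Fin (d + 1), p.coeff j = H j := by
    intro j
    rw [hp, Polynomial.finsetSum_coeff, Finset.sum_eq_single j]
    · rw [Polynomial.coeff_monomial, if_pos rfl]
    · intro i _ hij
      rw [Polynomial.coeff_monomial, if_neg]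
      exact fun h => hij (Fin.ext h)
    · intro h; exact absurd (Finset.mem_univ j) h
  have hp0 : p ≠ 0 := by
    rintro h0
    apply hH
    funext j
    rw [← hc, h0, Polynomial.coeff_zero]
    rfl
  by_contra hcon
  push Not at hcon
  apply hp0
  refine Polynomial.funext fun t => ?_
  have h1 := hcon t
  unfold fm at h1
  rw [hp, Polynomial.eval_finsetSum, Polynomial.eval_zero, ← h1]
  refine Finset.sum_congr rfl fun j _ => ?_
  rw [Polynomial.eval_monomial, one_pow, mul_one]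

theorem fm_pow (t : ℂ) (p : ℂ × ℂ) :
    fm (fun j : Fin (d + 1) => (d.choose j : ℂ) * (-t) ^ (d - (j : ℕ))) p =
      (p.1 - t * p.2) ^ d := by
  have h := add_pow p.1 (-t * p.2) d
  rw [Finset.sum_range] at h
  have e : p.1 + -t * p.2 = p.1 - t * p.2 := by ring
  rw [e] at h
  rw [h]
  unfold fm
  refine Finset.sum_congr rfl fun j _ => ?_
  rw [mul_pow]
  ring

/-- the constant pairs which are limits of non hyperbolic maps -/
theorem stratum_iff (hd : 2 ≤ d) {b : ℂ × ℂ} (hb : b ≠ 0) {H : Fin (d + 1) → ℂ} (hH : H ≠ 0) :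
    st b H ∈ closure {x : CV d | ND x ∧ ¬ HypTop (sp x)} ↔
      fm H b = 0 ∨ ∃ c : ℂ × ℂ, c ≠ 0 ∧ fm1 H c = 0 ∧ fm2 H c = 0 := by
  constructor
  · intro h
    by_contra hcon
    push Not at hcon
    obtain ⟨h1, h2⟩ := hcon
    obtain ⟨r, hr, hr2⟩ := simple_hyp hd hb h1 fun c hc h => h2 c hc h.1 h.2
    obtain ⟨y, hy, hy2⟩ := Metric.mem_closure_iff.1 h r hr
    refine hy.2 (hr2 y hy.1 ?_)
    rw [← dist_eq_norm, dist_comm]
    exact hy2.le
  · intro h
    obtain ⟨t, ht⟩ := exists_nonroot hH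
    set G : Fin (d + 1) → ℂ := fun j => (d.choose j : ℂ) * (-t) ^ (d - (j : ℕ)) with hG
    set x : CV d := fun r => if r.1 = 0 then H r.2 else G r.2 with hx
    have hr0 : row x 0 = H := by funext j; simp [row, hx]
    have hr1 : row x 1 = G := by funext j; simp [row, hx]
    have hnd : ND x := by
      intro p hp
      rw [hF_eq, hr0, hr1, hG, fm_pow] at hp
      have h1 : fm H p = 0 := congrArg Prod.fst hp
      have h2 : (p.1 - t * p.2) ^ d = 0 := congrArg Prod.snd hp
      have h3 : p.1 = t * p.2 := sub_eq_zero.1 (pow_eq_zero_iff (by omega) |>.1 h2)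
      have e : p = p.2 • ((t, 1) : ℂ × ℂ) := by
        refine Prod.ext ?_ ?_
        · simp only [Prod.smul_fst, smul_eq_mul]; rw [h3]; ring
        · simp
      rw [e, fm_scale] at h1
      have h4 : p.2 = 0 := (pow_eq_zero_iff (by omega)).1 ((mul_eq_zero.1 h1).resolve_right ht)
      rw [e, h4, zero_smul]
    have ha : ((0, -1) : ℂ × ℂ) ≠ 0 := by
      intro h0
      have := congrArg Prod.snd h0
      simp at this
    have hcx : ∀ p : ℂ × ℂ, cx ((0, -1) : ℂ × ℂ) (hF x p) = fm H p := by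
      intro p
      rw [hF_eq, hr0]
      unfold cx
      simp
    have hcm : cm (rk ((0, -1) : ℂ × ℂ) b) x = st b H := by
      rw [cm_rk, hr0, hr1]
      simp
    have hmem : rk ((0, -1) : ℂ × ℂ) b ∈ closure (NH x) := by
      rw [nh_iff hd hnd ha hb]
      rcases h with h | ⟨c, hc, h1, h2⟩
      · left; rw [hcx]; exact h
      · right
        refine ⟨c, hc, ?_, ?_⟩
        · rw [wr_eq, hr0, h1, h2]
          unfold cx
          simp
        · rw [hcx]
          have hd0 : (d : ℂ) ≠ 0 := by exact_mod_cast (by omega : d ≠ 0)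
          have h3 := euler H c
          rw [h1, h2, mul_zero, mul_zero, add_zero] at h3
          exact (mul_eq_zero.1 h3).resolve_left hd0
    rw [← hcm]
    exact map_mem_closure (f := fun m => cm m x) (cm_cont x) hmem
      fun m hm => ⟨nd_cm hm.1 hnd, hm.2⟩

end Run7.h964.CS
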