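import Mathlib
import Pool.Agent.Run7.h964.CS.G
import Pool.Agent.Run7.h964.CS.P

/-! The volume estimate in equivariant families. -/

set_option autoImplicit false

open Topology Filter Metric Set MeasureTheory
open Pool.Agent.H790R3.RB Pool.Agent.R239.Fat

namespace Run7.h964.CS

open Run7.h964.FM

variable {d : ℕ}

theorem fubini_gen (hd : 2 ≤ d) {e : ℕ} {H : Fin (d + 1) → ℂ} {b : ℂ × ℂ} {τ A : ℝ}
    {Φ : CV e → CV d} (hΦ : Continuous Φ)
    (hΦ2 : ∀ (κ : ℂ) (y : CV e), Φ (cm (ub b κ) y) = cm (ub b κ) (Φ y)) {v₀ : CV e}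
    (hv : ∀ κ : ℂ, cm (ub b κ) v₀ = v₀) (hA : 0 ≤ A)
    (h : ∀ w : ℂ × ℂ, w ≠ 0 → volume (Ar H b τ w) ≤ ENNReal.ofReal A) {r : ℝ} (hr : 0 ≤ r) :
    volume (Φ ⁻¹' (Ev H τ ∩ NC d) ∩ closedBall v₀ r) ≤
      ENNReal.ofReal (2 * d * A * ((1 + 2 * en b ^ 2) ^ Module.finrank ℝ (CV e)) ^ 2 / Real.pi) *
        volume (closedBall v₀ r) := by
  set Λ : ℝ := 1 + 2 * en b ^ 2 with hΛ
  have hΛ0 : 0 ≤ Λ := by positivity
  set N := Module.finrank ℝ (CV e) with hN
  set E : Set (CV e) := Φ ⁻¹' (Ev H τ ∩ NC d) ∩ closedBall v₀ r with hE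
  have hEm : MeasurableSet E :=
    (hΦ.measurable ((Ev_meas H τ).inter NC_open.measurableSet)).inter measurableSet_closedBall
  set D : Set ℂ := closedBall (0 : ℂ) 1 with hD
  have hDm : MeasurableSet D := measurableSet_closedBall
  have hDv : volume D = ENNReal.ofReal Real.pi := by
    rw [hD, Complex.volume_closedBall, pi_enn]
    simp
  set W : Set (ℂ × CV e) := {q | cm (ub b q.1) q.2 ∈ E} with hW
  have hcont : Continuous fun q : ℂ × CV e => cm (ub b q.1) q.2 := by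
    refine continuous_pi fun r => ?_
    obtain ⟨i, j⟩ := r
    unfold cm ub
    by_cases hi : i = 0
    · subst hi
      simp only [if_true]
      have h0 : Continuous fun q : ℂ × CV e => q.2 (0, j) := (continuous_apply _).comp continuous_snd
      have h1 : Continuous fun q : ℂ × CV e => q.2 (1, j) := (continuous_apply _).comp continuous_snd
      exact ((continuous_const.sub (continuous_fst.mul continuous_const)).mul h0).add
        ((continuous_fst.mul continuous_const).mul h1)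
    · simp only [hi, if_false]
      have h0 : Continuous fun q : ℂ × CV e => q.2 (0, j) := (continuous_apply _).comp continuous_snd
      have h1 : Continuous fun q : ℂ × CV e => q.2 (1, j) := (continuous_apply _).comp continuous_snd
      exact (((continuous_fst.mul continuous_const).neg).mul h0).add
        ((continuous_const.add (continuous_fst.mul continuous_const)).mul h1)
  have hWm : MeasurableSet W := hcont.measurable hEm
  -- left side
  have h1 : ENNReal.ofReal Real.pi * volume E ≤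
      ENNReal.ofReal (Λ ^ N) * ((volume.restrict D).prod volume) W := by
    rw [Measure.prod_apply hWm, ← lintegral_const_mul' _ _ ENNReal.ofReal_ne_top, ← hDv]
    calc volume D * volume E = ∫⁻ _ in D, volume E := by
          rw [lintegral_const, Measure.restrict_apply MeasurableSet.univ, univ_inter, mul_comm]
      _ ≤ ∫⁻ κ in D, ENNReal.ofReal (Λ ^ N) * volume (Prod.mk κ ⁻¹' W) := by
          refine setLIntegral_mono' hDm fun κ hκ => ?_
          rw [hD, mem_closedBall, dist_zero_right] at hκ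
          exact vol_le_pre b hκ E
  -- right side
  have h2 : ((volume.restrict D).prod volume) W ≤
      ENNReal.ofReal (2 * d * A) * volume (closedBall v₀ (Λ * r)) := by
    rw [Measure.prod_apply_symm hWm]
    have h3 : ∀ y : CV e, (volume.restrict D) ((fun κ => (κ, y)) ⁻¹' W) ≤
        (closedBall v₀ (Λ * r)).indicator (fun _ => ENNReal.ofReal (2 * d * A)) y := by
      intro y
      by_cases hy : y ∈ closedBall v₀ (Λ * r)
      · rw [indicator_of_mem hy]
        refine (Measure.restrict_apply_le _ _).trans ((measure_mono ?_).trans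
          (fibre_le hd h (Φ y)))
        intro κ hκ
        have h7 : Φ (cm (ub b κ) y) ∈ Ev H τ ∩ NC d := hκ.1
        rw [hΦ2] at h7
        exact h7
      · rw [indicator_of_notMem hy, Measure.restrict_apply' hDm]
        have hemp : (fun κ => (κ, y)) ⁻¹' W ∩ D = ∅ := by
          refine Set.eq_empty_iff_forall_notMem.2 fun κ hκ => hy ?_
          obtain ⟨hκ1, hκ2⟩ := hκ
          rw [hD, mem_closedBall, dist_zero_right] at hκ2
          have h4 : cm (ub b κ) y ∈ closedBall v₀ r := hκ1.2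
          rw [mem_closedBall, dist_eq_norm] at h4 ⊢
          have h5 : y - v₀ = cm (ub b (-κ)) (cm (ub b κ) y - v₀) := by
            rw [cm_sub, cm_ub_inv, hv]
          rw [h5]
          exact (norm_cm_ub (by rwa [norm_neg]) _).trans (mul_le_mul_of_nonneg_left h4 hΛ0)
        rw [hemp, measure_empty]
    refine (lintegral_mono h3).trans ?_
    rw [lintegral_indicator measurableSet_closedBall, lintegral_const,
      Measure.restrict_apply MeasurableSet.univ, univ_inter]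
  rw [vol_ball_mul _ hr hΛ0] at h2
  have h5 : ENNReal.ofReal Real.pi * volume E ≤
      ENNReal.ofReal (Λ ^ N) * (ENNReal.ofReal (2 * d * A) *
        (ENNReal.ofReal (Λ ^ N) * volume (closedBall v₀ r))) :=
    h1.trans (by gcongr)
  have h6 : volume E = ENNReal.ofReal (1 / Real.pi) * (ENNReal.ofReal Real.pi * volume E) := by
    rw [← mul_assoc, ← ENNReal.ofReal_mul (by positivity), one_div, inv_mul_cancel₀ Real.pi_ne_zero,
      ENNReal.ofReal_one, one_mul]
  rw [h6]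
  refine (mul_le_mul_right h5 _).trans (le_of_eq ?_)
  rw [← mul_assoc, ← mul_assoc, ← mul_assoc, ← ENNReal.ofReal_mul (by positivity),
    ← ENNReal.ofReal_mul (by positivity), ← ENNReal.ofReal_mul (by positivity)]
  congr 2
  ring

/-- the maps `Φ y`, `y` near `v₀`, which are not hyperbolic have small volume -/
theorem density_gen (hd : 2 ≤ d) {e : ℕ} {H : Fin (d + 1) → ℂ} {b : ℂ × ℂ} (hb : b ≠ 0)
    (hH : fm H b ≠ 0) {Φ : CV e → CV d} (hΦ : Continuous Φ)
    (hΦ2 : ∀ (κ : ℂ) (y : CV e), Φ (cm (ub b κ) y) = cm (ub b κ) (Φ y)) {v₀ : CV e}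
    (hv : ∀ κ : ℂ, cm (ub b κ) v₀ = v₀) {B : ℝ} (hB : 0 < B)
    (hΦ3 : ∀ y : CV e, ‖Φ y - st b H‖ ≤ B * ‖y - v₀‖) :
    ∃ C : ℝ, 0 < C ∧ ∀ r : ℝ, 0 < r → r ≤ 1 →
      volume ({y : CV e | ND (Φ y) ∧ ¬ HypTop (sp (Φ y))} ∩ closedBall v₀ r) ≤
        ENNReal.ofReal (C * r ^ ((2 : ℝ) / d)) * volume (closedBall v₀ r) := by
  obtain ⟨ρ, h₀, hρ, hρ1, hh₀, hlow⟩ := lower hb hH
  obtain ⟨C₁, τ₀, hC₁, hτ₀, harea⟩ := area_vec (by omega : 1 ≤ d) hb hH
  have hbp := en_pos hb
  set K' : ℝ := (1 + 3 / ρ) * (2 * (d + 1) / en b) with hK'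
  have hKp' : 0 < K' := by positivity
  set K : ℝ := K' * B with hK
  have hKp : 0 < K := by positivity
  set Q : ℝ := ((1 + 2 * en b ^ 2) ^ Module.finrank ℝ (CV e)) ^ 2 / Real.pi with hQ
  have hQp : 0 < Q := by positivity
  have hdR : (0 : ℝ) < d := by exact_mod_cast (by omega : 0 < d)
  set r₀ : ℝ := min (min (h₀ / K) (τ₀ / (2 * K))) 1 with hr₀
  have hr₀p : 0 < r₀ := lt_min (lt_min (by positivity) (by positivity)) one_pos
  set C₂ : ℝ := 2 * d * (C₁ * K ^ ((2 : ℝ) / d)) * Q with hC₂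
  have hC₂p : 0 < C₂ := by positivity
  refine ⟨max C₂ (r₀ ^ (-((2 : ℝ) / d))), lt_max_of_lt_left hC₂p, fun r hr hr1 => ?_⟩
  by_cases hle : r ≤ r₀
  · have hrK : K * r ≤ h₀ := by
      rw [mul_comm, ← le_div_iff₀ hKp]
      exact hle.trans ((min_le_left _ _).trans (min_le_left _ _))
    have hrτ : K * r < τ₀ := by
      have : r ≤ τ₀ / (2 * K) := hle.trans ((min_le_left _ _).trans (min_le_right _ _))
      rw [le_div_iff₀ (by positivity)] at this
      nlinarith
    have hsub : {y : CV e | ND (Φ y) ∧ ¬ HypTop (sp (Φ y))} ∩ closedBall v₀ r ⊆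
        Φ ⁻¹' (Ev H (K * r) ∩ NC d) ∩ closedBall v₀ r := by
      rintro y ⟨⟨hx1, hx2⟩, hx3⟩
      refine ⟨⟨?_, nd_NC (by omega) hx1⟩, hx3⟩
      by_contra hE
      apply hx2
      rw [mem_closedBall, dist_eq_norm] at hx3
      have hx4 : ‖Φ y - st b H‖ ≤ B * r := (hΦ3 y).trans (mul_le_mul_of_nonneg_left hx3 hB.le)
      have hrB : 0 < B * r := mul_pos hB hr
      have eK : K * r = K' * (B * r) := by rw [hK]; ring
      rw [eK] at hE hrK
      refine crit_hyp hd hb hρ hlow hx1 hrB hx4 hrK fun c hc hw => Or.inr ?_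
      by_contra hcon
      apply hE
      obtain ⟨k, e₁, hk, he, rfl⟩ := unit_smul hc
      have he0 : e₁ ≠ 0 := by
        rintro rfl
        rw [en_eq_zero.2 rfl] at he
        exact zero_ne_one he
      rw [(WR d (Φ y) hd).1] at hw
      refine ⟨e₁, he, (mul_eq_zero.1 hw).resolve_left (pow_ne_zero _ hk),
        fun h0 => he0 (hx1 e₁ h0), ?_⟩
      rw [hF_scale, fm_scale, norm_mul, norm_pow, en_smul, mul_pow, not_le] at hcon
      have hkp : 0 < ‖k ^ d‖ ^ d := pow_pos (norm_pos_iff.2 (pow_ne_zero _ hk)) _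
      have h1 : ‖k ^ d‖ ^ d * ‖fm H (hF (Φ y) e₁)‖ ≤
          ‖k ^ d‖ ^ d * (K' * (B * r) * en (hF (Φ y) e₁) ^ d) := by
        linarith
      exact le_of_mul_le_mul_left h1 hkp
    refine (measure_mono hsub).trans ?_
    have hA0 : 0 ≤ C₁ * (K * r) ^ ((2 : ℝ) / d) := by positivity
    refine (fubini_gen hd hΦ hΦ2 hv hA0 (harea (K * r) (by positivity) hrτ) hr.le).trans ?_
    refine mul_le_mul_left (ENNReal.ofReal_le_ofReal ?_) _
    rw [Real.mul_rpow hKp.le hr.le]
    calc 2 * d * (C₁ * (K ^ ((2 : ℝ) / d) * r ^ ((2 : ℝ) / d))) *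
          ((1 + 2 * en b ^ 2) ^ Module.finrank ℝ (CV e)) ^ 2 / Real.pi
        = C₂ * r ^ ((2 : ℝ) / d) := by rw [hC₂, hQ]; ring
      _ ≤ _ := mul_le_mul_of_nonneg_right (le_max_left _ _) (by positivity)
  · rw [not_le] at hle
    refine (measure_mono inter_subset_right).trans ?_
    have h1 : 1 ≤ max C₂ (r₀ ^ (-((2 : ℝ) / d))) * r ^ ((2 : ℝ) / d) := by
      calc (1 : ℝ) = r₀ ^ (-((2 : ℝ) / d)) * r₀ ^ ((2 : ℝ) / d) := by
            rw [← Real.rpow_add hr₀p]; simp
        _ ≤ r₀ ^ (-((2 : ℝ) / d)) * r ^ ((2 : ℝ) / d) := by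
            refine mul_le_mul_of_nonneg_left (Real.rpow_le_rpow hr₀p.le hle.le (by positivity))
              (by positivity)
        _ ≤ _ := mul_le_mul_of_nonneg_right (le_max_right _ _) (by positivity)
    calc volume (closedBall v₀ r) = 1 * volume (closedBall v₀ r) := (one_mul _).symm
      _ ≤ _ := by
        refine mul_le_mul_left ?_ _
        rw [← ENNReal.ofReal_one]
        exact ENNReal.ofReal_le_ofReal h1

/-- a matrix as a vector of `CV 1` -/
def mt (y : CV 1) : (ℂ × ℂ) × (ℂ × ℂ) := ((y (0, 0), y (0, 1)), (y (1, 0), y (1, 1)))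

/-- the converse -/
def vm (m : (ℂ × ℂ) × (ℂ × ℂ)) : CV 1 := fun r =>
  if r.1 = 0 then (if r.2 = 0 then m.1.1 else m.1.2) else (if r.2 = 0 then m.2.1 else m.2.2)

theorem mt_vm (m : (ℂ × ℂ) × (ℂ × ℂ)) : mt (vm m) = m := by
  simp [mt, vm]

theorem vm_mt (y : CV 1) : vm (mt y) = y := by
  funext r
  obtain ⟨i, j⟩ := r
  fin_cases i <;> fin_cases j <;> simp [mt, vm]

theorem mt_cont : Continuous mt := by unfold mt; fun_prop

theorem vm_cont : Continuous vm := by
  refine continuous_pi fun r => ?_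
  unfold vm
  split_ifs <;> fun_prop

theorem cm_mt_ub (b : ℂ × ℂ) (κ : ℂ) (y : CV 1) (x : CV d) :
    cm (mt (cm (ub b κ) y)) x = cm (ub b κ) (cm (mt y) x) := by
  funext r
  unfold cm mt ub
  by_cases h : r.1 = 0
  · simp only [h, if_true, one_ne_zero, if_false]; ring
  · simp only [h, if_true, one_ne_zero, if_false]; ring

theorem cm_ub_rk (a b : ℂ × ℂ) (κ : ℂ) : cm (ub b κ) (vm (rk a b)) = vm (rk a b) := by
  funext r
  obtain ⟨i, j⟩ := r
  fin_cases i <;> fin_cases j <;> simp [cm, ub, rk, vm] <;> ring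

theorem norm_cm_mt (y : CV 1) (x : CV d) : ‖cm (mt y) x‖ ≤ (2 * ‖x‖ + 1) * ‖y‖ := by
  have hy : ∀ i j, ‖y (i, j)‖ ≤ ‖y‖ := fun i j => norm_le_pi_norm y (i, j)
  have hx : ∀ i j, ‖x (i, j)‖ ≤ ‖x‖ := fun i j => norm_le_pi_norm x (i, j)
  have hgen : ∀ u v s t : ℂ, ‖u‖ ≤ ‖y‖ → ‖v‖ ≤ ‖y‖ → ‖s‖ ≤ ‖x‖ → ‖t‖ ≤ ‖x‖ →
      ‖u * s + v * t‖ ≤ (2 * ‖x‖ + 1) * ‖y‖ := by
    intro u v s t hu hv hs ht
    refine (norm_add_le _ _).trans ?_
    rw [norm_mul, norm_mul]
    have h1 : ‖u‖ * ‖s‖ ≤ ‖y‖ * ‖x‖ := mul_le_mul hu hs (norm_nonneg _) (norm_nonneg _)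
    have h2 : ‖v‖ * ‖t‖ ≤ ‖y‖ * ‖x‖ := mul_le_mul hv ht (norm_nonneg _) (norm_nonneg _)
    nlinarith [norm_nonneg y]
  rw [pi_norm_le_iff_of_nonneg (by positivity)]
  rintro ⟨i, j⟩
  unfold cm mt
  by_cases h : i = 0
  · subst h
    simp only [if_true]
    exact hgen _ _ _ _ (hy _ _) (hy _ _) (hx _ _) (hx _ _)
  · simp only [h, if_false]
    exact hgen _ _ _ _ (hy _ _) (hy _ _) (hx _ _) (hx _ _)

theorem cm_mt_sub (y z : CV 1) (x : CV d) : cm (mt (y - z)) x = cm (mt y) x - cm (mt z) x := by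
  funext r
  unfold cm mt
  by_cases h : r.1 = 0
  · simp only [h, if_true, Pi.sub_apply]; ring
  · simp only [h, if_false, Pi.sub_apply]; ring

/-- the volume estimate in the orbit of one map -/
theorem density_orbit (hd : 2 ≤ d) {x : CV d} {a b : ℂ × ℂ} (hb : b ≠ 0)
    (h : cx a (hF x b) ≠ 0) :
    ∃ C : ℝ, 0 < C ∧ ∀ r : ℝ, 0 < r → r ≤ 1 →
      volume ({y : CV 1 | ND (cm (mt y) x) ∧ ¬ HypTop (sp (cm (mt y) x))} ∩
        closedBall (vm (rk a b)) r) ≤
        ENNReal.ofReal (C * r ^ ((2 : ℝ) / d)) * volume (closedBall (vm (rk a b)) r) := by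
  refine density_gen hd hb (H := a.1 • row x 1 - a.2 • row x 0) (by rw [fm_cr]; exact h)
    (Φ := fun y => cm (mt y) x) ((cm_cont x).comp mt_cont) (fun κ y => cm_mt_ub b κ y x)
    (cm_ub_rk a b) (B := 2 * ‖x‖ + 1) (by positivity) (fun y => ?_)
  have e : cm (mt y) x - st b (a.1 • row x 1 - a.2 • row x 0) = cm (mt (y - vm (rk a b))) x := by
    rw [cm_mt_sub, mt_vm, cm_rk]
  rw [e]
  exact norm_cm_mt _ _

end Run7.h964.CS
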